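import Pool.Agent.H465R3.Gadget

namespace Pool.Agent.H465R3

open Filter Topology

/-- A bounded projection with infinite-dimensional range and kernel gives property (H). -/
theorem propertyH_of_projection {X : Type*} [NormedAddCommGroup X] [NormedSpace ℝ X]
    (P : X →L[ℝ] X) (hP : ∀ x, P (P x) = P x)
    (hr : ¬ FiniteDimensional ℝ (LinearMap.range (P : X →ₗ[ℝ] X)))
    (hk : ¬ FiniteDimensional ℝ (LinearMap.ker (P : X →ₗ[ℝ] X))) : PropertyH X := by
  let Y := LinearMap.range (P : X →ₗ[ℝ] X)
  let Z := LinearMap.ker (P : X →ₗ[ℝ] X)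
  have hPY : ∀ y : Y, P (y : X) = y := by
    rintro ⟨_, x, rfl⟩
    exact hP x
  have hPZ : ∀ z : Z, P (z : X) = 0 := by
    rintro ⟨z, hz⟩
    exact hz
  let f : X →L[ℝ] Y × Z := ContinuousLinearMap.prod
    (P.codRestrict Y (fun x => ⟨x, rfl⟩))
    ((ContinuousLinearMap.id ℝ X - P).codRestrict Z (fun x => by
      change P (x - P x) = 0
      rw [map_sub, hP, sub_self]))
  let g : Y × Z →L[ℝ] X := (Y.subtypeL.comp (ContinuousLinearMap.fst ℝ Y Z)) +
    (Z.subtypeL.comp (ContinuousLinearMap.snd ℝ Y Z))
  have hg : ∀ a : Y × Z, g a = (a.1 : X) + (a.2 : X) := fun a => rfl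
  have h1 : Function.LeftInverse g f := by
    intro x
    rw [hg]
    change P x + (x - P x) = x
    abel
  have h2 : Function.RightInverse g f := by
    rintro ⟨y, z⟩
    apply Prod.ext
    · apply Subtype.ext
      change P (g (y, z)) = y
      rw [hg, map_add, hPY, hPZ, add_zero]
    · apply Subtype.ext
      change g (y, z) - P (g (y, z)) = z
      rw [hg, map_add, hPY, hPZ]
      simp
  have e : X ≃L[ℝ] Y × Z := ContinuousLinearEquiv.equivOfInverse f g h1 h2
  exact ((gadget_prod hr hk).transfer e).propertyH

/-- infinite-dimensionality from an infinite linearly independent family -/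
theorem not_fd_of_biorthogonal {X : Type*} [NormedAddCommGroup X] [NormedSpace ℝ X]
    (S : Submodule ℝ X) (e : ℕ → X) (he : LinearIndependent ℝ e) (hS : ∀ n, e n ∈ S) :
    ¬ FiniteDimensional ℝ S := by
  intro hfd
  have h : LinearIndependent ℝ (fun n => (⟨e n, hS n⟩ : S)) := by
    apply LinearIndependent.of_comp S.subtype
    exact he
  have := h.finite
  exact not_finite ℕ

/-- Case (b): spaces isomorphic to an infinite-dimensional Hilbert space. -/
theorem propertyH_of_hilbert {X H : Type*} [NormedAddCommGroup X] [NormedSpace ℝ X]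
    [NormedAddCommGroup H] [InnerProductSpace ℝ H] [CompleteSpace H]
    (hH : ¬ FiniteDimensional ℝ H) (φ : X ≃L[ℝ] H) : PropertyH X := by
  obtain ⟨w, b, hb⟩ := exists_hilbertBasis ℝ H
  have hinf : Infinite w := by
    by_contra hc
    rw [not_infinite_iff_finite] at hc
    apply hH
    have h1 := b.dense_span
    haveI : FiniteDimensional ℝ (Submodule.span ℝ (Set.range b)) :=
      FiniteDimensional.span_of_finite ℝ (Set.finite_range _)
    rw [IsClosed.submodule_topologicalClosure_eq
      (Submodule.closed_of_finiteDimensional _)] at h1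
    exact Module.Finite.equiv (R := ℝ) (M := Submodule.span ℝ (Set.range b)) (h1 ▸ Submodule.topEquiv)
  let em := Infinite.natEmbedding w
  let e : ℕ → H := fun n => b (em n)
  have heo : Orthonormal ℝ e := b.orthonormal.comp em em.injective
  let K : Submodule ℝ H := (Submodule.span ℝ (Set.range (fun n => e (2 * n)))).topologicalClosure
  have hKc : IsClosed (K : Set H) := Submodule.isClosed_topologicalClosure _
  haveI : CompleteSpace K := hKc.completeSpace_coe
  have hKe : ∀ n, e (2 * n) ∈ K := fun n =>
    Submodule.le_topologicalClosure _ (Submodule.subset_span ⟨n, rfl⟩)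
  have hKo : ∀ n, e (2 * n + 1) ∈ Kᗮ := by
    intro n
    rw [Submodule.orthogonal_closure]
    rw [Submodule.mem_orthogonal]
    intro u hu
    induction hu using Submodule.span_induction with
    | mem x hx =>
      obtain ⟨m, rfl⟩ := hx
      exact heo.2 (by omega)
    | zero => simp
    | add x y _ _ hx hy => rw [inner_add_left, hx, hy, add_zero]
    | smul a x _ hx => rw [inner_smul_left, hx, mul_zero]
  let P : H →L[ℝ] H := K.starProjection
  have hPid : ∀ x, P (P x) = P x := by
    intro x
    exact Submodule.starProjection_eq_self_iff.2 (Submodule.starProjection_apply_mem K x)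
  have hr : ¬ FiniteDimensional ℝ (LinearMap.range (P : H →ₗ[ℝ] H)) := by
    apply not_fd_of_biorthogonal _ (fun n => e (2 * n))
    · exact (heo.linearIndependent).comp _ (fun a b h => by simpa using h)
    · intro n
      exact ⟨e (2 * n), Submodule.starProjection_eq_self_iff.2 (hKe n)⟩
  have hk : ¬ FiniteDimensional ℝ (LinearMap.ker (P : H →ₗ[ℝ] H)) := by
    apply not_fd_of_biorthogonal _ (fun n => e (2 * n + 1))
    · exact (heo.linearIndependent).comp _ (fun a b h => by simpa using h)
    · intro n
      change P (e (2 * n + 1)) = 0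
      exact (Submodule.starProjection_apply_eq_zero_iff K).2 (hKo n)
  -- transport the projection to `X`
  let Q : X →L[ℝ] X := (φ.symm : H →L[ℝ] X).comp (P.comp (φ : X →L[ℝ] H))
  have hQ : ∀ x, Q x = φ.symm (P (φ x)) := fun x => rfl
  apply propertyH_of_projection Q
  · intro x
    rw [hQ, hQ]
    simp [hPid]
  · apply not_fd_of_biorthogonal _ (fun n => φ.symm (e (2 * n)))
    · have h1 : LinearIndependent ℝ (fun n => e (2 * n)) :=
        (heo.linearIndependent).comp _ (fun a b h => by simpa using h)
      exact h1.map' (φ.symm.toLinearEquiv : H →ₗ[ℝ] X) (LinearMap.ker_eq_bot.2 φ.symm.injective)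
    · intro n
      refine ⟨φ.symm (e (2 * n)), ?_⟩
      change Q (φ.symm (e (2 * n))) = _
      rw [hQ]
      simp only [ContinuousLinearEquiv.apply_symm_apply]
      congr 1
      exact Submodule.starProjection_eq_self_iff.2 (hKe n)
  · apply not_fd_of_biorthogonal _ (fun n => φ.symm (e (2 * n + 1)))
    · have h1 : LinearIndependent ℝ (fun n => e (2 * n + 1)) :=
        (heo.linearIndependent).comp _ (fun a b h => by simpa using h)
      exact h1.map' (φ.symm.toLinearEquiv : H →ₗ[ℝ] X) (LinearMap.ker_eq_bot.2 φ.symm.injective)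
    · intro n
      change Q (φ.symm (e (2 * n + 1))) = 0
      rw [hQ]
      simp only [ContinuousLinearEquiv.apply_symm_apply]
      rw [show P (e (2 * n + 1)) = 0 from (Submodule.starProjection_apply_eq_zero_iff K).2 (hKo n)]
      simp

end Pool.Agent.H465R3
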