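import Pool.Agent.H465R3.Cases

namespace Pool.Agent.H465R3

open Filter Topology

/-- `X` has an unconditional basis: a sequence `e` with continuous coordinate functionals `f` such
that every `x` is the unconditional sum of `f n x • e n`. -/
def HasUnconditionalBasis (X : Type*) [NormedAddCommGroup X] [NormedSpace ℝ X] : Prop :=
  ∃ (e : ℕ → X) (f : ℕ → X →L[ℝ] ℝ), (∀ i j, f i (e j) = if i = j then 1 else 0) ∧
    ∀ x, HasSum (fun n => f n x • e n) x

theorem linearIndependent_of_biorthogonal {X : Type*} [NormedAddCommGroup X] [NormedSpace ℝ X]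
    {e : ℕ → X} {f : ℕ → X →L[ℝ] ℝ} (h : ∀ i j, f i (e j) = if i = j then 1 else 0) :
    LinearIndependent ℝ e := by
  classical
  rw [linearIndependent_iff']
  intro s g hg i hi
  have h1 := congrArg (f i) hg
  rw [map_sum, map_zero] at h1
  simp only [map_smul, h, smul_eq_mul, mul_ite, mul_one, mul_zero] at h1
  rw [Finset.sum_ite_eq] at h1
  simpa [hi] using h1

theorem propertyH_of_unconditional {X : Type*} [NormedAddCommGroup X] [NormedSpace ℝ X]
    [CompleteSpace X] (h : HasUnconditionalBasis X) : PropertyH X := by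
  obtain ⟨e, f, hef, hsum⟩ := h
  have hinj : Function.Injective (fun n : ℕ => 2 * n) := fun a b h => by simpa using h
  have hinj' : Function.Injective (fun n : ℕ => 2 * n + 1) := fun a b h => by simpa using h
  let S : ℕ → X →L[ℝ] X := fun N =>
    ∑ n ∈ Finset.range N, (f (2 * n)).smulRight (e (2 * n))
  have hS : ∀ N x, S N x = ∑ n ∈ Finset.range N, f (2 * n) x • e (2 * n) := by
    intro N x
    simp [S]
  have hsumm : ∀ x, Summable (fun n => f (2 * n) x • e (2 * n)) := fun x =>
    (hsum x).summable.comp_injective hinj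
  let p : X → X := fun x => ∑' n, f (2 * n) x • e (2 * n)
  have htend : ∀ x, Tendsto (fun N => S N x) atTop (𝓝 (p x)) := by
    intro x
    simp only [hS]
    exact (hsumm x).hasSum.tendsto_sum_nat
  let P : X →L[ℝ] X := continuousLinearMapOfTendsto S (tendsto_pi_nhds.2 htend)
  have hPp : ∀ x, P x = p x := fun x => rfl
  have hfP : ∀ m x, f (2 * m) (P x) = f (2 * m) x := by
    intro m x
    have h1 : Tendsto (fun N => f (2 * m) (S N x)) atTop (𝓝 (f (2 * m) (P x))) :=
      ((f (2 * m)).continuous.tendsto _).comp (htend x)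
    have h2 : Tendsto (fun N => f (2 * m) (S N x)) atTop (𝓝 (f (2 * m) x)) := by
      apply tendsto_const_nhds.congr'
      filter_upwards [eventually_gt_atTop m] with N hN
      rw [hS, map_sum]
      simp only [map_smul, hef, smul_eq_mul, mul_ite, mul_one, mul_zero]
      rw [Finset.sum_eq_single m]
      · simp
      · intro b _ hb
        rw [if_neg]
        omega
      · intro hb
        exact absurd (Finset.mem_range.2 hN) hb
    exact tendsto_nhds_unique h1 h2
  have hPP : ∀ x, P (P x) = P x := by
    intro x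
    rw [hPp, hPp]
    change ∑' n, f (2 * n) (p x) • e (2 * n) = _
    congr 1
    funext n
    rw [← hPp, hfP]
  have hli := linearIndependent_of_biorthogonal hef
  apply propertyH_of_projection P hPP
  · apply not_fd_of_biorthogonal _ (fun n => e (2 * n)) (hli.comp _ hinj)
    intro n
    refine ⟨e (2 * n), ?_⟩
    change P (e (2 * n)) = _
    rw [hPp]
    change ∑' m, f (2 * m) (e (2 * n)) • e (2 * m) = _
    rw [tsum_eq_single n]
    · simp [hef]
    · intro m hm
      rw [hef, if_neg (by omega), zero_smul]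
  · apply not_fd_of_biorthogonal _ (fun n => e (2 * n + 1)) (hli.comp _ hinj')
    intro n
    change P (e (2 * n + 1)) = 0
    rw [hPp]
    change ∑' m, f (2 * m) (e (2 * n + 1)) • e (2 * m) = _
    rw [tsum_eq_single 0]
    · rw [hef, if_neg (by omega), zero_smul]
    · intro m hm
      rw [hef, if_neg (by omega), zero_smul]

/-- The set of quadratic variations of a sequence along finite increasing sequences of indices. -/
def jamesVar (x : ℕ → ℝ) : Set ℝ :=
  {r | ∃ (k : ℕ) (p : ℕ → ℕ), StrictMono p ∧
    r = Real.sqrt (∑ i ∈ Finset.range k, |x (p i) - x (p (i + 1))| ^ 2)}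

/-- `X` is (a linearly isometric copy of) James's space `J₂`. -/
def IsJamesSpace (X : Type*) [NormedAddCommGroup X] [NormedSpace ℝ X] : Prop :=
  ∃ ι : X →ₗ[ℝ] (ℕ → ℝ), Function.Injective ι ∧
    (∀ x : ℕ → ℝ, x ∈ Set.range ι ↔ Tendsto x atTop (𝓝 0) ∧ BddAbove (jamesVar x)) ∧
    ∀ x : X, ‖x‖ = sSup (jamesVar (ι x))

theorem jamesVar_le {y : ℕ → ℝ} {B : ℝ} (hB : ∀ N, ∑ m ∈ Finset.range N, y m ^ 2 ≤ B) :
    ∀ r ∈ jamesVar y, r ≤ 2 * Real.sqrt B := by
  classical
  rintro r ⟨k, p, hp, rfl⟩
  have h1 : ∑ i ∈ Finset.range k, |y (p i) - y (p (i + 1))| ^ 2 ≤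
      4 * ∑ i ∈ Finset.range (k + 1), y (p i) ^ 2 := by
    have h2 : ∑ i ∈ Finset.range k, |y (p i) - y (p (i + 1))| ^ 2 ≤
        ∑ i ∈ Finset.range k, (2 * y (p i) ^ 2 + 2 * y (p (i + 1)) ^ 2) := by
      refine Finset.sum_le_sum fun i _ => ?_
      rw [sq_abs]
      nlinarith [sq_nonneg (y (p i) + y (p (i + 1)))]
    have h3 : ∑ i ∈ Finset.range k, y (p i) ^ 2 ≤ ∑ i ∈ Finset.range (k + 1), y (p i) ^ 2 := by
      rw [Finset.sum_range_succ]
      have := sq_nonneg (y (p k))
      linarith
    have h4 : ∑ i ∈ Finset.range k, y (p (i + 1)) ^ 2 ≤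
        ∑ i ∈ Finset.range (k + 1), y (p i) ^ 2 := by
      rw [Finset.sum_range_succ']
      have := sq_nonneg (y (p 0))
      linarith
    rw [Finset.sum_add_distrib, ← Finset.mul_sum, ← Finset.mul_sum] at h2
    linarith
  have h5 : ∑ i ∈ Finset.range (k + 1), y (p i) ^ 2 ≤ B := by
    have h6 : ∑ i ∈ Finset.range (k + 1), y (p i) ^ 2 =
        ∑ m ∈ (Finset.range (k + 1)).image p, y m ^ 2 := by
      rw [Finset.sum_image]
      intro a _ b _ h
      exact hp.injective h
    rw [h6]
    refine le_trans ?_ (hB (p k + 1))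
    apply Finset.sum_le_sum_of_subset_of_nonneg
    · intro m hm
      rw [Finset.mem_image] at hm
      obtain ⟨i, hi, rfl⟩ := hm
      rw [Finset.mem_range] at hi ⊢
      have : p i ≤ p k := hp.monotone (by omega)
      omega
    · intro i _ _
      exact sq_nonneg _
  have h7 : Real.sqrt (∑ i ∈ Finset.range k, |y (p i) - y (p (i + 1))| ^ 2) ≤
      Real.sqrt (4 * B) := Real.sqrt_le_sqrt (h1.trans (by linarith))
  refine h7.trans (le_of_eq ?_)
  rw [Real.sqrt_mul (by norm_num)]
  congr 1
  rw [show (4:ℝ) = 2 ^ 2 by norm_num]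
  exact Real.sqrt_sq (by norm_num)

theorem sum_range_two_mul (g : ℕ → ℝ) (N : ℕ) :
    ∑ m ∈ Finset.range (2 * N), g m = ∑ n ∈ Finset.range N, (g (2 * n) + g (2 * n + 1)) := by
  induction N with
  | zero => simp
  | succ N ih =>
    rw [Finset.sum_range_succ, ← ih, show 2 * (N + 1) = 2 * N + 1 + 1 by ring,
      Finset.sum_range_succ, Finset.sum_range_succ]
    ring

theorem propertyH_of_james {X : Type*} [NormedAddCommGroup X] [NormedSpace ℝ X]
    (h : IsJamesSpace X) : PropertyH X := by
  classical
  obtain ⟨ι, hinj, hrange, hnorm⟩ := h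
  let A : (ℕ → ℝ) →ₗ[ℝ] (ℕ → ℝ) :=
    { toFun := fun x m => if Even m then x m - x (m + 1) else 0
      map_add' := by
        intro x y; funext m; simp only [Pi.add_apply]; split_ifs <;> ring
      map_smul' := by
        intro c x; funext m
        simp only [Pi.smul_apply, smul_eq_mul, RingHom.id_apply]; split_ifs <;> ring }
  have hA : ∀ x m, A x m = if Even m then x m - x (m + 1) else 0 := fun x m => rfl
  have hAA : ∀ x, A (A x) = A x := by
    intro x
    funext m
    rw [hA]
    split_ifs with hm
    · have : ¬ Even (m + 1) := by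
        intro h'
        rcases hm with ⟨a, ha⟩
        rcases h' with ⟨b, hb⟩
        omega
      rw [hA x (m+1), if_neg this, sub_zero]
    · rw [hA, if_neg hm]
  -- basic estimate
  have hsq : ∀ x : X, ∀ N, ∑ m ∈ Finset.range N, (A (ι x) m) ^ 2 ≤ ‖x‖ ^ 2 := by
    intro x N
    have hb := ((hrange (ι x)).1 ⟨x, rfl⟩).2
    have h1 : ∑ m ∈ Finset.range N, (A (ι x) m) ^ 2 ≤
        ∑ m ∈ Finset.range (2 * N), (A (ι x) m) ^ 2 := by
      apply Finset.sum_le_sum_of_subset_of_nonneg
      · intro m hm
        rw [Finset.mem_range] at hm ⊢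
        omega
      · intro i _ _; exact sq_nonneg _
    have h2 : ∑ m ∈ Finset.range (2 * N), (A (ι x) m) ^ 2 ≤
        ∑ m ∈ Finset.range (2 * N), |ι x m - ι x (m + 1)| ^ 2 := by
      refine Finset.sum_le_sum fun m _ => ?_
      rw [sq_abs, hA]
      split_ifs
      · exact le_rfl
      · have := sq_nonneg (ι x m - ι x (m+1))
        simpa using this
    have h3 : Real.sqrt (∑ m ∈ Finset.range (2 * N), |ι x m - ι x (m + 1)| ^ 2) ≤ ‖x‖ := by
      rw [hnorm]
      exact le_csSup hb ⟨2 * N, id, strictMono_id, rfl⟩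
    have h4 : ∑ m ∈ Finset.range (2 * N), |ι x m - ι x (m + 1)| ^ 2 ≤ ‖x‖ ^ 2 := by
      rw [← Real.sq_sqrt (Finset.sum_nonneg fun i _ => sq_nonneg _)]
      exact pow_le_pow_left₀ (Real.sqrt_nonneg _) h3 2
    linarith
  have hmem : ∀ x : X, A (ι x) ∈ LinearMap.range ι := by
    intro x
    apply (hrange _).2
    refine ⟨?_, 2 * Real.sqrt (‖x‖ ^ 2), jamesVar_le (hsq x)⟩
    have ht := ((hrange (ι x)).1 ⟨x, rfl⟩).1
    have ht1 : Tendsto (fun m => ι x (m + 1)) atTop (𝓝 0) := ht.comp (tendsto_add_atTop_nat 1)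
    have ht2 : Tendsto (fun m => |ι x m| + |ι x (m + 1)|) atTop (𝓝 0) := by
      have := ht.abs.add ht1.abs
      simpa using this
    apply squeeze_zero_norm _ ht2
    intro m
    rw [hA, Real.norm_eq_abs]
    split_ifs
    · exact abs_sub _ _
    · simp only [abs_zero]; positivity
  let eι : X ≃ₗ[ℝ] LinearMap.range ι := LinearEquiv.ofInjective ι hinj
  have heι : ∀ y : LinearMap.range ι, ι (eι.symm y) = y := by
    intro y
    have := eι.apply_symm_apply y
    exact congrArg Subtype.val this
  let P0 : X →ₗ[ℝ] X := eι.symm.toLinearMap.comp ((A.comp ι).codRestrict (LinearMap.range ι) hmem)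
  have hP0 : ∀ x, ι (P0 x) = A (ι x) := by
    intro x
    exact heι _
  have hbound : ∀ x, ‖P0 x‖ ≤ 2 * ‖x‖ := by
    intro x
    rw [hnorm (P0 x), hP0]
    apply csSup_le
    · exact ⟨_, 0, id, strictMono_id, rfl⟩
    · intro r hr
      have := jamesVar_le (hsq x) r hr
      rwa [Real.sqrt_sq (norm_nonneg _)] at this
  let P : X →L[ℝ] X := P0.mkContinuous 2 hbound
  have hP : ∀ x, ι (P x) = A (ι x) := hP0
  -- unit vectors
  have hunit : ∀ n : ℕ, (Pi.single n (1:ℝ) : ℕ → ℝ) ∈ LinearMap.range ι := by
    intro n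
    apply (hrange _).2
    constructor
    · apply tendsto_const_nhds.congr'
      filter_upwards [eventually_gt_atTop n] with m hm
      rw [Pi.single_eq_of_ne (by omega)]
    · refine ⟨2 * Real.sqrt 1, jamesVar_le fun N => ?_⟩
      calc ∑ m ∈ Finset.range N, (Pi.single n (1:ℝ) : ℕ → ℝ) m ^ 2
          ≤ ∑ m ∈ Finset.range N ∪ {n}, (Pi.single n (1:ℝ) : ℕ → ℝ) m ^ 2 := by
            apply Finset.sum_le_sum_of_subset_of_nonneg Finset.subset_union_left
            intro i _ _; exact sq_nonneg _
        _ = 1 := by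
            rw [Finset.sum_eq_single n]
            · simp
            · intro b _ hb
              rw [Pi.single_eq_of_ne hb]; norm_num
            · intro hn
              exact absurd (Finset.mem_union_right _ (Finset.mem_singleton_self n)) hn
  choose u hu using hunit
  have hli : LinearIndependent ℝ u := by
    apply LinearIndependent.of_comp ι
    have : ι ∘ u = fun n => (Pi.single n (1:ℝ) : ℕ → ℝ) := funext hu
    rw [this]
    exact Pi.linearIndependent_single_one ℕ ℝ
  apply propertyH_of_projection P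
  · intro x
    apply hinj
    rw [hP, hP, hAA]
  · apply not_fd_of_biorthogonal _ (fun n => u (2 * n)) (hli.comp _ (fun a b h => by simpa using h))
    intro n
    refine ⟨u (2 * n), hinj ?_⟩
    change ι (P (u (2 * n))) = _
    rw [hP, hu]
    funext m
    rw [hA]
    by_cases hm : m = 2 * n
    · subst hm
      rw [if_pos (by simp), Pi.single_eq_same, Pi.single_eq_of_ne (by omega), sub_zero]
    · split_ifs with hev
      · rw [Pi.single_eq_of_ne hm, Pi.single_eq_of_ne, sub_zero]
        rintro h'
        rcases hev with ⟨a, ha⟩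
        omega
      · rw [Pi.single_eq_of_ne hm]
  · apply not_fd_of_biorthogonal _ (fun n => u (2 * n) + u (2 * n + 1))
    · rw [linearIndependent_iff']
      intro s g hg i hi
      have h1 := congrArg (fun x => ι x (2 * i)) hg
      simp only [map_sum, map_smul, map_add, hu, map_zero] at h1
      rw [Finset.sum_apply] at h1
      rw [Finset.sum_eq_single i] at h1
      · simpa using h1
      · intro b _ hb
        simp only [Pi.smul_apply, Pi.add_apply, smul_eq_mul]
        rw [Pi.single_eq_of_ne (by omega), Pi.single_eq_of_ne (by omega)]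
        ring
      · intro h'; exact absurd hi h'
    · intro n
      change P (u (2 * n) + u (2 * n + 1)) = 0
      apply hinj
      rw [hP, map_add, hu, hu, map_zero]
      funext m
      rw [hA]
      simp only [Pi.add_apply, Pi.zero_apply]
      split_ifs with hev
      · by_cases hm : m = 2 * n
        · subst hm
          rw [Pi.single_eq_same, Pi.single_eq_of_ne (by omega), Pi.single_eq_of_ne (by omega),
            Pi.single_eq_same]
          ring
        · rcases hev with ⟨a, ha⟩
          rw [Pi.single_eq_of_ne hm, Pi.single_eq_of_ne (by omega), Pi.single_eq_of_ne (by omega),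
            Pi.single_eq_of_ne (by omega)]
          ring
      · rfl

end Pool.Agent.H465R3
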