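import Pool.Agent.H465R3.Map

namespace Pool.Agent.H465R3

variable {E : Type*} [NormedAddCommGroup E] [NormedSpace ℝ E]

theorem glue_lip {V : Type*} [NormedAddCommGroup V] (s : E → ℝ) (hs : Continuous s)
    (f1 f2 : E → V) (c C : ℝ)
    (h1 : ∀ y y', s y ≤ c → s y' ≤ c → ‖f1 y - f1 y'‖ ≤ C * ‖y - y'‖)
    (h2 : ∀ y y', c ≤ s y → c ≤ s y' → ‖f2 y - f2 y'‖ ≤ C * ‖y - y'‖)
    (heq : ∀ y, s y = c → f1 y = f2 y) (y y' : E) :
    ‖(if s y ≤ c then f1 y else f2 y) - (if s y' ≤ c then f1 y' else f2 y')‖ ≤ C * ‖y - y'‖ := by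
  have mixed : ∀ y y', s y ≤ c → c ≤ s y' → ‖f1 y - f2 y'‖ ≤ C * ‖y - y'‖ := by
    intro y y' h h'
    have hg : Continuous (fun r : ℝ => s (y + r • (y' - y))) := by
      apply hs.comp
      fun_prop
    have hivt := intermediate_value_Icc (zero_le_one' ℝ) hg.continuousOn
    have hmem : c ∈ Set.Icc ((fun r : ℝ => s (y + r • (y' - y))) 0)
        ((fun r : ℝ => s (y + r • (y' - y))) 1) := by
      simp only [zero_smul, add_zero, one_smul, add_sub_cancel]
      exact ⟨h, h'⟩
    obtain ⟨r, ⟨hr0, hr1⟩, hr⟩ := hivt hmem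
    simp only at hr
    set z := y + r • (y' - y) with hz
    have e1 : ‖y - z‖ = r * ‖y - y'‖ := by
      have : y - z = -(r • (y' - y)) := by rw [hz]; abel
      rw [this, norm_neg, norm_smul, Real.norm_eq_abs, abs_of_nonneg hr0, norm_sub_rev]
    have e2 : ‖z - y'‖ = (1 - r) * ‖y - y'‖ := by
      have : z - y' = (1 - r) • (y - y') := by
        rw [hz]; module
      rw [this, norm_smul, Real.norm_eq_abs, abs_of_nonneg (by linarith)]
    have e3 : f1 y - f2 y' = (f1 y - f1 z) + (f2 z - f2 y') := by
      rw [heq z hr]; abel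
    rw [e3]
    refine (norm_add_le _ _).trans ?_
    have g1 := h1 y z h hr.le
    have g2 := h2 z y' hr.ge h'
    rw [e1] at g1
    rw [e2] at g2
    nlinarith
  by_cases h : s y ≤ c <;> by_cases h' : s y' ≤ c
  · rw [if_pos h, if_pos h']; exact h1 y y' h h'
  · rw [if_pos h, if_neg h']; exact mixed y y' h (not_le.1 h').le
  · rw [if_neg h, if_pos h', norm_sub_rev, norm_sub_rev y y']; exact mixed y' y h' (not_le.1 h).le
  · rw [if_neg h, if_neg h']; exact h2 y y' (not_le.1 h).le (not_le.1 h').le

namespace Fan

variable (F : Fan E)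

theorem gam_add (k : ℕ) (u : ℝ) (h0 : 0 ≤ u) (h1 : u ≤ 1) :
    F.gam (k + u) = (1 - u) • F.x k + u • F.x (k + 1) := by
  unfold gam
  have e1 : hat (k + u) k = 1 - u := by
    unfold hat
    rw [add_sub_cancel_left, abs_of_nonneg h0, max_eq_right (by linarith)]
  have e2 : hat (k + u) (k + 1) = u := by
    unfold hat
    push_cast
    rw [abs_of_nonpos (by linarith), max_eq_right (by linarith)]
    ring
  rw [finsum_window _ k, e1, e2]
  intro j h2 h3
  have : hat (k + u) j = 0 := by
    unfold hat
    apply max_eq_left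
    rcases lt_or_gt_of_ne h2 with h | h
    · have : (j:ℝ) + 1 ≤ k := by exact_mod_cast h
      have := le_abs_self ((k:ℝ) + u - j)
      linarith
    · have h4 : k + 2 ≤ j := by omega
      have : (k:ℝ) + 2 ≤ j := by exact_mod_cast h4
      have := neg_le_abs ((k:ℝ) + u - j)
      linarith
  rw [this, zero_smul]

theorem t_eq {y : E} {n : ℕ} (h : ∀ i, i ≠ n → i ≠ n + 1 → F.q i y = 0) (hs : 0 < F.s y) :
    F.t y = n + F.q (n + 1) y / F.s y := by
  unfold t
  rw [F.mu_eq h]
  have := F.s_eq h
  field_simp
  rw [this]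
  ring

theorem T1_window {y : E} {k : ℕ} (h : ∀ i, i ≠ k + 1 → i ≠ k + 2 → F.q i y = 0) :
    F.T1 y = F.A y • F.x 0 + ((F.B y * F.q (k + 1) y) • F.x k +
      (F.B y * F.q (k + 2) y) • F.x (k + 1)) := by
  unfold T1
  rw [finsum_window _ k]
  intro i h1 h2
  rw [h (i+1) (by omega) (by omega), mul_zero, zero_smul]

theorem T1_window0 {y : E} (h : ∀ i, i ≠ 0 → i ≠ 0 + 1 → F.q i y = 0) :
    F.T1 y = F.A y • F.x 0 + (F.B y * F.q 1 y) • F.x 0 := by
  unfold T1
  rw [finsum_window _ 0]
  · rw [h (0 + 1 + 1) (by omega) (by omega)]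
    simp
  · intro i h1 h2
    rw [h (i+1) (by omega) (by omega), mul_zero, zero_smul]

theorem T1_eq_T3 (y : E) (hs : F.s y = 1 / 2) : F.T1 y = F.T3 y := by
  obtain ⟨n, hn⟩ := F.window y
  have hsn := F.s_eq hn
  rw [hs] at hsn
  have hW : F.W y = 2 := by
    unfold W; rw [hs]; norm_num
  have hB : F.B y = 2 := by
    unfold B; rw [hs, hW]; norm_num
  have hA : F.A y = 2 * F.q 0 y := by
    unfold A; rw [hs, hW]; norm_num
  have hth : F.th y = -1 := by
    unfold th; rw [hs]; norm_num
  have ht := F.t_eq hn (by rw [hs]; norm_num)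
  rw [hs] at ht
  have hq0 := F.q_nonneg n y
  have hq1 := F.q_nonneg (n+1) y
  rcases n with _ | k
  · rw [F.T1_window0 hn, hA, hB, ← add_smul]
    have e1 : 2 * F.q 0 y + 2 * F.q 1 y = 1 := by
      simp only [zero_add] at hsn
      linarith
    rw [e1, one_smul]
    unfold T3 tau
    rw [hth, ht]
    have e2 : max 0 (((0:ℕ):ℝ) + F.q (0 + 1) y / (1 / 2) + -1) = ((0:ℕ):ℝ) + 0 := by
      rw [max_eq_left]
      · simp
      · simp only [zero_add, Nat.cast_zero] at *
        linarith
    rw [e2, F.gam_add 0 0 le_rfl zero_le_one]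
    simp
  · rw [F.T1_window hn, hA, hB, hn 0 (by omega) (by omega)]
    unfold T3 tau
    rw [hth, ht]
    have e2 : max 0 (((k + 1:ℕ):ℝ) + F.q (k + 1 + 1) y / (1 / 2) + -1)
        = (k:ℝ) + 2 * F.q (k + 2) y := by
      push_cast
      rw [max_eq_right]
      · ring
      · have : (0:ℝ) ≤ k := Nat.cast_nonneg k
        have h3 : 0 ≤ F.q (k + 1 + 1) y / (1 / 2) := by positivity
        linarith
    rw [e2, F.gam_add k (2 * F.q (k + 2) y) (by linarith) (by
      have : F.q (k + 1 + 1) y = F.q (k + 2) y := rfl
      linarith)]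
    have e3 : 1 - 2 * F.q (k + 2) y = 2 * F.q (k + 1) y := by
      have : F.q (k + 1 + 1) y = F.q (k + 2) y := rfl
      linarith
    rw [e3]
    simp

theorem s_continuous : Continuous F.s := by
  have : LipschitzWith (Real.toNNReal (4 * F.L)) F.s := by
    apply LipschitzWith.of_dist_le_mul
    intro x y
    rw [Real.dist_eq, dist_eq_norm, Real.coe_toNNReal _ (by have := F.hL; linarith)]
    exact F.s_lip x y
  exact this.continuous

/-- The fixed point free map. -/
noncomputable def T (y : E) : E := if F.s y ≤ 1 / 2 then F.T1 y else F.T3 y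

theorem T_lip (y y' : E) : ‖F.T y - F.T y'‖ ≤ 10000 * F.L * ‖y - y'‖ :=
  glue_lip F.s F.s_continuous F.T1 F.T3 (1/2) (10000 * F.L)
    (fun y y' _ _ => F.T1_lip y y') (fun y y' h h' => F.T3_lip y y' h h')
    (fun y h => F.T1_eq_T3 y h) y y'

theorem T_disp (y : E) : 1 / (64 * F.L) ≤ ‖y - F.T y‖ ∧ ‖F.T y‖ ≤ 3 := by
  have hL := F.hL
  have hLpos : 0 < 64 * F.L := by linarith
  obtain ⟨n, hn⟩ := F.window y
  have hsn := F.s_eq hn
  have hqn := F.q_nonneg n y
  have hqn1 := F.q_nonneg (n+1) y
  have key : ∀ v : FanPt, F.T y = v.pt F.x → ((∀ i, |F.q i y - v.cf i| < 1 / 64) → False) →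
      1 / (64 * F.L) ≤ ‖y - F.T y‖ ∧ ‖F.T y‖ ≤ 3 := by
    intro v hv hfalse
    refine ⟨?_, by rw [hv]; exact F.norm_pt_le v⟩
    by_contra hc
    push Not at hc
    apply hfalse
    intro i
    have h1 := F.q_lip i y (F.T y)
    rw [hv, F.q_fan] at h1
    rw [hv] at hc
    rw [lt_div_iff₀ hLpos] at hc
    refine lt_of_le_of_lt h1 ?_
    linarith
  by_cases hs : F.s y ≤ 1 / 2
  · have hT : F.T y = F.T1 y := by unfold T; rw [if_pos hs]
    by_cases hs4 : F.s y ≤ 1 / 4
    · have hW : F.W y = 4 := by
        unfold W; rw [max_eq_left hs4]; norm_num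
      have hB : F.B y = 0 := by
        unfold B; rw [max_eq_left (by linarith)]; simp
      have hA : F.A y = 1 - 4 * F.s y + 4 * F.q 0 y := by
        unfold A; rw [max_eq_right (by linarith), hW]
      have hT1 : F.T1 y = F.A y • F.x 0 := by
        unfold T1; rw [hB]; simp
      have h0s := F.q_le_s 0 y
      have h0 := F.q_nonneg 0 y
      refine key ⟨0, F.A y, 0, by rw [hA]; linarith, le_rfl, by rw [hA]; linarith⟩ ?_ ?_
      · rw [hT, hT1]; simp [FanPt.pt]
      · intro h
        rcases n with _ | k
        · have h00 := h 0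
          have h01 := h 1
          simp only [FanPt.cf] at h00 h01
          simp only [if_true, zero_add, if_neg (one_ne_zero), sub_zero] at h00 h01
          simp only [zero_add] at hsn hqn hqn1
          rw [hA, hsn] at h00
          have g1 := abs_lt.1 h00
          have g2 : F.q 1 y < 1 / 64 := by
            refine lt_of_le_of_lt (le_abs_self _) ?_
            simpa using h01
          linarith [g1.1, g1.2]
        · have h00 := h 0
          have hk1 := h (k+1)
          have hk2 := h (k+2)
          simp only [FanPt.cf] at h00 hk1 hk2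
          have z0 : F.q 0 y = 0 := hn 0 (by omega) (by omega)
          rw [if_pos trivial, hA, z0] at h00
          rw [if_neg (by omega)] at hk1 hk2
          have c1 : (if k + 1 = 0 + 1 then (0:ℝ) else 0) = 0 := by split_ifs <;> rfl
          have c2 : (if k + 2 = 0 + 1 then (0:ℝ) else 0) = 0 := by split_ifs <;> rfl
          rw [c1, sub_zero] at hk1
          rw [c2, sub_zero] at hk2
          have g0 := abs_lt.1 h00
          have g1 := lt_of_le_of_lt (le_abs_self _) hk1
          have g2 := lt_of_le_of_lt (le_abs_self _) hk2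
          have e : F.q (k + 1 + 1) y = F.q (k + 2) y := rfl
          linarith [g0.1, g0.2]
    · push Not at hs4
      have hspos : 0 < F.s y := by linarith
      have hW : F.W y = 1 / F.s y := by
        unfold W; rw [max_eq_right hs4.le]
      have hB : F.B y = (4 * F.s y - 1) / F.s y := by
        unfold B; rw [max_eq_right (by linarith), hW]; ring
      have hA : F.A y = F.q 0 y / F.s y := by
        unfold A; rw [max_eq_left (by linarith), hW]; ring
      have hB2 : F.B y ≤ 2 := by
        rw [hB, div_le_iff₀ hspos]; linarith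
      have hB0 := F.B_nonneg y
      have hBs : F.B y * F.s y ≤ 1 := by
        rw [hB, div_mul_cancel₀ _ hspos.ne']; linarith
      rcases n with _ | k
      · simp only [zero_add] at hsn hqn hqn1
        have hA0 : 0 ≤ F.A y := by rw [hA]; positivity
        have hAB : F.A y + F.B y * F.q 1 y ≤ 1 := by
          rw [hA, hB, div_mul_eq_mul_div, ← add_div, div_le_one hspos]
          nlinarith
        refine key ⟨0, F.A y + F.B y * F.q 1 y, 0, by positivity, le_rfl, by linarith⟩ ?_ ?_
        · rw [hT, F.T1_window0 hn]; simp [FanPt.pt, add_smul]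
        · intro h
          have h00 := h 0
          have h01 := h 1
          simp only [FanPt.cf] at h00 h01
          simp only [if_true, zero_add, if_neg (one_ne_zero), sub_zero] at h00 h01
          have g1 := abs_lt.1 h00
          have g2 : F.q 1 y < 1 / 64 := by
            refine lt_of_le_of_lt (le_abs_self _) ?_
            simpa using h01
          have g3 : 2 * F.q 0 y ≤ F.A y := by
            rw [hA, le_div_iff₀ hspos]; nlinarith
          have g4 : 0 ≤ F.B y * F.q 1 y := by positivity
          linarith [g1.1, g1.2]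
      · have z0 : F.q 0 y = 0 := hn 0 (by omega) (by omega)
        have e : F.q (k + 1 + 1) y = F.q (k + 2) y := rfl
        rw [e] at hsn hqn1
        have hsum : F.B y * F.q (k + 1) y + F.B y * F.q (k + 2) y ≤ 1 := by
          rw [← mul_add, ← hsn]; exact hBs
        refine key ⟨k, F.B y * F.q (k + 1) y, F.B y * F.q (k + 2) y, by positivity, by positivity,
          hsum⟩ ?_ ?_
        · rw [hT, F.T1_window hn, hA, z0]; simp [FanPt.pt]
        · intro h
          have hk1 := h (k+1)
          have hk2 := h (k+2)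
          simp only [FanPt.cf] at hk1 hk2
          rw [if_neg (by omega), if_pos trivial] at hk1
          rw [if_neg (by omega), if_neg (by omega), sub_zero] at hk2
          have g1 := abs_lt.1 hk1
          have g2 := lt_of_le_of_lt (le_abs_self _) hk2
          have g3 : F.B y * F.q (k + 2) y ≤ 2 * F.q (k + 2) y := by
            exact mul_le_mul_of_nonneg_right hB2 hqn1
          linarith [g1.1, g1.2]
  · push Not at hs
    have hspos : 0 < F.s y := by linarith
    have hT : F.T y = F.T3 y := by unfold T; rw [if_neg (not_le.2 hs)]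
    have ht := F.t_eq hn hspos
    have hτ0 := F.tau_nonneg y
    set τ := F.tau y with hτ
    refine key (gpt τ hτ0) (by rw [hT, F.T3_eq]) ?_
    intro h
    set m := ⌊τ⌋₊ with hm
    have hf1 : (m : ℝ) ≤ τ := Nat.floor_le hτ0
    have hf2 : τ < m + 1 := Nat.lt_floor_add_one τ
    have hcf : ∀ i, (gpt τ hτ0).cf i = if i = m then 1 - (τ - m) else if i = m + 1 then τ - m else 0 :=
      fun i => rfl
    simp only [hcf] at h
    -- total masses are close
    have hmass : |F.s y - 1| < 1 / 16 := by
      have a1 := h n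
      have a2 := h (n+1)
      have a3 := h m
      have a4 := h (m+1)
      rw [if_pos rfl] at a3
      rw [if_neg (by omega), if_pos rfl] at a4
      rw [abs_lt] at a1 a2 a3 a4 ⊢
      rw [hsn]
      by_cases c1 : m = n
      · subst c1
        rw [if_pos rfl] at a1
        rw [if_neg (by omega), if_pos rfl] at a2
        constructor <;> linarith [a1.1, a1.2, a2.1, a2.2]
      · by_cases c2 : m = n + 1
        · rw [if_neg (by omega), if_neg (by omega)] at a1
          rw [c2] at a3 a4 a2
          rw [if_pos rfl] at a2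
          have z : F.q (n + 1 + 1) y = 0 := hn _ (by omega) (by omega)
          rw [z] at a4
          constructor <;> linarith [a1.1, a1.2, a2.1, a2.2, a4.1, a4.2]
        · by_cases c3 : m + 1 = n
          · have z : F.q m y = 0 := hn _ (by omega) (by omega)
            rw [z] at a3
            rw [if_neg (by omega), if_pos (by omega)] at a1
            rw [if_neg (by omega), if_neg (by omega)] at a2
            constructor <;> linarith [a1.1, a1.2, a2.1, a2.2, a3.1, a3.2]
          · rw [if_neg (by omega), if_neg (by omega)] at a1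
            rw [if_neg (by omega), if_neg (by omega)] at a2
            have z : F.q m y = 0 := hn _ (by omega) (by omega)
            have z' : F.q (m+1) y = 0 := hn _ (by omega) (by omega)
            rw [z] at a3
            rw [z'] at a4
            constructor <;> linarith [a1.1, a1.2, a2.1, a2.2, a3.1, a3.2, a4.1, a4.2]
    rw [abs_lt] at hmass
    have hth : 3 / 4 ≤ F.th y ∧ F.th y ≤ 1 := by
      unfold th
      exact ⟨le_min (by linarith [hmass.1]) (by norm_num), min_le_right _ _⟩
    have hfrac0 : 0 ≤ F.q (n + 1) y / F.s y := by positivity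
    have hfrac1 : F.q (n + 1) y / F.s y ≤ 1 := by
      rw [div_le_one hspos]; linarith
    have hn0 : (0:ℝ) ≤ n := Nat.cast_nonneg n
    have hτeq : τ = n + F.q (n + 1) y / F.s y + F.th y := by
      rw [hτ]
      unfold tau
      rw [ht, max_eq_right (by linarith [hth.1])]
    have hmn : n ≤ m := by
      have : (n:ℝ) < m + 1 := by linarith [hth.1]
      have : n < m + 1 := by exact_mod_cast this
      omega
    have hmn2 : m ≤ n + 2 := by
      have : (m:ℝ) ≤ n + 2 := by linarith [hth.2]
      exact_mod_cast this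
    have hfs : F.q (n + 1) y / F.s y * F.s y = F.q (n + 1) y := div_mul_cancel₀ _ hspos.ne'
    rcases (by omega : m = n ∨ m = n + 1 ∨ m = n + 2) with c | c | c
    · have a2 := h (n+1)
      rw [if_neg (by omega), if_pos (by omega), abs_lt] at a2
      have : (m:ℝ) = n := by exact_mod_cast c
      rw [this, hτeq] at a2
      nlinarith [a2.1, a2.2, hth.1]
    · have a1 := h n
      have a3 := h (n+2)
      rw [if_neg (by omega), if_neg (by omega), abs_lt] at a1
      rw [if_neg (by omega), if_pos (by omega), abs_lt] at a3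
      have z : F.q (n + 2) y = 0 := hn _ (by omega) (by omega)
      rw [z] at a3
      have : (m:ℝ) = n + 1 := by exact_mod_cast c
      rw [this, hτeq] at a3
      have : 1 - F.q (n + 1) y / F.s y < 1 / 32 := by
        have e1 : 1 - F.q (n + 1) y / F.s y = F.q n y / F.s y := by
          rw [hsn]
          have : F.q n y + F.q (n+1) y ≠ 0 := by rw [← hsn]; exact hspos.ne'
          field_simp
          ring
        rw [e1, div_lt_iff₀ hspos]
        linarith [a1.1, a1.2, hmass.1]
      linarith [a3.1, a3.2, hth.1]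
    · have a3 := h (n+2)
      have a4 := h (n+3)
      rw [if_pos (by omega), abs_lt] at a3
      rw [if_neg (by omega), if_pos (by omega), abs_lt] at a4
      have z : F.q (n + 2) y = 0 := hn _ (by omega) (by omega)
      have z' : F.q (n + 3) y = 0 := hn _ (by omega) (by omega)
      rw [z] at a3
      rw [z'] at a4
      linarith [a3.1, a3.2, a4.1, a4.2]

end Fan

end Pool.Agent.H465R3
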