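import Pool.Agent.H465R3.Riesz

namespace Pool.Agent.H465R3

variable {E : Type*} [NormedAddCommGroup E] [NormedSpace ℝ E]

/-- Points of the model fan. -/
structure FanPt where
  n : ℕ
  a : ℝ
  b : ℝ
  ha : 0 ≤ a
  hb : 0 ≤ b
  hab : a + b ≤ 1

instance : Inhabited FanPt := ⟨⟨0, 0, 0, le_rfl, le_rfl, by norm_num⟩⟩

namespace FanPt

/-- coordinate -/
def cf (v : FanPt) (i : ℕ) : ℝ := if i = v.n then v.a else if i = v.n + 1 then v.b else 0

/-- position -/
def pt (v : FanPt) (x : ℕ → E) : E := v.a • x v.n + v.b • x (v.n + 1)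

theorem cf_nonneg (v : FanPt) (i : ℕ) : 0 ≤ v.cf i := by
  unfold cf
  split_ifs
  · exact v.ha
  · exact v.hb
  · exact le_rfl

theorem cf_le_one (v : FanPt) (i : ℕ) : v.cf i ≤ 1 := by
  have := v.ha; have := v.hb; have := v.hab
  unfold cf
  split_ifs <;> linarith

theorem cf_eq_zero (v : FanPt) (i : ℕ) (h1 : i ≠ v.n) (h2 : i ≠ v.n + 1) : v.cf i = 0 := by
  simp [cf, h1, h2]

theorem pt_eq_sum (v : FanPt) (x : ℕ → E) (s : Finset ℕ) (h1 : v.n ∈ s) (h2 : v.n + 1 ∈ s) :
    v.pt x = ∑ j ∈ s, v.cf j • x j := by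
  classical
  have hsub : ({v.n, v.n + 1} : Finset ℕ) ⊆ s := by
    intro j hj
    simp only [Finset.mem_insert, Finset.mem_singleton] at hj
    rcases hj with rfl | rfl
    · exact h1
    · exact h2
  rw [← Finset.sum_subset hsub]
  · rw [Finset.sum_pair (by omega)]
    simp [pt, cf]
  · intro j _ hj
    simp only [Finset.mem_insert, Finset.mem_singleton, not_or] at hj
    rw [cf_eq_zero v j hj.1 hj.2, zero_smul]

end FanPt

theorem cf_diff_le {x : ℕ → E} (hx : IsRiesz x) (v w : FanPt) (i : ℕ) :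
    |v.cf i - w.cf i| ≤ 256 * ‖v.pt x - w.pt x‖ := by
  classical
  set s : Finset ℕ := {v.n, v.n + 1, w.n, w.n + 1} with hs
  have hcard : s.card ≤ 4 := Finset.card_le_four
  by_cases hi : i ∈ s
  · rw [v.pt_eq_sum x s (by simp [hs]) (by simp [hs]), w.pt_eq_sum x s (by simp [hs]) (by simp [hs]),
      ← Finset.sum_sub_distrib]
    have h := coord_bound hx (fun j => v.cf j - w.cf j) s i hi
    simp only [sub_smul] at h
    refine h.trans ?_
    have h4 : (4:ℝ) ^ s.card ≤ 4 ^ 4 := pow_le_pow_right₀ (by norm_num) hcard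
    have : (4:ℝ) ^ 4 = 256 := by norm_num
    rw [this] at h4
    exact mul_le_mul_of_nonneg_right h4 (norm_nonneg _)
  · simp only [hs, Finset.mem_insert, Finset.mem_singleton, not_or] at hi
    rw [v.cf_eq_zero i hi.1 hi.2.1, w.cf_eq_zero i hi.2.2.1 hi.2.2.2]
    simp

/-- A fan together with Lipschitz coordinate functions. -/
structure Fan (E : Type*) [NormedAddCommGroup E] [NormedSpace ℝ E] where
  x : ℕ → E
  q : ℕ → E → ℝ
  L : ℝ
  hL : 1 ≤ L
  norm_x : ∀ n, ‖x n‖ ≤ 3
  q_nonneg : ∀ i y, 0 ≤ q i y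
  q_le_one : ∀ i y, q i y ≤ 1
  q_lip : ∀ i y y', |q i y - q i y'| ≤ L * ‖y - y'‖
  q_sep : ∀ i j y, i + 2 ≤ j → q i y ≠ 0 → q j y = 0
  q_fan : ∀ (v : FanPt) i, q i (v.pt x) = v.cf i

theorem exists_fan' (hE : ¬ FiniteDimensional ℝ E) : ∃ F : Fan E, F.L = 1024 := by
  obtain ⟨x, hx⟩ := exists_riesz hE
  let f : ℕ → E → FanPt → ℝ := fun i y v => max 0 (v.cf i - 1024 * ‖y - v.pt x‖)
  have hbdd : ∀ i y, BddAbove (Set.range (f i y)) := by
    intro i y
    refine ⟨1, ?_⟩
    rintro _ ⟨v, rfl⟩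
    refine max_le zero_le_one ?_
    have := v.cf_le_one i
    have := norm_nonneg (y - v.pt x)
    linarith
  let q : ℕ → E → ℝ := fun i y => ⨆ v, f i y v
  have hlt : ∀ i y, q i y ≠ 0 → ∃ v : FanPt, 1024 * ‖y - v.pt x‖ < v.cf i := by
    intro i y h
    have h0 : 0 ≤ q i y := le_ciSup_of_le (hbdd i y) default (le_max_left _ _)
    have hpos : 0 < q i y := lt_of_le_of_ne h0 (Ne.symm h)
    obtain ⟨v, hv⟩ := exists_lt_of_lt_ciSup hpos
    refine ⟨v, ?_⟩
    rcases lt_max_iff.1 hv with h | h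
    · exact absurd h (lt_irrefl _)
    · linarith
  have hlip1 : ∀ i y y', q i y ≤ q i y' + 1024 * ‖y - y'‖ := by
    intro i y y'
    refine ciSup_le fun v => ?_
    have h1 : f i y' v ≤ q i y' := le_ciSup (hbdd i y') v
    have h2 : f i y v ≤ f i y' v + 1024 * ‖y - y'‖ := by
      have h3 : ‖y' - v.pt x‖ ≤ ‖y - y'‖ + ‖y - v.pt x‖ := by
        have : y' - v.pt x = -(y - y') + (y - v.pt x) := by abel
        rw [this]
        refine (norm_add_le _ _).trans ?_
        rw [norm_neg]
      have := norm_nonneg (y - y')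
      refine max_le ?_ ?_
      · have : 0 ≤ f i y' v := le_max_left _ _
        linarith
      · have : v.cf i - 1024 * ‖y' - v.pt x‖ ≤ f i y' v := le_max_right _ _
        linarith
    linarith
  refine ⟨⟨x, q, 1024, by norm_num, hx.1, ?_, ?_, ?_, ?_, ?_⟩, rfl⟩
  · intro i y
    exact le_ciSup_of_le (hbdd i y) default (le_max_left _ _)
  · intro i y
    refine ciSup_le fun v => max_le zero_le_one ?_
    have := v.cf_le_one i
    have := norm_nonneg (y - v.pt x)
    linarith
  · intro i y y'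
    rw [abs_le]
    have h1 := hlip1 i y y'
    have h2 := hlip1 i y' y
    rw [norm_sub_rev y' y] at h2
    constructor <;> linarith
  · intro i j y hij hi
    by_contra hj
    obtain ⟨v, hv⟩ := hlt i y hi
    obtain ⟨w, hw⟩ := hlt j y hj
    have hvw : ‖v.pt x - w.pt x‖ ≤ ‖y - v.pt x‖ + ‖y - w.pt x‖ := by
      have : v.pt x - w.pt x = -(y - v.pt x) + (y - w.pt x) := by abel
      rw [this]
      refine (norm_add_le _ _).trans ?_
      rw [norm_neg]
    have h1 := cf_diff_le hx v w i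
    have h2 := cf_diff_le hx v w j
    have n1 := norm_nonneg (y - v.pt x)
    have n2 := norm_nonneg (y - w.pt x)
    have hvi : v.cf i ≠ 0 := by intro h; rw [h] at hv; linarith
    have hwj : w.cf j ≠ 0 := by intro h; rw [h] at hw; linarith
    have hvj : v.cf j = 0 := by
      apply v.cf_eq_zero
      · rintro rfl
        apply hvi
        apply v.cf_eq_zero <;> omega
      · rintro rfl
        apply hvi
        apply v.cf_eq_zero <;> omega
    have hwi : w.cf i = 0 := by
      apply w.cf_eq_zero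
      · rintro rfl
        apply hwj
        apply w.cf_eq_zero <;> omega
      · rintro rfl
        apply hwj
        apply w.cf_eq_zero <;> omega
    rw [hwi, sub_zero, abs_of_nonneg (v.cf_nonneg i)] at h1
    rw [hvj, zero_sub, abs_neg, abs_of_nonneg (w.cf_nonneg j)] at h2
    linarith
  · intro v i
    apply le_antisymm
    · refine ciSup_le fun w => max_le (v.cf_nonneg i) ?_
      have h1 := cf_diff_le hx w v i
      have h2 := (abs_le.1 h1).2
      rw [norm_sub_rev] at h2
      have := norm_nonneg (v.pt x - w.pt x)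
      linarith
    · have h := le_ciSup (hbdd i (v.pt x)) v
      refine le_trans ?_ h
      refine le_trans ?_ (le_max_right _ _)
      simp

theorem exists_fan (hE : ¬ FiniteDimensional ℝ E) : Nonempty (Fan E) :=
  ⟨(exists_fan' hE).choose⟩

end Pool.Agent.H465R3
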