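import Pool.Agent.H465R3.Retr

namespace Pool.Agent.H465R3

/-- A bounded, uniformly Lipschitz, fixed point free map with null minimal displacement. -/
def Gadget (X : Type*) [NormedAddCommGroup X] : Prop :=
  ∃ (U : X → X) (K M : ℝ), 1 ≤ K ∧ 1 ≤ M ∧
    (∀ n : ℕ, 1 ≤ n → ∀ a b, ‖U^[n] a - U^[n] b‖ ≤ K * ‖a - b‖) ∧ (∀ a, ‖U a‖ ≤ M) ∧
    (∀ a, U a ≠ a) ∧ ∀ η : ℝ, 0 < η → ∃ a, ‖a‖ ≤ M ∧ ‖a - U a‖ < η

/-- Property (H): for each `α ∈ (0,1)` the closed unit ball admits a fixed point free uniformly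
`α`-Hölder nonexpansive self-map with null minimal displacement. -/
def PropertyH (X : Type*) [NormedAddCommGroup X] [NormedSpace ℝ X] : Prop :=
  ∀ α : ℝ, 0 < α → α < 1 →
    ∃ T : Metric.closedBall (0 : X) 1 → Metric.closedBall (0 : X) 1,
      (∀ n : ℕ, 1 ≤ n → ∀ x y : Metric.closedBall (0 : X) 1,
        ‖(T^[n] x : X) - (T^[n] y : X)‖ ≤ ‖(x : X) - (y : X)‖ ^ α) ∧
      (∀ x, T x ≠ x) ∧ (⨅ x : Metric.closedBall (0 : X) 1, ‖(x : X) - (T x : X)‖) = 0

theorem Gadget.transfer {X Y : Type*} [NormedAddCommGroup X] [NormedSpace ℝ X]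
    [NormedAddCommGroup Y] [NormedSpace ℝ Y] (h : Gadget Y) (e : X ≃L[ℝ] Y) : Gadget X := by
  obtain ⟨U, K, M, hK, hM, hlip, hbd, hfix, hdisp⟩ := h
  set A := ‖(e : X →L[ℝ] Y)‖ with hA
  set B := ‖(e.symm : Y →L[ℝ] X)‖ with hB
  have hA0 : 0 ≤ A := norm_nonneg _
  have hB0 : 0 ≤ B := norm_nonneg _
  have hAe : ∀ x, ‖e x‖ ≤ A * ‖x‖ := fun x => (e : X →L[ℝ] Y).le_opNorm x
  have hBe : ∀ y, ‖e.symm y‖ ≤ B * ‖y‖ := fun y => (e.symm : Y →L[ℝ] X).le_opNorm y
  have hit : ∀ n a, (fun x => e.symm (U (e x)))^[n] a = e.symm (U^[n] (e a)) := by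
    intro n
    induction n with
    | zero => intro a; simp
    | succ n ih =>
      intro a
      rw [Function.iterate_succ_apply', ih, Function.iterate_succ_apply']
      simp
  refine ⟨fun x => e.symm (U (e x)), 1 + B * K * A, 1 + B * M, ?_, ?_, ?_, ?_, ?_, ?_⟩
  · have : 0 ≤ B * K * A := by positivity
    linarith
  · have : 0 ≤ B * M := by positivity
    linarith
  · intro n hn a b
    rw [hit, hit, ← map_sub]
    refine (hBe _).trans ?_
    have h1 := hlip n hn (e a) (e b)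
    have h2 := hAe (a - b)
    rw [map_sub] at h2
    have h3 := norm_nonneg (a - b)
    calc B * ‖U^[n] (e a) - U^[n] (e b)‖ ≤ B * (K * (A * ‖a - b‖)) := by gcongr; exact h1.trans (by gcongr)
      _ ≤ (1 + B * K * A) * ‖a - b‖ := by nlinarith
  · intro a
    refine (hBe _).trans ?_
    have := hbd (e a)
    nlinarith
  · intro a ha
    apply hfix (e a)
    have := congrArg e ha
    simpa using this
  · intro η hη
    obtain ⟨a, ha1, ha2⟩ := hdisp (η / (1 + B)) (by positivity)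
    refine ⟨e.symm a, ?_, ?_⟩
    · refine (hBe _).trans ?_
      nlinarith
    · simp only [ContinuousLinearEquiv.apply_symm_apply]
      rw [← map_sub]
      refine lt_of_le_of_lt (hBe _) ?_
      rw [lt_div_iff₀ (by positivity)] at ha2
      have := norm_nonneg (a - U a)
      nlinarith

theorem Gadget.propertyH {X : Type*} [NormedAddCommGroup X] [NormedSpace ℝ X] (h : Gadget X) :
    PropertyH X := by
  obtain ⟨U, K, M, hK, hM, hlip, hbd, hfix, hdisp⟩ := h
  intro α hα0 hα1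
  have hK0 : 0 < K := by linarith
  have hM0 : 0 < M := by linarith
  set d : ℝ := K ^ (-1 / (1 - α)) with hd
  have hd0 : 0 < d := Real.rpow_pos_of_pos hK0 _
  have hd1 : d ≤ 1 := by
    apply Real.rpow_le_one_of_one_le_of_nonpos hK
    apply div_nonpos_of_nonpos_of_nonneg <;> linarith
  have hdα : d ^ (1 - α) = K⁻¹ := by
    rw [hd, ← Real.rpow_mul hK0.le]
    have : -1 / (1 - α) * (1 - α) = -1 := by
      have : (1 - α) ≠ 0 := by linarith
      field_simp
    rw [this, Real.rpow_neg_one]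
  have hdα1 : d ^ α ≤ 1 := Real.rpow_le_one hd0.le hd1 hα0.le
  have hdα0 : 0 < d ^ α := Real.rpow_pos_of_pos hd0 _
  set ε : ℝ := d ^ α / (2 * M) with hε
  have hε0 : 0 < ε := by positivity
  have hεM : ε * M ≤ 1 / 2 := by
    rw [hε]
    have : d ^ α / (2 * M) * M = d ^ α / 2 := by field_simp
    rw [this]; linarith
  have hεM2 : 2 * (ε * M) = d ^ α := by
    rw [hε]; field_simp
  have hbd' : ∀ n : ℕ, 1 ≤ n → ∀ a, ‖U^[n] a‖ ≤ M := by
    intro n hn a
    obtain ⟨m, rfl⟩ : ∃ m, n = m + 1 := ⟨n - 1, by omega⟩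
    rw [Function.iterate_succ_apply']
    exact hbd _
  have hin : ∀ x : X, ε • U (ε⁻¹ • x) ∈ Metric.closedBall (0:X) 1 := by
    intro x
    rw [mem_closedBall_zero_iff, norm_smul, Real.norm_eq_abs, abs_of_pos hε0]
    have := hbd (ε⁻¹ • x)
    nlinarith
  let T : Metric.closedBall (0 : X) 1 → Metric.closedBall (0 : X) 1 :=
    fun x => ⟨ε • U (ε⁻¹ • (x : X)), hin x⟩
  have hT : ∀ n (x : Metric.closedBall (0 : X) 1), ((T^[n] x : _) : X) = ε • U^[n] (ε⁻¹ • (x:X)) := by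
    intro n
    induction n with
    | zero => intro x; simp [smul_smul, hε0.ne']
    | succ n ih =>
      intro x
      rw [Function.iterate_succ_apply', Function.iterate_succ_apply']
      change ε • U (ε⁻¹ • ((T^[n] x : _) : X)) = _
      rw [ih, smul_smul, inv_mul_cancel₀ hε0.ne', one_smul]
  refine ⟨T, ?_, ?_, ?_⟩
  · intro n hn x y
    rw [hT, hT, ← smul_sub, norm_smul, Real.norm_eq_abs, abs_of_pos hε0]
    set r := ‖(x:X) - (y:X)‖ with hr
    have hr0 : 0 ≤ r := norm_nonneg _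
    by_cases hrd : r ≤ d
    · rcases hr0.eq_or_lt with h0 | h0
      · have hxy : x = y := by
          have : (x:X) - (y:X) = 0 := norm_eq_zero.1 (by rw [← hr, ← h0])
          exact Subtype.ext (sub_eq_zero.1 this)
        subst hxy
        simp only [sub_self, norm_zero, mul_zero]
        exact Real.rpow_nonneg hr0 _
      · have h1 := hlip n hn (ε⁻¹ • (x:X)) (ε⁻¹ • (y:X))
        rw [← smul_sub, norm_smul, Real.norm_eq_abs, abs_of_pos (inv_pos.2 hε0)] at h1
        have h2 : ε * ‖U^[n] (ε⁻¹ • (x:X)) - U^[n] (ε⁻¹ • (y:X))‖ ≤ K * r := by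
          calc ε * ‖U^[n] (ε⁻¹ • (x:X)) - U^[n] (ε⁻¹ • (y:X))‖ ≤ ε * (K * (ε⁻¹ * r)) :=
                mul_le_mul_of_nonneg_left h1 hε0.le
            _ = K * r := by field_simp
        refine h2.trans ?_
        have h3 : r = r ^ (1 - α) * r ^ α := by
          rw [← Real.rpow_add h0]; simp
        have h4 : r ^ (1 - α) ≤ K⁻¹ := by
          rw [← hdα]
          exact Real.rpow_le_rpow hr0 hrd (by linarith)
        have h5 : 0 ≤ r ^ α := Real.rpow_nonneg hr0 _
        calc K * r = K * (r ^ (1 - α) * r ^ α) := by rw [← h3]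
          _ ≤ K * (K⁻¹ * r ^ α) := by gcongr
          _ = r ^ α := by field_simp
    · push Not at hrd
      have h1 : ‖U^[n] (ε⁻¹ • (x:X)) - U^[n] (ε⁻¹ • (y:X))‖ ≤ M + M :=
        (norm_sub_le _ _).trans (add_le_add (hbd' n hn _) (hbd' n hn _))
      calc ε * ‖U^[n] (ε⁻¹ • (x:X)) - U^[n] (ε⁻¹ • (y:X))‖ ≤ ε * (M + M) := by gcongr
        _ = d ^ α := by rw [← hεM2]; ring
        _ ≤ r ^ α := Real.rpow_le_rpow hd0.le hrd.le hα0.le
  · intro x hx
    have h1 : ε • U (ε⁻¹ • (x:X)) = x := congrArg Subtype.val hx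
    apply hfix (ε⁻¹ • (x:X))
    conv_rhs => rw [← h1]
    rw [smul_smul, inv_mul_cancel₀ hε0.ne', one_smul]
  · apply le_antisymm
    · refine le_of_forall_pos_le_add fun η hη => ?_
      obtain ⟨a, ha1, ha2⟩ := hdisp (η / ε) (by positivity)
      have hmem : ε • a ∈ Metric.closedBall (0:X) 1 := by
        rw [mem_closedBall_zero_iff, norm_smul, Real.norm_eq_abs, abs_of_pos hε0]
        nlinarith
      have hle := ciInf_le (f := fun x : Metric.closedBall (0 : X) 1 => ‖(x : X) - (T x : X)‖)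
        ⟨0, by rintro _ ⟨x, rfl⟩; exact norm_nonneg _⟩ ⟨ε • a, hmem⟩
      refine hle.trans ?_
      change ‖ε • a - ε • U (ε⁻¹ • (ε • a))‖ ≤ _
      rw [smul_smul, inv_mul_cancel₀ hε0.ne', one_smul, ← smul_sub, norm_smul, Real.norm_eq_abs,
        abs_of_pos hε0]
      rw [lt_div_iff₀ hε0] at ha2
      linarith
    · haveI : Nonempty (Metric.closedBall (0 : X) 1) := ⟨⟨0, by simp⟩⟩
      exact le_ciInf fun x => norm_nonneg _

section Prod

variable {Y Z : Type*} [NormedAddCommGroup Y] [NormedSpace ℝ Y] [NormedAddCommGroup Z]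
  [NormedSpace ℝ Z]

/-- caps -/
noncomputable def mc (n : ℕ) : ℝ := 1 - 1 / ((n:ℝ) + 2)

theorem mc_nonneg (n : ℕ) : 0 ≤ mc n := by
  unfold mc
  have : (0:ℝ) ≤ n := Nat.cast_nonneg n
  rw [sub_nonneg, div_le_one (by linarith)]
  linarith

theorem mc_lt (n : ℕ) : mc n < 1 := by
  unfold mc
  have : (0:ℝ) ≤ n := Nat.cast_nonneg n
  have : 0 < 1 / ((n:ℝ) + 2) := by positivity
  linarith

namespace Fan

variable (F : Fan Z)

noncomputable def nu (i : ℕ) (z : Z) : ℝ := min (F.q (2 * i) z) (mc i)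
noncomputable def m (z : Z) : ℝ := ∑ᶠ i, F.nu i z
noncomputable def p (z : Z) : Z := ∑ᶠ i, F.nu i z • F.x (2 * i)

theorem nu_desc (z : Z) : ∃ n c, 0 ≤ c ∧ c ≤ mc n ∧ ∀ i, F.nu i z = if i = n then c else 0 := by
  classical
  by_cases h : ∃ i, F.q (2 * i) z ≠ 0
  · obtain ⟨n, hn⟩ := h
    refine ⟨n, F.nu n z, ?_, min_le_right _ _, ?_⟩
    · exact le_min (F.q_nonneg _ _) (mc_nonneg _)
    · intro i
      split_ifs with hi
      · rw [hi]
      · unfold nu
        have : F.q (2 * i) z = 0 := by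
          rcases lt_or_gt_of_ne hi with h | h
          · by_contra hc
            exact hn (F.q_sep (2 * i) (2 * n) z (by omega) hc)
          · exact F.q_sep (2 * n) (2 * i) z (by omega) hn
        rw [this]
        exact min_eq_left (mc_nonneg _)
  · push Not at h
    refine ⟨0, 0, le_rfl, mc_nonneg _, fun i => ?_⟩
    unfold nu
    rw [h i, min_eq_left (mc_nonneg _)]
    simp

theorem nu_pt (n : ℕ) (c : ℝ) (h0 : 0 ≤ c) (h1 : c ≤ mc n) (i : ℕ) :
    F.nu i (c • F.x (2 * n)) = if i = n then c else 0 := by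
  have h := F.q_fan ⟨2 * n, c, 0, h0, le_rfl, by have := mc_lt n; linarith⟩ (2 * i)
  have e : (FanPt.pt ⟨2 * n, c, 0, h0, le_rfl, by have := mc_lt n; linarith⟩ F.x) =
      c • F.x (2 * n) := by simp [FanPt.pt]
  rw [e] at h
  unfold nu
  rw [h]
  simp only [FanPt.cf]
  by_cases hi : i = n
  · subst hi
    rw [if_pos rfl, if_pos rfl, min_eq_left h1]
  · rw [if_neg (by omega), if_neg hi, if_neg (by omega), min_eq_left (mc_nonneg _)]

theorem m_p_of {z : Z} {n : ℕ} {c : ℝ} (h : ∀ i, F.nu i z = if i = n then c else 0) :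
    F.m z = c ∧ F.p z = c • F.x (2 * n) := by
  have hw : ∀ i, i ≠ n → i ≠ n + 1 → F.nu i z = 0 := by
    intro i h1 _; rw [h, if_neg h1]
  have h1 : F.nu n z = c := by rw [h, if_pos rfl]
  have h2 : F.nu (n+1) z = 0 := by rw [h, if_neg (by omega)]
  constructor
  · unfold m
    rw [finsum_window _ n hw, h1, h2, add_zero]
  · unfold p
    rw [finsum_window _ n, h1, h2, zero_smul, add_zero]
    intro i h3 h4
    rw [hw i h3 h4, zero_smul]

theorem nu_lip (i : ℕ) (z z' : Z) : |F.nu i z - F.nu i z'| ≤ F.L * ‖z - z'‖ :=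
  (min_lip _ _ _).trans (F.q_lip _ _ _)

theorem m_lip (z z' : Z) : |F.m z - F.m z'| ≤ 4 * F.L * ‖z - z'‖ := by
  obtain ⟨n, c, _, _, h⟩ := F.nu_desc z
  obtain ⟨n', c', _, _, h'⟩ := F.nu_desc z'
  have h1 := lin_lip (fun i => F.nu i z) (fun i => F.nu i z') (fun _ => (1:ℝ)) 1 (F.L * ‖z - z'‖)
    (by simp) n n' (fun i hi _ => by rw [h, if_neg hi]) (fun i hi _ => by rw [h', if_neg hi])
    (fun i => F.nu_lip i z z')
  simp only [smul_eq_mul, mul_one, Real.norm_eq_abs] at h1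
  unfold m
  linarith

theorem p_lip (z z' : Z) : ‖F.p z - F.p z'‖ ≤ 12 * F.L * ‖z - z'‖ := by
  obtain ⟨n, c, _, _, h⟩ := F.nu_desc z
  obtain ⟨n', c', _, _, h'⟩ := F.nu_desc z'
  have h1 := lin_lip (fun i => F.nu i z) (fun i => F.nu i z') (fun i => F.x (2 * i)) 3
    (F.L * ‖z - z'‖)
    (fun i => F.norm_x _) n n' (fun i hi _ => by rw [h, if_neg hi])
    (fun i hi _ => by rw [h', if_neg hi]) (fun i => F.nu_lip i z z')
  unfold p
  linarith

theorem m_bounds (z : Z) : 0 ≤ F.m z ∧ F.m z < 1 := by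
  obtain ⟨n, c, h0, h1, h⟩ := F.nu_desc z
  rw [(F.m_p_of h).1]
  exact ⟨h0, lt_of_le_of_lt h1 (mc_lt n)⟩

theorem p_norm (z : Z) : ‖F.p z‖ ≤ 3 := by
  obtain ⟨n, c, h0, h1, h⟩ := F.nu_desc z
  rw [(F.m_p_of h).2, norm_smul, Real.norm_eq_abs, abs_of_nonneg h0]
  have := mc_lt n
  have := F.norm_x (2 * n)
  nlinarith [norm_nonneg (F.x (2 * n))]

theorem m_p (z : Z) : F.m (F.p z) = F.m z ∧ F.p (F.p z) = F.p z := by
  obtain ⟨n, c, h0, h1, h⟩ := F.nu_desc z
  obtain ⟨e1, e2⟩ := F.m_p_of h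
  obtain ⟨e3, e4⟩ := F.m_p_of (F.nu_pt n c h0 h1)
  rw [e1, e2]
  exact ⟨e3, e4⟩

end Fan

theorem gadget_prod (hY : ¬ FiniteDimensional ℝ Y) (hZ : ¬ FiniteDimensional ℝ Z) :
    Gadget (Y × Z) := by
  obtain ⟨R, C, hC, hR, hR1, hR2⟩ := exists_retr hY
  obtain ⟨F⟩ := exists_fan hZ
  have hL := F.hL
  let s : Z → ℝ := fun z => 1 - F.m z
  have hs0 : ∀ z, 0 < s z := fun z => by have := (F.m_bounds z).2; simp only [s]; linarith
  have hs1 : ∀ z, s z ≤ 1 := fun z => by have := (F.m_bounds z).1; simp only [s]; linarith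
  have hsp : ∀ z, s (F.p z) = s z := fun z => by simp only [s]; rw [(F.m_p z).1]
  have hRn : ∀ y, R (-(R y)) = -(R y) := by
    intro y
    rw [hR2 _ (by rw [norm_neg, hR1]), norm_neg, hR1, inv_one, one_smul]
  have hRp : ∀ y, R (R y) = R y := by
    intro y
    rw [hR2 _ (by rw [hR1]), hR1, inv_one, one_smul]
  let U : Y × Z → Y × Z := fun a => (-(s a.2 • R ((s a.2)⁻¹ • a.1)), F.p a.2)
  have hUU : ∀ a, U (U a) = (s a.2 • R ((s a.2)⁻¹ • a.1), F.p a.2) := by
    intro a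
    have h0 := (hs0 a.2).ne'
    simp only [U, hsp, (F.m_p a.2).2]
    congr 1
    rw [smul_neg, smul_smul, inv_mul_cancel₀ h0, one_smul, hRn, smul_neg, neg_neg]
  have hUUU : ∀ a, U (U (U a)) = U a := by
    intro a
    rw [hUU (U a)]
    have h0 := (hs0 a.2).ne'
    simp only [U, hsp, (F.m_p a.2).2]
    congr 1
    rw [smul_neg, smul_smul, inv_mul_cancel₀ h0, one_smul, hRn, smul_neg]
  set K0 : ℝ := 1 + C + (1 + C) * (4 * F.L) + 12 * F.L with hK0
  have hK01 : 1 ≤ K0 := by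
    have : 0 ≤ (1 + C) * (4 * F.L) := by positivity
    rw [hK0]; linarith
  have hUlip : ∀ a b, ‖U a - U b‖ ≤ K0 * ‖a - b‖ := by
    intro a b
    have h1 : ‖a.1 - b.1‖ ≤ ‖a - b‖ := norm_fst_le (a - b)
    have h2 : ‖a.2 - b.2‖ ≤ ‖a - b‖ := norm_snd_le (a - b)
    have hab := norm_nonneg (a - b)
    rw [Prod.norm_def]
    apply max_le
    · change ‖-(s a.2 • R ((s a.2)⁻¹ • a.1)) - -(s b.2 • R ((s b.2)⁻¹ • b.1))‖ ≤ _
      rw [neg_sub_neg, norm_sub_rev]
      refine (scaled_lip hC hR hR1 hR2 (hs0 _) (hs0 _) _ _).trans ?_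
      have h3 : |s a.2 - s b.2| ≤ 4 * F.L * ‖a.2 - b.2‖ := by
        have : s a.2 - s b.2 = -(F.m a.2 - F.m b.2) := by simp only [s]; ring
        rw [this, abs_neg]
        exact F.m_lip _ _
      have h4 : |s a.2 - s b.2| ≤ 4 * F.L * ‖a - b‖ := h3.trans (by gcongr)
      have h5 : C * ‖a.1 - b.1‖ ≤ C * ‖a - b‖ := by gcongr
      have h6 : (1 + C) * |s a.2 - s b.2| ≤ (1 + C) * (4 * F.L * ‖a - b‖) := by gcongr
      have h7 : 0 ≤ F.L * ‖a - b‖ := by positivity
      rw [hK0]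
      nlinarith
    · change ‖F.p a.2 - F.p b.2‖ ≤ _
      refine (F.p_lip _ _).trans ?_
      have h3 : 12 * F.L * ‖a.2 - b.2‖ ≤ 12 * F.L * ‖a - b‖ := by gcongr
      have h4 : 0 ≤ (1 + C) * (4 * F.L) * ‖a - b‖ := by positivity
      have h5 : 0 ≤ C * ‖a - b‖ := by positivity
      rw [hK0]
      nlinarith
  have hiter : ∀ n : ℕ, 1 ≤ n → (∀ a, U^[n] a = U a) ∨ (∀ a, U^[n] a = U (U a)) := by
    intro n hn
    induction n with
    | zero => omega
    | succ n ih =>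
      rcases Nat.eq_zero_or_pos n with h | h
      · subst h; left; intro a; rfl
      · rcases ih h with h1 | h1
        · right; intro a; rw [Function.iterate_succ_apply', h1]
        · left; intro a; rw [Function.iterate_succ_apply', h1, hUUU]
  have hbd : ∀ a, ‖U a‖ ≤ 3 := by
    intro a
    rw [Prod.norm_def]
    apply max_le
    · change ‖-(s a.2 • R ((s a.2)⁻¹ • a.1))‖ ≤ _
      rw [norm_neg, norm_smul, hR1, mul_one, Real.norm_eq_abs, abs_of_pos (hs0 _)]
      linarith [hs1 a.2]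
    · exact F.p_norm _
  refine ⟨U, K0 + K0 * K0, 3, ?_, by norm_num, ?_, hbd, ?_, ?_⟩
  · nlinarith
  · intro n hn a b
    have hab := norm_nonneg (a - b)
    rcases hiter n hn with h | h
    · rw [h, h]
      refine (hUlip a b).trans ?_
      nlinarith [mul_nonneg (mul_nonneg (by linarith : 0 ≤ K0) (by linarith : 0 ≤ K0)) hab]
    · rw [h, h]
      refine (hUlip _ _).trans ?_
      have h1 := hUlip a b
      have h2 : K0 * ‖U a - U b‖ ≤ K0 * (K0 * ‖a - b‖) := by gcongr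
      nlinarith [mul_nonneg (by linarith : 0 ≤ K0) hab]
  · intro a ha
    have h1 : U (U a) = a := by rw [ha, ha]
    have h2 : U a = U (U a) := by rw [h1, ha]
    rw [hUU] at h2
    have h3 := congrArg Prod.fst h2
    simp only [U] at h3
    have h4 : s a.2 • R ((s a.2)⁻¹ • a.1) = 0 := by
      have h5 : (2:ℝ) • (s a.2 • R ((s a.2)⁻¹ • a.1)) = 0 := by
        rw [two_smul]
        nth_rewrite 1 [← h3]
        exact neg_add_cancel _
      exact (smul_eq_zero.1 h5).resolve_left (by norm_num)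
    have h6 : ‖s a.2 • R ((s a.2)⁻¹ • a.1)‖ = s a.2 := by
      rw [norm_smul, hR1, mul_one, Real.norm_eq_abs, abs_of_pos (hs0 _)]
    rw [h4, norm_zero] at h6
    exact (hs0 a.2).ne h6
  · intro η hη
    obtain ⟨n, hn⟩ := exists_nat_gt (2 / η)
    have hnpos : (0:ℝ) < (n:ℝ) + 2 := by positivity
    set z : Z := mc n • F.x (2 * n) with hz
    obtain ⟨e1, e2⟩ := F.m_p_of (F.nu_pt n (mc n) (mc_nonneg n) le_rfl)
    rw [← hz] at e1 e2
    refine ⟨U (0, z), hbd _, ?_⟩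
    rw [hUU]
    have e3 : U (0, z) - (s (0, z).2 • R ((s (0, z).2)⁻¹ • (0, z).1), F.p (0, z).2) =
        (-((2:ℝ) • (s z • R ((s z)⁻¹ • (0:Y)))), (0:Z)) := by
      simp only [U]
      rw [Prod.mk_sub_mk, sub_self, two_smul]
      congr 1
      abel
    rw [e3, Prod.norm_def]
    have e4 : s z = 1 / ((n:ℝ) + 2) := by
      simp only [s]; rw [e1]; unfold mc; ring
    have e5 : ‖-((2:ℝ) • (s z • R ((s z)⁻¹ • (0:Y))))‖ = 2 * (1 / ((n:ℝ) + 2)) := by
      rw [norm_neg, norm_smul, norm_smul, hR1, mul_one, Real.norm_eq_abs, Real.norm_eq_abs,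
        abs_of_pos (hs0 z), e4]
      norm_num
    simp only [norm_zero]
    rw [e5]
    apply max_lt
    · rw [mul_one_div, div_lt_iff₀ hnpos]
      rw [div_lt_iff₀ hη] at hn
      nlinarith
    · exact hη

end Prod

end Pool.Agent.H465R3
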