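import Pool.Agent.H465R3.Fan

namespace Pool.Agent.H465R3

variable {E : Type*} [NormedAddCommGroup E] [NormedSpace ℝ E]

theorem finsum_window {V : Type*} [AddCommMonoid V] (f : ℕ → V) (n : ℕ)
    (h : ∀ i, i ≠ n → i ≠ n + 1 → f i = 0) : ∑ᶠ i, f i = f n + f (n + 1) := by
  classical
  rw [finsum_eq_sum_of_support_subset f (s := {n, n + 1}), Finset.sum_pair (by omega)]
  intro i hi
  simp only [Finset.coe_insert, Finset.coe_singleton, Set.mem_insert_iff, Set.mem_singleton_iff]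
  by_contra hc
  push Not at hc
  exact hi (h i hc.1 hc.2)

theorem lin_lip {V : Type*} [NormedAddCommGroup V] [NormedSpace ℝ V] (w w' : ℕ → ℝ) (u : ℕ → V)
    (M C : ℝ) (hu : ∀ i, ‖u i‖ ≤ M) (n n' : ℕ)
    (hw : ∀ i, i ≠ n → i ≠ n + 1 → w i = 0) (hw' : ∀ i, i ≠ n' → i ≠ n' + 1 → w' i = 0)
    (hC : ∀ i, |w i - w' i| ≤ C) :
    ‖∑ᶠ i, w i • u i - ∑ᶠ i, w' i • u i‖ ≤ 4 * (C * M) := by
  classical
  set s : Finset ℕ := {n, n + 1, n', n' + 1} with hs
  have h1 : ∑ᶠ i, w i • u i = ∑ i ∈ s, w i • u i := by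
    apply finsum_eq_sum_of_support_subset
    intro i hi
    simp only [hs, Finset.coe_insert, Finset.coe_singleton, Set.mem_insert_iff,
      Set.mem_singleton_iff]
    by_contra hc
    push Not at hc
    apply hi
    simp only
    rw [hw i hc.1 hc.2.1, zero_smul]
  have h2 : ∑ᶠ i, w' i • u i = ∑ i ∈ s, w' i • u i := by
    apply finsum_eq_sum_of_support_subset
    intro i hi
    simp only [hs, Finset.coe_insert, Finset.coe_singleton, Set.mem_insert_iff,
      Set.mem_singleton_iff]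
    by_contra hc
    push Not at hc
    apply hi
    simp only
    rw [hw' i hc.2.2.1 hc.2.2.2, zero_smul]
  have hC0 : 0 ≤ C := (abs_nonneg _).trans (hC 0)
  have hM0 : 0 ≤ M := (norm_nonneg _).trans (hu 0)
  rw [h1, h2, ← Finset.sum_sub_distrib]
  calc ‖∑ i ∈ s, (w i • u i - w' i • u i)‖ ≤ ∑ i ∈ s, ‖w i • u i - w' i • u i‖ := norm_sum_le _ _
    _ ≤ ∑ _i ∈ s, C * M := by
        refine Finset.sum_le_sum fun i _ => ?_
        rw [← sub_smul, norm_smul, Real.norm_eq_abs]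
        exact mul_le_mul (hC i) (hu i) (norm_nonneg _) hC0
    _ = s.card * (C * M) := by rw [Finset.sum_const, nsmul_eq_mul]
    _ ≤ 4 * (C * M) := by
        have : (s.card : ℝ) ≤ 4 := by exact_mod_cast Finset.card_le_four
        exact mul_le_mul_of_nonneg_right this (mul_nonneg hC0 hM0)

theorem max_lip (a b c : ℝ) : |max c a - max c b| ≤ |a - b| := by
  rcases le_total c a with h1 | h1 <;> rcases le_total c b with h2 | h2
  · rw [max_eq_right h1, max_eq_right h2]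
  · rw [max_eq_right h1, max_eq_left h2, abs_of_nonneg (by linarith)]
    exact (by linarith : a - c ≤ a - b).trans (le_abs_self _)
  · rw [max_eq_left h1, max_eq_right h2, abs_of_nonpos (by linarith)]
    exact (by linarith : -(c - b) ≤ -(a - b)).trans (neg_le_abs _)
  · rw [max_eq_left h1, max_eq_left h2]; simp

theorem min_lip (a b c : ℝ) : |min a c - min b c| ≤ |a - b| := by
  rcases le_total a c with h1 | h1 <;> rcases le_total b c with h2 | h2
  · rw [min_eq_left h1, min_eq_left h2]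
  · rw [min_eq_left h1, min_eq_right h2, abs_of_nonpos (by linarith)]
    exact (by linarith : -(a - c) ≤ -(a - b)).trans (neg_le_abs _)
  · rw [min_eq_right h1, min_eq_left h2, abs_of_nonneg (by linarith)]
    exact (by linarith : c - b ≤ a - b).trans (le_abs_self _)
  · rw [min_eq_right h1, min_eq_right h2]; simp

theorem inv_lip {a b : ℝ} (ha : 1 / 4 ≤ a) (hb : 1 / 4 ≤ b) : |1 / a - 1 / b| ≤ 16 * |a - b| := by
  have ha0 : 0 < a := by linarith
  have hb0 : 0 < b := by linarith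
  have h1 : 1 / a - 1 / b = (b - a) / (a * b) := by field_simp
  rw [h1, abs_div, abs_of_pos (mul_pos ha0 hb0), div_le_iff₀ (mul_pos ha0 hb0), abs_sub_comm b a]
  have h2 : (1:ℝ) / 16 ≤ a * b := by nlinarith
  nlinarith [abs_nonneg (a - b)]

theorem prod_lip {a b a' b' A B ca cb : ℝ} (hb : |b| ≤ B) (ha' : |a'| ≤ A)
    (h1 : |a - a'| ≤ ca) (h2 : |b - b'| ≤ cb) : |a * b - a' * b'| ≤ ca * B + A * cb := by
  have h : a * b - a' * b' = (a - a') * b + a' * (b - b') := by ring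
  rw [h]
  refine (abs_add_le _ _).trans ?_
  rw [abs_mul, abs_mul]
  have h3 : 0 ≤ ca := (abs_nonneg _).trans h1
  have h4 : 0 ≤ A := (abs_nonneg _).trans ha'
  exact add_le_add (mul_le_mul h1 hb (abs_nonneg _) h3) (mul_le_mul ha' h2 (abs_nonneg _) h4)

/-- hat weights -/
noncomputable def hat (τ : ℝ) (j : ℕ) : ℝ := max 0 (1 - |τ - j|)

theorem hat_window {τ : ℝ} (hτ : 0 ≤ τ) : ∀ j, j ≠ ⌊τ⌋₊ → j ≠ ⌊τ⌋₊ + 1 → hat τ j = 0 := by
  intro j h1 h2
  unfold hat
  apply max_eq_left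
  have hf1 : (⌊τ⌋₊ : ℝ) ≤ τ := Nat.floor_le hτ
  have hf2 : τ < ⌊τ⌋₊ + 1 := Nat.lt_floor_add_one τ
  rcases lt_or_gt_of_ne h1 with h | h
  · have : (j:ℝ) + 1 ≤ ⌊τ⌋₊ := by exact_mod_cast h
    have := le_abs_self (τ - j)
    linarith
  · have h3 : ⌊τ⌋₊ + 2 ≤ j := by omega
    have : ((⌊τ⌋₊:ℝ)) + 2 ≤ j := by exact_mod_cast h3
    have := neg_le_abs (τ - j)
    linarith

theorem hat_floor {τ : ℝ} (hτ : 0 ≤ τ) : hat τ ⌊τ⌋₊ = 1 - (τ - ⌊τ⌋₊) := by
  have hf1 : (⌊τ⌋₊ : ℝ) ≤ τ := Nat.floor_le hτ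
  have hf2 : τ < ⌊τ⌋₊ + 1 := Nat.lt_floor_add_one τ
  unfold hat
  rw [abs_of_nonneg (by linarith), max_eq_right (by linarith)]

theorem hat_floor_succ {τ : ℝ} (hτ : 0 ≤ τ) : hat τ (⌊τ⌋₊ + 1) = τ - ⌊τ⌋₊ := by
  have hf1 : (⌊τ⌋₊ : ℝ) ≤ τ := Nat.floor_le hτ
  have hf2 : τ < ⌊τ⌋₊ + 1 := Nat.lt_floor_add_one τ
  unfold hat
  push_cast
  rw [abs_of_nonpos (by linarith), max_eq_right (by linarith)]
  ring

namespace Fan

variable (F : Fan E)

theorem window (y : E) : ∃ n, ∀ i, i ≠ n → i ≠ n + 1 → F.q i y = 0 := by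
  classical
  by_cases h : ∃ i, F.q i y ≠ 0
  · refine ⟨Nat.find h, fun i h1 h2 => ?_⟩
    rcases lt_or_gt_of_ne h1 with h3 | h3
    · by_contra hc
      exact Nat.find_min h h3 hc
    · exact F.q_sep (Nat.find h) i y (by omega) (Nat.find_spec h)
  · push Not at h
    exact ⟨0, fun i _ _ => h i⟩

/-- mass -/
noncomputable def s (y : E) : ℝ := ∑ᶠ i, F.q i y

/-- moment -/
noncomputable def mu (y : E) : ℝ := ∑ᶠ i : ℕ, (i : ℝ) * F.q i y

/-- position -/
noncomputable def t (y : E) : ℝ := F.mu y / F.s y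

theorem s_eq {y : E} {n : ℕ} (h : ∀ i, i ≠ n → i ≠ n + 1 → F.q i y = 0) :
    F.s y = F.q n y + F.q (n + 1) y := finsum_window _ n h

theorem mu_eq {y : E} {n : ℕ} (h : ∀ i, i ≠ n → i ≠ n + 1 → F.q i y = 0) :
    F.mu y = n * F.q n y + (n + 1) * F.q (n + 1) y := by
  unfold mu
  rw [finsum_window _ n]
  · push_cast; ring
  · intro i h1 h2
    rw [h i h1 h2, mul_zero]

theorem s_nonneg (y : E) : 0 ≤ F.s y := by
  obtain ⟨n, hn⟩ := F.window y
  rw [F.s_eq hn]
  exact add_nonneg (F.q_nonneg _ _) (F.q_nonneg _ _)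

theorem s_le (y : E) : F.s y ≤ 2 := by
  obtain ⟨n, hn⟩ := F.window y
  rw [F.s_eq hn]
  have := F.q_le_one n y
  have := F.q_le_one (n+1) y
  linarith

theorem q_le_s (i : ℕ) (y : E) : F.q i y ≤ F.s y := by
  obtain ⟨n, hn⟩ := F.window y
  rw [F.s_eq hn]
  have h1 := F.q_nonneg n y
  have h2 := F.q_nonneg (n+1) y
  by_cases hi : i = n
  · subst hi; linarith
  · by_cases hi' : i = n + 1
    · subst hi'; linarith
    · rw [hn i hi hi']; linarith

theorem s_lip (y y' : E) : |F.s y - F.s y'| ≤ 4 * F.L * ‖y - y'‖ := by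
  obtain ⟨n, hn⟩ := F.window y
  obtain ⟨n', hn'⟩ := F.window y'
  have h := lin_lip (fun i => F.q i y) (fun i => F.q i y') (fun _ => (1:ℝ)) 1 (F.L * ‖y - y'‖)
    (by simp) n n' hn hn' (fun i => F.q_lip i y y')
  simp only [smul_eq_mul, mul_one, Real.norm_eq_abs] at h
  unfold s
  linarith

/-- the path -/
noncomputable def gam (τ : ℝ) : E := ∑ᶠ j, hat τ j • F.x j

theorem gam_lip {τ τ' : ℝ} (h : 0 ≤ τ) (h' : 0 ≤ τ') : ‖F.gam τ - F.gam τ'‖ ≤ 12 * |τ - τ'| := by
  have h1 := lin_lip (hat τ) (hat τ') F.x 3 |τ - τ'| F.norm_x _ _ (hat_window h) (hat_window h') ?_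
  · unfold gam
    linarith
  · intro i
    unfold hat
    refine (max_lip _ _ _).trans ?_
    have h2 : 1 - |τ - i| - (1 - |τ' - i|) = |τ' - i| - |τ - i| := by ring
    rw [h2]
    refine (abs_abs_sub_abs_le _ _).trans ?_
    rw [abs_sub_comm]
    apply le_of_eq
    congr 1
    ring

theorem gam_eq {τ : ℝ} (h : 0 ≤ τ) :
    F.gam τ = (1 - (τ - ⌊τ⌋₊)) • F.x ⌊τ⌋₊ + (τ - ⌊τ⌋₊) • F.x (⌊τ⌋₊ + 1) := by
  unfold gam
  rw [finsum_window _ ⌊τ⌋₊, hat_floor h, hat_floor_succ h]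
  intro i h1 h2
  rw [hat_window h i h1 h2, zero_smul]

/-- the point of the fan corresponding to position `τ` and mass one -/
noncomputable def gpt (τ : ℝ) (h : 0 ≤ τ) : FanPt :=
  ⟨⌊τ⌋₊, 1 - (τ - ⌊τ⌋₊), τ - ⌊τ⌋₊, by have := Nat.lt_floor_add_one τ; linarith,
    by have := Nat.floor_le h; linarith, by linarith⟩

theorem gam_eq_pt {τ : ℝ} (h : 0 ≤ τ) : F.gam τ = (gpt τ h).pt F.x := F.gam_eq h

/-- normaliser -/
noncomputable def W (y : E) : ℝ := 1 / max (1 / 4) (F.s y)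

theorem W_pos (y : E) : 0 < F.W y := by
  unfold W
  have : (1:ℝ)/4 ≤ max (1/4) (F.s y) := le_max_left _ _
  positivity

theorem W_le (y : E) : F.W y ≤ 4 := by
  unfold W
  have h : (1:ℝ)/4 ≤ max (1/4) (F.s y) := le_max_left _ _
  rw [div_le_iff₀ (by linarith)]
  linarith

theorem W_abs (y : E) : |F.W y| ≤ 4 := by
  rw [abs_of_pos (F.W_pos y)]
  exact F.W_le y

theorem W_lip (y y' : E) : |F.W y - F.W y'| ≤ 64 * F.L * ‖y - y'‖ := by
  unfold W
  refine (inv_lip (le_max_left _ _) (le_max_left _ _)).trans ?_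
  have h1 := max_lip (F.s y) (F.s y') (1/4)
  have h2 := F.s_lip y y'
  linarith

/-- first coefficient -/
noncomputable def A (y : E) : ℝ := max 0 (1 - 4 * F.s y) + F.W y * F.q 0 y

/-- second factor -/
noncomputable def B (y : E) : ℝ := max 0 (4 * F.s y - 1) * F.W y

theorem A_lip (y y' : E) : |F.A y - F.A y'| ≤ 84 * F.L * ‖y - y'‖ := by
  unfold A
  have h1 := max_lip (1 - 4 * F.s y) (1 - 4 * F.s y') 0
  have h2 := F.s_lip y y'
  have h3 : |1 - 4 * F.s y - (1 - 4 * F.s y')| = 4 * |F.s y - F.s y'| := by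
    have : 1 - 4 * F.s y - (1 - 4 * F.s y') = -(4 * (F.s y - F.s y')) := by ring
    rw [this, abs_neg, abs_mul]; norm_num
  have h4 := prod_lip (a := F.W y) (a' := F.W y') (b := F.q 0 y) (b' := F.q 0 y') (B := 1) (A := 4)
    (by rw [abs_of_nonneg (F.q_nonneg 0 y)]; exact F.q_le_one 0 y) (F.W_abs y') (F.W_lip y y')
    (F.q_lip 0 y y')
  have h5 : max 0 (1 - 4 * F.s y) + F.W y * F.q 0 y - (max 0 (1 - 4 * F.s y') + F.W y' * F.q 0 y')
    = (max 0 (1 - 4 * F.s y) - max 0 (1 - 4 * F.s y')) + (F.W y * F.q 0 y - F.W y' * F.q 0 y') := by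
    ring
  rw [h5]
  refine (abs_add_le _ _).trans ?_
  linarith

theorem B_nonneg (y : E) : 0 ≤ F.B y := mul_nonneg (le_max_left _ _) (F.W_pos y).le

theorem B_le (y : E) : F.B y ≤ 28 := by
  unfold B
  have h1 : max 0 (4 * F.s y - 1) ≤ 7 := max_le (by norm_num) (by have := F.s_le y; linarith)
  have h2 := F.W_le y
  have h3 := (F.W_pos y).le
  have h4 : 0 ≤ max 0 (4 * F.s y - 1) := le_max_left _ _
  nlinarith

theorem B_lip (y y' : E) : |F.B y - F.B y'| ≤ 512 * F.L * ‖y - y'‖ := by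
  unfold B
  have h1 := max_lip (4 * F.s y - 1) (4 * F.s y' - 1) 0
  have h2 := F.s_lip y y'
  have h3 : |4 * F.s y - 1 - (4 * F.s y' - 1)| = 4 * |F.s y - F.s y'| := by
    have : 4 * F.s y - 1 - (4 * F.s y' - 1) = (4 * (F.s y - F.s y')) := by ring
    rw [this, abs_mul]; norm_num
  have h6 : |max 0 (4 * F.s y' - 1)| ≤ 7 := by
    rw [abs_of_nonneg (le_max_left _ _)]
    exact max_le (by norm_num) (by have := F.s_le y'; linarith)
  have h4 := prod_lip (a := max 0 (4 * F.s y - 1)) (a' := max 0 (4 * F.s y' - 1)) (b := F.W y)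
    (b' := F.W y') (F.W_abs y) h6 (h1.trans (by rw [h3])) (F.W_lip y y')
  linarith

/-- the map for small mass -/
noncomputable def T1 (y : E) : E := F.A y • F.x 0 + ∑ᶠ i, (F.B y * F.q (i + 1) y) • F.x i

theorem T1_lip (y y' : E) : ‖F.T1 y - F.T1 y'‖ ≤ 10000 * F.L * ‖y - y'‖ := by
  obtain ⟨n, hn⟩ := F.window y
  obtain ⟨n', hn'⟩ := F.window y'
  have hw : ∀ (z : E) (m : ℕ), (∀ i, i ≠ m → i ≠ m + 1 → F.q i z = 0) →
      ∀ i, i ≠ m - 1 → i ≠ m - 1 + 1 → F.B z * F.q (i + 1) z = 0 := by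
    intro z m hm i h1 h2
    rw [hm (i+1) (by omega) (by omega), mul_zero]
  have h1 := lin_lip (fun i => F.B y * F.q (i + 1) y) (fun i => F.B y' * F.q (i + 1) y') F.x 3
    (540 * F.L * ‖y - y'‖) F.norm_x _ _ (hw y n hn) (hw y' n' hn') ?_
  · have h2 := F.A_lip y y'
    have h3 : F.T1 y - F.T1 y' = (F.A y - F.A y') • F.x 0 +
        (∑ᶠ i, (F.B y * F.q (i + 1) y) • F.x i - ∑ᶠ i, (F.B y' * F.q (i + 1) y') • F.x i) := by
      unfold T1
      rw [sub_smul]; abel
    rw [h3]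
    refine (norm_add_le _ _).trans ?_
    rw [norm_smul, Real.norm_eq_abs]
    have h4 : |F.A y - F.A y'| * ‖F.x 0‖ ≤ (84 * F.L * ‖y - y'‖) * 3 :=
      mul_le_mul h2 (F.norm_x 0) (norm_nonneg _) ((abs_nonneg _).trans h2)
    have hL := F.hL
    have h5 : 0 ≤ F.L * ‖y - y'‖ := mul_nonneg (by linarith) (norm_nonneg _)
    nlinarith
  · intro i
    have h4 := prod_lip (a := F.B y) (a' := F.B y') (b := F.q (i+1) y) (b' := F.q (i+1) y')
      (B := 1) (A := 28)
      (by rw [abs_of_nonneg (F.q_nonneg _ y)]; exact F.q_le_one _ y)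
      (by rw [abs_of_nonneg (F.B_nonneg y')]; exact F.B_le y') (F.B_lip y y')
      (F.q_lip (i+1) y y')
    refine h4.trans ?_
    linarith

/-- shift -/
noncomputable def th (y : E) : ℝ := min (4 * F.s y - 3) 1

/-- the new position -/
noncomputable def tau (y : E) : ℝ := max 0 (F.t y + F.th y)

/-- the map for large mass -/
noncomputable def T3 (y : E) : E := F.gam (F.tau y)

theorem norm_pt_le (v : FanPt) : ‖v.pt F.x‖ ≤ 3 := by
  unfold FanPt.pt
  refine (norm_add_le _ _).trans ?_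
  rw [norm_smul, norm_smul, Real.norm_eq_abs, Real.norm_eq_abs, abs_of_nonneg v.ha,
    abs_of_nonneg v.hb]
  have h1 := F.norm_x v.n
  have h2 := F.norm_x (v.n + 1)
  have h3 := v.ha
  have h4 := v.hb
  have h5 := v.hab
  nlinarith

theorem tau_nonneg (y : E) : 0 ≤ F.tau y := le_max_left _ _

theorem T3_eq (y : E) : F.T3 y = (gpt (F.tau y) (F.tau_nonneg y)).pt F.x := F.gam_eq_pt _

theorem T3_lip (y y' : E) (hs : 1 / 2 ≤ F.s y) (hs' : 1 / 2 ≤ F.s y') :
    ‖F.T3 y - F.T3 y'‖ ≤ 10000 * F.L * ‖y - y'‖ := by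
  have hL := F.hL
  have hd := norm_nonneg (y - y')
  by_cases hbig : 1 ≤ 8 * F.L * ‖y - y'‖
  · refine (norm_sub_le _ _).trans ?_
    rw [F.T3_eq, F.T3_eq]
    have h1 := F.norm_pt_le (gpt (F.tau y) (F.tau_nonneg y))
    have h2 := F.norm_pt_le (gpt (F.tau y') (F.tau_nonneg y'))
    nlinarith
  · push Not at hbig
    obtain ⟨n, hn⟩ := F.window y
    obtain ⟨n', hn'⟩ := F.window y'
    have hsn := F.s_eq hn
    -- an index of large weight
    obtain ⟨i, hi⟩ : ∃ i, 1 / 4 ≤ F.q i y := by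
      by_contra hc
      push Not at hc
      have h1 := hc n
      have h2 := hc (n+1)
      linarith
    have hi' : F.q i y' ≠ 0 := by
      intro h0
      have h1 := F.q_lip i y y'
      rw [h0, sub_zero, abs_of_nonneg (F.q_nonneg i y)] at h1
      linarith
    have hi0 : F.q i y ≠ 0 := by
      intro h0; rw [h0] at hi; linarith
    have hfar : ∀ z, F.q i z ≠ 0 → ∀ j, (j + 2 ≤ i ∨ i + 2 ≤ j) → F.q j z = 0 := by
      intro z hz j hj
      rcases hj with hj | hj
      · by_contra hc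
        exact hz (F.q_sep j i z hj hc)
      · exact F.q_sep i j z hj hz
    let u : ℕ → ℝ := fun j => if (j + 2 ≤ i ∨ i + 2 ≤ j) then 0 else (j:ℝ) - i
    have hu : ∀ j, ‖u j‖ ≤ 1 := by
      intro j
      simp only [u]
      split_ifs with h
      · simp
      · push Not at h
        rw [Real.norm_eq_abs, abs_le]
        have h1 : i ≤ j + 1 := by omega
        have h2 : j ≤ i + 1 := by omega
        have h3 : (i:ℝ) ≤ j + 1 := by exact_mod_cast h1
        have h4 : (j:ℝ) ≤ i + 1 := by exact_mod_cast h2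
        constructor <;> linarith
    have hD := lin_lip (fun j => F.q j y) (fun j => F.q j y') u 1 (F.L * ‖y - y'‖) hu n n' hn hn'
      (fun j => F.q_lip j y y')
    have hDz : ∀ z m, F.q i z ≠ 0 → (∀ j, j ≠ m → j ≠ m + 1 → F.q j z = 0) →
        (∑ᶠ j, F.q j z • u j = F.mu z - i * F.s z) ∧ |∑ᶠ j, F.q j z • u j| ≤ F.s z := by
      intro z m hz hm
      have e1 : ∑ᶠ j, F.q j z • u j = F.q m z • u m + F.q (m+1) z • u (m+1) := by
        apply finsum_window
        intro j h1 h2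
        rw [hm j h1 h2, zero_smul]
      have e2 : ∀ j, F.q j z • u j = F.q j z * ((j:ℝ) - i) := by
        intro j
        simp only [u, smul_eq_mul]
        split_ifs with h
        · rw [hfar z hz j h]; simp
        · rfl
      constructor
      · rw [e1, e2, e2, F.mu_eq hm, F.s_eq hm]
        push_cast
        ring
      · rw [e1, F.s_eq hm]
        refine (abs_add_le _ _).trans ?_
        rw [smul_eq_mul, smul_eq_mul, abs_mul, abs_mul, abs_of_nonneg (F.q_nonneg _ _),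
          abs_of_nonneg (F.q_nonneg _ _)]
        have h1 := hu m
        have h2 := hu (m+1)
        rw [Real.norm_eq_abs] at h1 h2
        have h3 := F.q_nonneg m z
        have h4 := F.q_nonneg (m+1) z
        nlinarith
    obtain ⟨d1, d2⟩ := hDz y n hi0 hn
    obtain ⟨d1', d2'⟩ := hDz y' n' hi' hn'
    rw [Real.norm_eq_abs] at hD
    set D := ∑ᶠ j, F.q j y • u j with hDdef
    set D' := ∑ᶠ j, F.q j y' • u j with hDdef'
    have hspos : 0 < F.s y := by linarith
    have hspos' : 0 < F.s y' := by linarith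
    have ht : F.t y = i + D / F.s y := by
      unfold t; rw [d1]; field_simp; ring
    have ht' : F.t y' = i + D' / F.s y' := by
      unfold t; rw [d1']; field_simp; ring
    have hslip := F.s_lip y y'
    have htt : |F.t y - F.t y'| ≤ 16 * F.L * ‖y - y'‖ := by
      have e : F.t y - F.t y' = (D - D') / F.s y + (D' / F.s y') * ((F.s y' - F.s y) / F.s y) := by
        rw [ht, ht']; field_simp; ring
      rw [e]
      refine (abs_add_le _ _).trans ?_
      rw [abs_mul, abs_div, abs_div, abs_div, abs_of_pos hspos, abs_of_pos hspos']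
      have e1 : |D - D'| / F.s y ≤ 2 * (4 * (F.L * ‖y - y'‖ * 1)) := by
        rw [div_le_iff₀ hspos]
        have : 0 ≤ |D - D'| := abs_nonneg _
        nlinarith
      have e2 : |D'| / F.s y' ≤ 1 := by
        rw [div_le_one hspos']; exact d2'
      have e3 : |F.s y' - F.s y| / F.s y ≤ 2 * (4 * F.L * ‖y - y'‖) := by
        rw [div_le_iff₀ hspos, abs_sub_comm]
        have : 0 ≤ |F.s y - F.s y'| := abs_nonneg _
        nlinarith
      have e4 : |D'| / F.s y' * (|F.s y' - F.s y| / F.s y) ≤ 1 * (2 * (4 * F.L * ‖y - y'‖)) := by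
        apply mul_le_mul e2 e3 (by positivity) zero_le_one
      linarith
    have hth : |F.th y - F.th y'| ≤ 16 * F.L * ‖y - y'‖ := by
      unfold th
      refine (min_lip _ _ _).trans ?_
      have : 4 * F.s y - 3 - (4 * F.s y' - 3) = 4 * (F.s y - F.s y') := by ring
      rw [this, abs_mul, abs_of_pos (by norm_num : (0:ℝ) < 4)]
      linarith
    have htau : |F.tau y - F.tau y'| ≤ 32 * F.L * ‖y - y'‖ := by
      unfold tau
      refine (max_lip _ _ _).trans ?_
      have : F.t y + F.th y - (F.t y' + F.th y') = (F.t y - F.t y') + (F.th y - F.th y') := by ring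
      rw [this]
      refine (abs_add_le _ _).trans ?_
      linarith
    refine (F.gam_lip (F.tau_nonneg y) (F.tau_nonneg y')).trans ?_
    nlinarith

end Fan

end Pool.Agent.H465R3
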