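import Pool.Agent.H465R3.Cases2

namespace Pool.Agent.H465R3

/-- Lipschitz functions obtained as suprema of cones. -/
noncomputable def supf {X V : Type*} [NormedAddCommGroup X] (Φ : V → X) (c : V → ℝ) (L : ℝ)
    (y : X) : ℝ := ⨆ v, max 0 (c v - L * ‖y - Φ v‖)

section supf

variable {X V : Type*} [NormedAddCommGroup X] [Nonempty V] (Φ : V → X) (c : V → ℝ) {L : ℝ}

theorem supf_bdd (hc1 : ∀ v, c v ≤ 1) (hL : 0 ≤ L) (y : X) :
    BddAbove (Set.range fun v => max 0 (c v - L * ‖y - Φ v‖)) := by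
  refine ⟨1, ?_⟩
  rintro _ ⟨v, rfl⟩
  have := hc1 v
  have : 0 ≤ L * ‖y - Φ v‖ := by positivity
  exact max_le zero_le_one (by linarith)

theorem supf_ge (hc1 : ∀ v, c v ≤ 1) (hL : 0 ≤ L) (y : X) (v : V) :
    c v - L * ‖y - Φ v‖ ≤ supf Φ c L y :=
  (le_max_right _ _).trans (le_ciSup (supf_bdd Φ c hc1 hL y) v)

theorem supf_nonneg (hc1 : ∀ v, c v ≤ 1) (hL : 0 ≤ L) (y : X) : 0 ≤ supf Φ c L y :=
  le_ciSup_of_le (supf_bdd Φ c hc1 hL y) (Classical.arbitrary V) (le_max_left _ _)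

theorem supf_le {b : ℝ} (hb : 0 ≤ b) (y : X) (h : ∀ v, c v - L * ‖y - Φ v‖ ≤ b) :
    supf Φ c L y ≤ b := ciSup_le fun v => max_le hb (h v)

theorem supf_pos (hc1 : ∀ v, c v ≤ 1) (hL : 0 ≤ L) (y : X) (h : supf Φ c L y ≠ 0) :
    ∃ v, L * ‖y - Φ v‖ < c v := by
  have hpos : 0 < supf Φ c L y := lt_of_le_of_ne (supf_nonneg Φ c hc1 hL y) (Ne.symm h)
  obtain ⟨v, hv⟩ := exists_lt_of_lt_ciSup hpos
  refine ⟨v, ?_⟩
  rcases lt_max_iff.1 hv with h | h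
  · exact absurd h (lt_irrefl _)
  · linarith

theorem supf_lip1 (hc1 : ∀ v, c v ≤ 1) (hL : 0 ≤ L) (y y' : X) :
    supf Φ c L y ≤ supf Φ c L y' + L * ‖y - y'‖ := by
  refine ciSup_le fun v => ?_
  have h3 : ‖y' - Φ v‖ ≤ ‖y - y'‖ + ‖y - Φ v‖ := by
    have : y' - Φ v = -(y - y') + (y - Φ v) := by abel
    rw [this]
    refine (norm_add_le _ _).trans ?_
    rw [norm_neg]
  have h4 : L * ‖y' - Φ v‖ ≤ L * (‖y - y'‖ + ‖y - Φ v‖) := mul_le_mul_of_nonneg_left h3 hL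
  have h5 := supf_ge Φ c hc1 hL y' v
  have h6 := supf_nonneg Φ c hc1 hL y'
  have h7 : 0 ≤ L * ‖y - y'‖ := by positivity
  exact max_le (by linarith) (by linarith)

theorem supf_lip (hc1 : ∀ v, c v ≤ 1) (hL : 0 ≤ L) (y y' : X) :
    |supf Φ c L y - supf Φ c L y'| ≤ L * ‖y - y'‖ := by
  rw [abs_le]
  have h1 := supf_lip1 Φ c hc1 hL y y'
  have h2 := supf_lip1 Φ c hc1 hL y' y
  rw [norm_sub_rev y' y] at h2
  constructor <;> linarith

end supf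

theorem sum_lip {X V : Type*} [NormedAddCommGroup X] [NormedAddCommGroup V] (f : ℕ → X → V) (C : ℝ)
    (hf : ∀ n x x', ‖f n x - f n x'‖ ≤ C * ‖x - x'‖) {x x' : X} {n n' : ℕ}
    (h : ∀ i, i ≠ n → f i x = 0) (h' : ∀ i, i ≠ n' → f i x' = 0) :
    ‖∑ᶠ i, f i x - ∑ᶠ i, f i x'‖ ≤ 2 * C * ‖x - x'‖ := by
  have hC : 0 ≤ C * ‖x - x'‖ := (norm_nonneg _).trans (hf 0 x x')
  rw [finsum_eq_single _ n h, finsum_eq_single _ n' h']
  by_cases hn : n = n'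
  · subst hn
    have := hf n x x'
    linarith
  · have e : f n x - f n' x' = (f n x - f n x') + (f n' x - f n' x') := by
      rw [h' n hn, h n' (Ne.symm hn)]; abel
    rw [e]
    refine (norm_add_le _ _).trans ?_
    have := hf n x x'
    have := hf n' x x'
    linarith

variable {X : Type*} [NormedAddCommGroup X] [NormedSpace ℝ X]

/-- A nested system of uniformly complemented infinite-dimensional subspaces. -/
structure Nested (X : Type*) [NormedAddCommGroup X] [NormedSpace ℝ X] where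
  C : ℝ
  hC : 1 ≤ C
  Q : ℕ → X →L[ℝ] X
  x : ℕ → X
  f : ℕ → X →L[ℝ] ℝ
  hQ : ∀ n v, Q n (Q n v) = Q n v
  hQC : ∀ n v, ‖Q n v‖ ≤ C * ‖v‖
  hx : ∀ n, ‖x n‖ ≤ 1
  hf : ∀ n v, |f n v| ≤ C * ‖v‖
  hfx : ∀ n, f n (x n) = 1
  hQx : ∀ n, Q n (x n) = 0
  hfQ : ∀ n m v, n ≤ m → f n (Q m v) = 0
  hfxm : ∀ n m, n < m → f n (x m) = 0
  hinf : ∀ n, ¬ FiniteDimensional ℝ (LinearMap.range (Q n : X →ₗ[ℝ] X))

/-- the retraction data on the `n`-th subspace -/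
theorem Nested.exists_V (N : Nested X) (n : ℕ) : ∃ V : ℝ → X → X,
    (∀ s s', 0 < s → 0 < s' → ∀ v v', ‖V s v - V s' v'‖ ≤
      CR * N.C * ‖v - v'‖ + (1 + CR) * |s - s'|) ∧
    (∀ s, 0 < s → ∀ v, ‖V s v‖ = s) ∧ (∀ s v, N.Q n (V s v) = V s v) ∧
    (∀ s, 0 < s → ∀ v, ‖N.Q n v‖ = s → V s v = N.Q n v) := by
  let Y := LinearMap.range (N.Q n : X →ₗ[ℝ] X)
  obtain ⟨R, hR, hR1, hR2⟩ := exists_retr' (N.hinf n)
  let q : X → Y := fun v => ⟨N.Q n v, ⟨v, rfl⟩⟩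
  have hYQ : ∀ y : Y, N.Q n (y : X) = y := by
    rintro ⟨_, v, rfl⟩
    exact N.hQ n v
  have hq : ∀ v v', ‖q v - q v'‖ ≤ N.C * ‖v - v'‖ := by
    intro v v'
    change ‖N.Q n v - N.Q n v'‖ ≤ _
    rw [← map_sub]
    exact N.hQC n _
  refine ⟨fun s v => ((s • R (s⁻¹ • q v) : Y) : X), ?_, ?_, ?_, ?_⟩
  · intro s s' hs hs' v v'
    have h := scaled_lip CR_pos.le hR hR1 hR2 hs hs' (q v) (q v')
    refine h.trans ?_
    have := mul_le_mul_of_nonneg_left (hq v v') CR_pos.le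
    linarith
  · intro s hs v
    change ‖s • R (s⁻¹ • q v)‖ = s
    rw [norm_smul, hR1, mul_one, Real.norm_eq_abs, abs_of_pos hs]
  · intro s v
    exact hYQ _
  · intro s hs v hv
    have hn : ‖s⁻¹ • q v‖ = 1 := by
      rw [norm_smul, norm_inv, Real.norm_eq_abs, abs_of_pos hs]
      have : ‖q v‖ = s := hv
      rw [this, inv_mul_cancel₀ hs.ne']
    change ((s • R (s⁻¹ • q v) : Y) : X) = _
    rw [hR2 _ hn.ge, hn, inv_one, one_smul, smul_smul, mul_inv_cancel₀ hs.ne', one_smul]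

/-- parameters of the `n`-th arm -/
abbrev Nested.Arm (N : Nested X) (n : ℕ) : Type _ :=
  {p : ℝ × X // 0 ≤ p.1 ∧ p.1 ≤ mc n ∧ N.Q n p.2 = p.2 ∧ ‖p.2‖ = 1}

namespace Nested

variable (N : Nested X)

/-- points of the arms -/
noncomputable def apt (n : ℕ) (t : ℝ) (y : X) : X := (1 - t) • y + (t / 2) • N.x n

instance (n : ℕ) : Nonempty (N.Arm n) := by
  by_contra hc
  rw [not_nonempty_iff] at hc
  obtain ⟨V, _, h2, h3, _⟩ := N.exists_V n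
  exact hc.false ⟨(0, V 1 0), le_rfl, mc_nonneg n, h3 1 0, h2 1 one_pos 0⟩

/-- the cone functions of the arms -/
noncomputable def lam (L : ℝ) (n : ℕ) (v : X) : ℝ :=
  supf (V := N.Arm n) (fun p => N.apt n p.1.1 p.1.2) (fun p => p.1.1) L v

theorem arm_le (n : ℕ) (p : N.Arm n) : p.1.1 ≤ 1 := p.2.2.1.trans (mc_lt n).le

theorem f_apt_same {n : ℕ} {t : ℝ} {y : X} (hy : N.Q n y = y) : N.f n (N.apt n t y) = t / 2 := by
  unfold apt
  rw [map_add, map_smul, map_smul, N.hfx, ← hy, N.hfQ n n _ le_rfl]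
  simp

theorem f_apt_lt {n m : ℕ} (h : n < m) {t : ℝ} {y : X} (hy : N.Q m y = y) :
    N.f n (N.apt m t y) = 0 := by
  unfold apt
  rw [map_add, map_smul, map_smul, N.hfxm n m h, ← hy, N.hfQ n m _ h.le]
  simp

theorem norm_apt_le {n : ℕ} {t : ℝ} {y : X} (h0 : 0 ≤ t) (h1 : t ≤ 1) (hy : ‖y‖ = 1) :
    ‖N.apt n t y‖ ≤ 1 - t / 2 := by
  unfold apt
  refine (norm_add_le _ _).trans ?_
  rw [norm_smul, norm_smul, Real.norm_eq_abs, Real.norm_eq_abs, abs_of_nonneg (by linarith),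
    abs_of_nonneg (by linarith), hy]
  have := N.hx n
  nlinarith [norm_nonneg (N.x n)]

theorem norm_apt_ge {n : ℕ} {t : ℝ} {y : X} (h0 : 0 ≤ t) (h1 : t ≤ 1) (hy : ‖y‖ = 1) :
    1 - 3 / 2 * t ≤ ‖N.apt n t y‖ := by
  unfold apt
  have h2 : ‖(1 - t) • y‖ ≤ ‖(1 - t) • y + (t / 2) • N.x n‖ + ‖(t / 2) • N.x n‖ := by
    have : (1 - t) • y = ((1 - t) • y + (t / 2) • N.x n) - (t / 2) • N.x n := by abel
    conv_lhs => rw [this]
    exact norm_sub_le _ _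
  rw [norm_smul, norm_smul, Real.norm_eq_abs, Real.norm_eq_abs, abs_of_nonneg (by linarith),
    abs_of_nonneg (by linarith), hy] at h2
  have := N.hx n
  nlinarith [norm_nonneg (N.x n)]

theorem sep_same {n : ℕ} {t t' : ℝ} {y y' : X} (hy : N.Q n y = y) (hy' : N.Q n y' = y') :
    |t - t'| ≤ 2 * N.C * ‖N.apt n t y - N.apt n t' y'‖ := by
  have h := N.hf n (N.apt n t y - N.apt n t' y')
  rw [map_sub, N.f_apt_same hy, N.f_apt_same hy', ← sub_div, abs_div] at h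
  have : |(2:ℝ)| = 2 := by norm_num
  rw [this] at h
  linarith

theorem sep_lt {n m : ℕ} (hnm : n < m) {t t' : ℝ} {y y' : X} (h0 : 0 ≤ t) (h1 : t ≤ 1)
    (h0' : 0 ≤ t') (h1' : t' ≤ 1) (hy : N.Q n y = y) (hy' : N.Q m y' = y') (hn : ‖y‖ = 1)
    (hn' : ‖y'‖ = 1) : t + t' ≤ (2 + 8 * N.C) * ‖N.apt n t y - N.apt m t' y'‖ := by
  have h := N.hf n (N.apt n t y - N.apt m t' y')
  rw [map_sub, N.f_apt_same hy, N.f_apt_lt hnm hy', sub_zero, abs_of_nonneg (by linarith)] at h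
  have h2 := N.norm_apt_ge (n := n) h0 h1 hn
  have h3 := N.norm_apt_le (n := m) h0' h1' hn'
  have h4 : ‖N.apt n t y‖ ≤ ‖N.apt n t y - N.apt m t' y'‖ + ‖N.apt m t' y'‖ := by
    have : N.apt n t y = (N.apt n t y - N.apt m t' y') + N.apt m t' y' := by abel
    conv_lhs => rw [this]
    exact norm_add_le _ _
  nlinarith

theorem sep_ne {n m : ℕ} (hnm : n ≠ m) {t t' : ℝ} {y y' : X} (h0 : 0 ≤ t) (h1 : t ≤ 1)
    (h0' : 0 ≤ t') (h1' : t' ≤ 1) (hy : N.Q n y = y) (hy' : N.Q m y' = y') (hn : ‖y‖ = 1)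
    (hn' : ‖y'‖ = 1) : t + t' ≤ (2 + 8 * N.C) * ‖N.apt n t y - N.apt m t' y'‖ := by
  rcases lt_or_gt_of_ne hnm with h | h
  · exact N.sep_lt h h0 h1 h0' h1' hy hy' hn hn'
  · rw [add_comm, norm_sub_rev]
    exact N.sep_lt h h0' h1' h0 h1 hy' hy hn' hn

theorem sep_sphere {n : ℕ} {t : ℝ} {y u : X} (h0 : 0 ≤ t) (h1 : t ≤ 1) (hn : ‖y‖ = 1)
    (hu : ‖u‖ = 1) : t ≤ 2 * ‖u - N.apt n t y‖ := by
  have h3 := N.norm_apt_le (n := n) h0 h1 hn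
  have h4 : ‖u‖ ≤ ‖u - N.apt n t y‖ + ‖N.apt n t y‖ := by
    have : u = (u - N.apt n t y) + N.apt n t y := by abel
    conv_lhs => rw [this]
    exact norm_add_le _ _
  linarith

/-- basic Lipschitz constant -/
noncomputable def L1 : ℝ := 2 + 8 * N.C

theorem L1_ge : 10 ≤ N.L1 := by unfold L1; have := N.hC; linarith

theorem lam_nonneg {L : ℝ} (hL : 0 ≤ L) (n : ℕ) (v : X) : 0 ≤ N.lam L n v :=
  supf_nonneg _ _ (N.arm_le n) hL v

theorem lam_lip {L : ℝ} (hL : 0 ≤ L) (n : ℕ) (v v' : X) :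
    |N.lam L n v - N.lam L n v'| ≤ L * ‖v - v'‖ := supf_lip _ _ (N.arm_le n) hL v v'

theorem lam_ge {L : ℝ} (hL : 0 ≤ L) (n : ℕ) (v : X) (p : N.Arm n) :
    p.1.1 - L * ‖v - N.apt n p.1.1 p.1.2‖ ≤ N.lam L n v :=
  supf_ge (V := N.Arm n) (fun p => N.apt n p.1.1 p.1.2) (fun p => p.1.1) (N.arm_le n) hL v p

theorem lam_pos {L : ℝ} (hL : 0 ≤ L) (n : ℕ) (v : X) (h : N.lam L n v ≠ 0) :
    ∃ p : N.Arm n, L * ‖v - N.apt n p.1.1 p.1.2‖ < p.1.1 :=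
  supf_pos _ _ (N.arm_le n) hL v h

theorem lam_mono {L L' : ℝ} (hL : 0 ≤ L) (hLL : L ≤ L') (n : ℕ) (v : X) :
    N.lam L' n v ≤ N.lam L n v := by
  apply supf_le _ _ (N.lam_nonneg hL n v)
  intro p
  refine le_trans ?_ (N.lam_ge hL n v p)
  have := mul_le_mul_of_nonneg_right hLL (norm_nonneg (v - N.apt n p.1.1 p.1.2))
  beta_reduce
  linarith

theorem lam_apt {L : ℝ} (hL : N.L1 ≤ L) {n : ℕ} {t : ℝ} {y : X} (h0 : 0 ≤ t) (h1 : t ≤ mc n)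
    (hy : N.Q n y = y) (hn : ‖y‖ = 1) : N.lam L n (N.apt n t y) = t := by
  have hL1 := N.L1_ge
  have hL0 : 0 ≤ L := by linarith
  apply le_antisymm
  · apply supf_le _ _ h0
    intro p
    beta_reduce
    have h := N.sep_same (t := t) (t' := p.1.1) hy p.2.2.2.1
    have h2 : |t - p.1.1| ≤ L * ‖N.apt n t y - N.apt n p.1.1 p.1.2‖ := by
      refine h.trans (mul_le_mul_of_nonneg_right ?_ (norm_nonneg _))
      have : N.L1 = 2 + 8 * N.C := rfl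
      have := N.hC
      linarith
    have h3 := neg_le_abs (t - p.1.1)
    linarith
  · have h := N.lam_ge hL0 n (N.apt n t y) ⟨(t, y), h0, h1, hy, hn⟩
    simpa using h

theorem lam_apt_ne {L : ℝ} (hL : N.L1 ≤ L) {n m : ℕ} (hnm : n ≠ m) {t : ℝ} {y : X} (h0 : 0 ≤ t)
    (h1 : t ≤ mc m) (hy : N.Q m y = y) (hn : ‖y‖ = 1) : N.lam L n (N.apt m t y) = 0 := by
  have hL1 := N.L1_ge
  have hL0 : 0 ≤ L := by linarith
  apply le_antisymm
  · apply supf_le _ _ le_rfl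
    intro p
    beta_reduce
    have h := N.sep_ne (Ne.symm hnm) h0 (h1.trans (mc_lt m).le) p.2.1 (N.arm_le n p) hy p.2.2.2.1 hn
      p.2.2.2.2
    have h2 : (2 + 8 * N.C) * ‖N.apt m t y - N.apt n p.1.1 p.1.2‖ ≤
        L * ‖N.apt m t y - N.apt n p.1.1 p.1.2‖ := mul_le_mul_of_nonneg_right hL (norm_nonneg _)
    linarith
  · exact N.lam_nonneg hL0 _ _

theorem lam_sphere {L : ℝ} (hL : N.L1 ≤ L) (n : ℕ) {u : X} (hu : ‖u‖ = 1) : N.lam L n u = 0 := by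
  have hL1 := N.L1_ge
  have hL0 : 0 ≤ L := by linarith
  apply le_antisymm
  · apply supf_le _ _ le_rfl
    intro p
    beta_reduce
    have h := N.sep_sphere (n := n) p.2.1 (N.arm_le n p) p.2.2.2.2 hu
    have h2 : 2 * ‖u - N.apt n p.1.1 p.1.2‖ ≤ L * ‖u - N.apt n p.1.1 p.1.2‖ :=
      mul_le_mul_of_nonneg_right (by linarith) (norm_nonneg _)
    linarith
  · exact N.lam_nonneg hL0 _ _

theorem lam_disj {n m : ℕ} (hnm : n ≠ m) (v : X) (h : N.lam (2 * N.L1) n v ≠ 0) :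
    N.lam (2 * N.L1) m v = 0 := by
  by_contra hc
  have hL1 := N.L1_ge
  obtain ⟨p, hp⟩ := N.lam_pos (by linarith) n v h
  obtain ⟨r, hr⟩ := N.lam_pos (by linarith) m v hc
  have h1 := N.sep_ne hnm p.2.1 (N.arm_le n p) r.2.1 (N.arm_le m r) p.2.2.2.1 r.2.2.2.1 p.2.2.2.2
    r.2.2.2.2
  have h2 : ‖N.apt n p.1.1 p.1.2 - N.apt m r.1.1 r.1.2‖ ≤
      ‖v - N.apt n p.1.1 p.1.2‖ + ‖v - N.apt m r.1.1 r.1.2‖ := by
    have : N.apt n p.1.1 p.1.2 - N.apt m r.1.1 r.1.2 =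
      -(v - N.apt n p.1.1 p.1.2) + (v - N.apt m r.1.1 r.1.2) := by abel
    rw [this]
    refine (norm_add_le _ _).trans ?_
    rw [norm_neg]
  have h3 : (2 + 8 * N.C) = N.L1 := rfl
  rw [h3] at h1
  nlinarith [norm_nonneg (v - N.apt n p.1.1 p.1.2), norm_nonneg (v - N.apt m r.1.1 r.1.2)]

end Nested

end Pool.Agent.H465R3
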