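import Pool.Agent.H465R3.Nested

namespace Pool.Agent.H465R3

variable {X : Type*} [NormedAddCommGroup X] [NormedSpace ℝ X]

/-- ratio cut-off -/
noncomputable def gcut (a b : ℝ) : ℝ := min 1 (3 * b / a)

theorem gcut_le (a b : ℝ) : gcut a b ≤ 1 := min_le_left _ _

theorem gcut_nonneg {a b : ℝ} (ha : 0 ≤ a) (hb : 0 ≤ b) : 0 ≤ gcut a b :=
  le_min zero_le_one (by positivity)

theorem gcut_le' (a b : ℝ) : gcut a b ≤ 3 * b / a := min_le_right _ _

/-- the cut-off times a vector field vanishing at the right rate is Lipschitz -/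
theorem cut_lip {V : Type*} [NormedAddCommGroup V] [NormedSpace ℝ V] (a b : X → ℝ) (D : X → V)
    {La Lb CD M : ℝ} (ha : ∀ v, 0 ≤ a v) (hb : ∀ v, 0 ≤ b v) (hba : ∀ v, b v ≤ a v)
    (hLa : ∀ v v', |a v - a v'| ≤ La * ‖v - v'‖) (hLb : ∀ v v', |b v - b v'| ≤ Lb * ‖v - v'‖)
    (hD : ∀ v v', ‖D v - D v'‖ ≤ CD * ‖v - v'‖) (hM : 0 ≤ M)
    (hDa : ∀ v, b v ≠ 0 → ‖D v‖ ≤ M * a v) (v v' : X) :
    ‖gcut (a v) (b v) • D v - gcut (a v') (b v') • D v'‖ ≤
      (3 * (La + Lb) * M + 3 * Lb * M + CD) * ‖v - v'‖ := by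
  have hn := norm_nonneg (v - v')
  have hLa0 : 0 ≤ La * ‖v - v'‖ := (abs_nonneg _).trans (hLa v v')
  have hLb0 : 0 ≤ Lb * ‖v - v'‖ := (abs_nonneg _).trans (hLb v v')
  have hCD0 : 0 ≤ CD * ‖v - v'‖ := (norm_nonneg _).trans (hD v v')
  have zero_case : ∀ v v', b v ≠ 0 → b v' = 0 →
      ‖gcut (a v) (b v) • D v - gcut (a v') (b v') • D v'‖ ≤ 3 * Lb * M * ‖v - v'‖ := by
    intro v v' h h'
    have hav : 0 < a v := lt_of_lt_of_le (lt_of_le_of_ne (hb v) (Ne.symm h)) (hba v)
    have e : gcut (a v') (b v') = 0 := by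
      unfold gcut; rw [h']; simp
    rw [e, zero_smul, sub_zero, norm_smul, Real.norm_eq_abs,
      abs_of_nonneg (gcut_nonneg (ha v) (hb v))]
    have h1 := hDa v h
    have h2 := hLb v v'
    rw [h', sub_zero, abs_of_nonneg (hb v)] at h2
    calc gcut (a v) (b v) * ‖D v‖ ≤ (3 * b v / a v) * (M * a v) :=
          mul_le_mul (gcut_le' _ _) h1 (norm_nonneg _) (by have := hb v; positivity)
      _ = 3 * b v * M := by field_simp
      _ ≤ 3 * (Lb * ‖v - v'‖) * M := by gcongr
      _ = 3 * Lb * M * ‖v - v'‖ := by ring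
  have hsum0 : 0 ≤ (3 * (La + Lb) * M) * ‖v - v'‖ := by
    have : (3 * (La + Lb) * M) * ‖v - v'‖ = 3 * M * (La * ‖v - v'‖ + Lb * ‖v - v'‖) := by ring
    rw [this]; positivity
  have hsum1 : 0 ≤ (3 * Lb * M) * ‖v - v'‖ := by
    have : (3 * Lb * M) * ‖v - v'‖ = 3 * M * (Lb * ‖v - v'‖) := by ring
    rw [this]; positivity
  by_cases h : b v = 0 <;> by_cases h' : b v' = 0
  · have e : ∀ w, b w = 0 → gcut (a w) (b w) = 0 := by
      intro w hw; unfold gcut; rw [hw]; simp
    rw [e v h, e v' h', zero_smul, zero_smul, sub_zero, norm_zero]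
    nlinarith
  · have := zero_case v' v h' h
    rw [norm_sub_rev, norm_sub_rev v' v] at this
    nlinarith
  · have := zero_case v v' h h'
    nlinarith
  · have hav : 0 < a v := lt_of_lt_of_le (lt_of_le_of_ne (hb v) (Ne.symm h)) (hba v)
    have hav' : 0 < a v' := lt_of_lt_of_le (lt_of_le_of_ne (hb v') (Ne.symm h')) (hba v')
    have e : gcut (a v) (b v) • D v - gcut (a v') (b v') • D v' =
        (gcut (a v) (b v) - gcut (a v') (b v')) • D v + gcut (a v') (b v') • (D v - D v') := by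
      rw [sub_smul, smul_sub]; abel
    rw [e]
    refine (norm_add_le _ _).trans ?_
    rw [norm_smul, norm_smul, Real.norm_eq_abs, Real.norm_eq_abs,
      abs_of_nonneg (gcut_nonneg (ha v') (hb v'))]
    have h1 : gcut (a v') (b v') * ‖D v - D v'‖ ≤ 1 * (CD * ‖v - v'‖) :=
      mul_le_mul (gcut_le _ _) (hD v v') (norm_nonneg _) zero_le_one
    have h2 : |gcut (a v) (b v) - gcut (a v') (b v')| ≤ 3 * ((La + Lb) * ‖v - v'‖ / a v) := by
      unfold gcut
      rw [min_comm 1, min_comm 1]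
      refine (min_lip _ _ _).trans ?_
      have e2 : 3 * b v / a v - 3 * b v' / a v' =
          3 * ((b v - b v') / a v + (b v' / a v') * ((a v' - a v) / a v)) := by
        field_simp; ring
      rw [e2, abs_mul, abs_of_pos (by norm_num : (0:ℝ) < 3)]
      apply mul_le_mul_of_nonneg_left _ (by norm_num)
      refine (abs_add_le _ _).trans ?_
      rw [abs_mul, abs_div, abs_div, abs_div, abs_of_pos hav, abs_of_pos hav',
        abs_of_nonneg (hb v'), abs_sub_comm (a v') (a v)]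
      have e3 : b v' / a v' ≤ 1 := by rw [div_le_one hav']; exact hba v'
      have e4 : |b v - b v'| / a v ≤ Lb * ‖v - v'‖ / a v := by
        gcongr; exact hLb v v'
      have e5 : b v' / a v' * (|a v - a v'| / a v) ≤ 1 * (La * ‖v - v'‖ / a v) := by
        apply mul_le_mul e3 _ (by positivity) zero_le_one
        gcongr; exact hLa v v'
      have e6 : (La + Lb) * ‖v - v'‖ / a v = La * ‖v - v'‖ / a v + Lb * ‖v - v'‖ / a v := by ring
      rw [e6]
      linarith
    have h3 : |gcut (a v) (b v) - gcut (a v') (b v')| * ‖D v‖ ≤ 3 * (La + Lb) * M * ‖v - v'‖ := by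
      calc |gcut (a v) (b v) - gcut (a v') (b v')| * ‖D v‖
          ≤ 3 * ((La + Lb) * ‖v - v'‖ / a v) * (M * a v) := by
            refine mul_le_mul h2 (hDa v h) (norm_nonneg _) ?_
            exact (abs_nonneg _).trans h2
        _ = 3 * (La + Lb) * M * ‖v - v'‖ := by field_simp
    nlinarith

theorem gadget_of_nested (N : Nested X) : Gadget X := by
  classical
  have hX : ¬ FiniteDimensional ℝ X := by
    intro h
    exact N.hinf 0 inferInstance
  obtain ⟨R, hR, hR1, hR2⟩ := exists_retr' hX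
  choose V hV1 hV2 hV3 hV4 using N.exists_V
  have hRid : ∀ u, ‖u‖ = 1 → R u = u := by
    intro u hu
    rw [hR2 u hu.ge, hu, inv_one, one_smul]
  have hL1 := N.L1_ge
  have hC := N.hC
  have hCR := CR_pos
  set L := N.L1 with hLdef
  -- the three cone functions
  set l1 : ℕ → X → ℝ := fun n v => N.lam L n v with hl1
  set l2 : ℕ → X → ℝ := fun n v => N.lam (2 * L) n v with hl2
  set l3 : ℕ → X → ℝ := fun n v => N.lam (4 * L) n v with hl3
  have l1n : ∀ n v, 0 ≤ l1 n v := fun n v => N.lam_nonneg (by linarith) n v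
  have l2n : ∀ n v, 0 ≤ l2 n v := fun n v => N.lam_nonneg (by linarith) n v
  have l3n : ∀ n v, 0 ≤ l3 n v := fun n v => N.lam_nonneg (by linarith) n v
  have l21 : ∀ n v, l2 n v ≤ l1 n v := fun n v => N.lam_mono (by linarith) (by linarith) n v
  have l32 : ∀ n v, l3 n v ≤ l2 n v := fun n v => N.lam_mono (by linarith) (by linarith) n v
  have l1lip : ∀ n v v', |l1 n v - l1 n v'| ≤ L * ‖v - v'‖ := fun n v v' =>
    N.lam_lip (by linarith) n v v'
  have l2lip : ∀ n v v', |l2 n v - l2 n v'| ≤ 2 * L * ‖v - v'‖ := fun n v v' =>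
    N.lam_lip (by linarith) n v v'
  have l3lip : ∀ n v v', |l3 n v - l3 n v'| ≤ 4 * L * ‖v - v'‖ := fun n v v' =>
    N.lam_lip (by linarith) n v v'
  -- on the support of `l2`
  have hsupp2 : ∀ n v, l2 n v ≠ 0 → ∃ p : N.Arm n, ‖v - N.apt n p.1.1 p.1.2‖ < p.1.1 / (2 * L) ∧
      p.1.1 / 2 ≤ l1 n v := by
    intro n v h
    obtain ⟨p, hp⟩ := N.lam_pos (L := 2 * L) (by linarith) n v h
    have h1 : ‖v - N.apt n p.1.1 p.1.2‖ < p.1.1 / (2 * L) := by
      rw [lt_div_iff₀ (by linarith)]; linarith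
    refine ⟨p, h1, ?_⟩
    have h2 := N.lam_ge (L := L) (by linarith) n v p
    have h3 : L * ‖v - N.apt n p.1.1 p.1.2‖ ≤ p.1.1 / 2 := by linarith
    simp only [hl1]
    linarith
  -- on the support of `l3` the cut-off equals one
  have hsupp3 : ∀ n v, l3 n v ≠ 0 → gcut (l1 n v) (l2 n v) = 1 := by
    intro n v h
    obtain ⟨p, hp⟩ := N.lam_pos (L := 4 * L) (by linarith) n v h
    have hd := norm_nonneg (v - N.apt n p.1.1 p.1.2)
    have h2 := N.lam_ge (L := 2 * L) (by linarith) n v p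
    have h3 := (abs_le.1 (l1lip n v (N.apt n p.1.1 p.1.2))).2
    have h4 : l1 n (N.apt n p.1.1 p.1.2) = p.1.1 :=
      N.lam_apt le_rfl p.2.1 p.2.2.1 p.2.2.2.1 p.2.2.2.2
    rw [h4] at h3
    have hLp : 0 ≤ L * ‖v - N.apt n p.1.1 p.1.2‖ := by positivity
    have ht : 0 < p.1.1 := by linarith
    have e1 : l1 n v ≤ 5 / 4 * p.1.1 := by linarith
    have e2 : 1 / 2 * p.1.1 ≤ l2 n v := by simp only [hl2]; linarith
    have e3 : 0 < l1 n v := by have := l21 n v; linarith
    unfold gcut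
    apply min_eq_left
    rw [le_div_iff₀ e3]
    linarith
  -- the vector fields
  let D : ℕ → X → X := fun n v => V n 1 v - R v
  have hDlip : ∀ n v v', ‖D n v - D n v'‖ ≤ (CR * N.C + CR) * ‖v - v'‖ := by
    intro n v v'
    have e : D n v - D n v' = (V n 1 v - V n 1 v') - (R v - R v') := by simp only [D]; abel
    rw [e]
    refine (norm_sub_le _ _).trans ?_
    have h1 := hV1 n 1 1 one_pos one_pos v v'
    have h2 := hR v v'
    simp only [sub_self, abs_zero, mul_zero, add_zero] at h1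
    linarith
  have hDsmall : ∀ n v, l2 n v ≠ 0 → ‖D n v‖ ≤ (4 * (CR * N.C + CR)) * l1 n v := by
    intro n v h
    obtain ⟨p, hp1, hp2⟩ := hsupp2 n v h
    have hy0 : D n p.1.2 = 0 := by
      simp only [D]
      rw [hV4 n 1 one_pos p.1.2 (by rw [p.2.2.2.1]; exact p.2.2.2.2), hRid _ p.2.2.2.2,
        p.2.2.2.1, sub_self]
    have hd : ‖v - p.1.2‖ ≤ 2 * p.1.1 := by
      have e : v - p.1.2 = (v - N.apt n p.1.1 p.1.2) + (-(p.1.1 • p.1.2) + (p.1.1 / 2) • N.x n) := by
        unfold Nested.apt; module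
      rw [e]
      refine (norm_add_le _ _).trans ?_
      have e2 : ‖-(p.1.1 • p.1.2) + (p.1.1 / 2) • N.x n‖ ≤ p.1.1 + p.1.1 / 2 := by
        refine (norm_add_le _ _).trans ?_
        rw [norm_neg, norm_smul, norm_smul, p.2.2.2.2, Real.norm_eq_abs, Real.norm_eq_abs,
          abs_of_nonneg p.2.1, abs_of_nonneg (by have := p.2.1; linarith)]
        have := N.hx n
        have := p.2.1
        nlinarith [norm_nonneg (N.x n)]
      have e3 : p.1.1 / (2 * L) ≤ p.1.1 / 2 := by
        have := p.2.1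
        apply div_le_div_of_nonneg_left this (by norm_num) (by linarith)
      linarith
    have h3 := hDlip n v p.1.2
    rw [hy0, sub_zero] at h3
    have h4 : 0 ≤ CR * N.C + CR := by positivity
    calc ‖D n v‖ ≤ (CR * N.C + CR) * ‖v - p.1.2‖ := h3
      _ ≤ (CR * N.C + CR) * (2 * p.1.1) := by gcongr
      _ ≤ (CR * N.C + CR) * (4 * l1 n v) := by
          apply mul_le_mul_of_nonneg_left _ h4
          linarith
      _ = _ := by ring
  let W : ℕ → X → X := fun n v => gcut (l1 n v) (l2 n v) • D n v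
  obtain ⟨CW, hCW⟩ : ∃ CW : ℝ, ∀ n v v', ‖W n v - W n v'‖ ≤ CW * ‖v - v'‖ :=
    ⟨_, fun n v v' => cut_lip (l1 n) (l2 n) (D n) (l1n n) (l2n n) (l21 n) (l1lip n) (l2lip n)
      (hDlip n) (by positivity) (hDsmall n) v v'⟩
  let ts : ℕ → X → ℝ := fun n v => min (l3 n v) (mc n)
  have tsn : ∀ n v, 0 ≤ ts n v := fun n v => le_min (l3n n v) (mc_nonneg n)
  have ts1 : ∀ n v, ts n v ≤ mc n := fun n v => min_le_right _ _
  have tslt : ∀ n v, 0 < 1 - ts n v := fun n v => by have := ts1 n v; have := mc_lt n; linarith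
  have tslip : ∀ n v v', |ts n v - ts n v'| ≤ 4 * L * ‖v - v'‖ := fun n v v' =>
    (min_lip _ _ _).trans (l3lip n v v')
  let Br : ℕ → X → X := fun n v => V n (1 - ts n v) v - V n 1 v
  obtain ⟨CB, hCB⟩ : ∃ CB : ℝ, ∀ n v v', ‖Br n v - Br n v'‖ ≤ CB * ‖v - v'‖ := by
    refine ⟨CR * N.C + (1 + CR) * (4 * L) + CR * N.C, fun n v v' => ?_⟩
    have e : Br n v - Br n v' = (V n (1 - ts n v) v - V n (1 - ts n v') v') -
      (V n 1 v - V n 1 v') := by simp only [Br]; abel
    rw [e]
    refine (norm_sub_le _ _).trans ?_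
    have h1 := hV1 n 1 1 one_pos one_pos v v'
    have h2 := hV1 n (1 - ts n v) (1 - ts n v') (tslt n v) (tslt n v') v v'
    simp only [sub_self, abs_zero, mul_zero, add_zero] at h1
    have h3 : |1 - ts n v - (1 - ts n v')| ≤ 4 * L * ‖v - v'‖ := by
      have : 1 - ts n v - (1 - ts n v') = -(ts n v - ts n v') := by ring
      rw [this, abs_neg]; exact tslip n v v'
    have h4 : (1 + CR) * |1 - ts n v - (1 - ts n v')| ≤ (1 + CR) * (4 * L * ‖v - v'‖) := by
      apply mul_le_mul_of_nonneg_left h3 (by positivity)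
    linarith
  let Tx : ℕ → X → X := fun n v => (ts n v / 2) • N.x n
  have hTx : ∀ n v v', ‖Tx n v - Tx n v'‖ ≤ 4 * L * ‖v - v'‖ := by
    intro n v v'
    simp only [Tx]
    rw [← sub_smul, norm_smul, Real.norm_eq_abs, ← sub_div, abs_div]
    have h1 := tslip n v v'
    have h2 := N.hx n
    have h3 : |(2:ℝ)| = 2 := by norm_num
    rw [h3]
    have h4 := abs_nonneg (ts n v - ts n v')
    nlinarith [norm_nonneg (N.x n)]
  -- active index
  have hact : ∀ v, ∃ n, ∀ i, i ≠ n → l2 i v = 0 := by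
    intro v
    by_cases h : ∃ n, l2 n v ≠ 0
    · obtain ⟨n, hn⟩ := h
      exact ⟨n, fun i hi => N.lam_disj (Ne.symm hi) v hn⟩
    · push Not at h
      exact ⟨0, fun i _ => h i⟩
  have hl3z : ∀ i v, l2 i v = 0 → l3 i v = 0 := fun i v h =>
    le_antisymm ((l32 i v).trans h.le) (l3n i v)
  have htsz : ∀ i v, l3 i v = 0 → ts i v = 0 := by
    intro i v h
    simp only [ts]; rw [h]; exact min_eq_left (mc_nonneg i)
  have hWz : ∀ i v, l2 i v = 0 → W i v = 0 := by
    intro i v h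
    simp only [W]; rw [h]; unfold gcut; simp
  have hBrz : ∀ i v, l3 i v = 0 → Br i v = 0 := by
    intro i v h
    simp only [Br]; rw [htsz i v h]; simp
  have hTxz : ∀ i v, l3 i v = 0 → Tx i v = 0 := by
    intro i v h
    simp only [Tx]; rw [htsz i v h]; simp
  let I : X → X := fun v => R v + ∑ᶠ i, W i v
  let U : X → X := fun v => -R (I v) - ∑ᶠ i, Br i v + ∑ᶠ i, Tx i v
  -- evaluation at a point with active index `n`
  have hUeval : ∀ v n, (∀ i, i ≠ n → l2 i v = 0) →
      U v = -R (R v + W n v) - Br n v + Tx n v := by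
    intro v n hn
    simp only [U, I]
    rw [finsum_eq_single (fun i => W i v) n (fun i hi => hWz i v (hn i hi)),
      finsum_eq_single (fun i => Br i v) n (fun i hi => hBrz i v (hl3z i v (hn i hi))),
      finsum_eq_single (fun i => Tx i v) n (fun i hi => hTxz i v (hl3z i v (hn i hi)))]
  -- values of `U`: either on the sphere or on an arm
  have hUsphere : ∀ u, ‖u‖ = 1 → U u = -u := by
    intro u hu
    have h2 : ∀ i, l2 i u = 0 := fun i => N.lam_sphere (by linarith) i hu
    rw [hUeval u 0 (fun i _ => h2 i), hWz 0 u (h2 0), hBrz 0 u (hl3z 0 u (h2 0)),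
      hTxz 0 u (hl3z 0 u (h2 0)), add_zero, sub_zero, add_zero, hRid u hu, hRid u hu]
  have hUarm : ∀ n t y, 0 < t → t ≤ mc n → N.Q n y = y → ‖y‖ = 1 →
      U (N.apt n t y) = N.apt n t (-y) := by
    intro n t y h0 h1 hy hn
    have ht1 : t < 1 := lt_of_le_of_lt h1 (mc_lt n)
    have e1 : l1 n (N.apt n t y) = t := N.lam_apt le_rfl h0.le h1 hy hn
    have e2 : l2 n (N.apt n t y) = t := N.lam_apt (by linarith) h0.le h1 hy hn
    have e3 : l3 n (N.apt n t y) = t := N.lam_apt (by linarith) h0.le h1 hy hn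
    have e4 : ∀ i, i ≠ n → l2 i (N.apt n t y) = 0 := fun i hi =>
      N.lam_apt_ne (by linarith) hi h0.le h1 hy hn
    rw [hUeval _ n e4]
    have e5 : ts n (N.apt n t y) = t := by
      simp only [ts]; rw [e3, min_eq_left h1]
    have e6 : W n (N.apt n t y) = D n (N.apt n t y) := by
      simp only [W]
      rw [hsupp3 n _ (by rw [e3]; exact h0.ne'), one_smul]
    have e7 : R (N.apt n t y) + W n (N.apt n t y) = V n 1 (N.apt n t y) := by
      rw [e6]; simp only [D]; abel
    rw [e7, hRid _ (hV2 n 1 one_pos _)]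
    have e8 : N.Q n (N.apt n t y) = (1 - t) • y := by
      unfold Nested.apt
      rw [map_add, map_smul, map_smul, hy, N.hQx, smul_zero, add_zero]
    have e9 : V n (1 - t) (N.apt n t y) = (1 - t) • y := by
      rw [hV4 n (1 - t) (by linarith) _ (by
        rw [e8, norm_smul, hn, mul_one, Real.norm_eq_abs, abs_of_pos (by linarith)]), e8]
    simp only [Br, Tx]
    rw [e5, e9]
    unfold Nested.apt
    module
  have hUval : ∀ v, (∃ u, ‖u‖ = 1 ∧ U v = u) ∨
      (∃ n t y, 0 < t ∧ t ≤ mc n ∧ N.Q n y = y ∧ ‖y‖ = 1 ∧ U v = N.apt n t y) := by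
    intro v
    obtain ⟨n, hn⟩ := hact v
    rw [hUeval v n hn]
    by_cases h3 : l3 n v = 0
    · left
      refine ⟨_, ?_, rfl⟩
      rw [hBrz n v h3, hTxz n v h3, sub_zero, add_zero, norm_neg, hR1]
    · right
      have ht : 0 < ts n v := by
        simp only [ts]
        refine lt_min (lt_of_le_of_ne (l3n n v) (Ne.symm h3)) ?_
        unfold mc
        have : (0:ℝ) ≤ n := Nat.cast_nonneg n
        rw [sub_pos, div_lt_one (by linarith)]
        linarith
      have hs := tslt n v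
      refine ⟨n, ts n v, -((1 - ts n v)⁻¹ • V n (1 - ts n v) v), ht, ts1 n v, ?_, ?_, ?_⟩
      · rw [map_neg, map_smul, hV3]
      · rw [norm_neg, norm_smul, hV2 n _ hs, norm_inv, Real.norm_eq_abs, abs_of_pos hs,
          inv_mul_cancel₀ hs.ne']
      · have e6 : W n v = D n v := by
          simp only [W]
          rw [hsupp3 n v h3, one_smul]
        have e7 : R v + W n v = V n 1 v := by
          rw [e6]; simp only [D]; abel
        rw [e7, hRid _ (hV2 n 1 one_pos _)]
        simp only [Br, Tx]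
        unfold Nested.apt
        rw [smul_neg, smul_smul, mul_inv_cancel₀ hs.ne', one_smul]
        abel
  have hUU : ∀ v, U (U (U v)) = U v := by
    intro v
    rcases hUval v with ⟨u, hu, h⟩ | ⟨n, t, y, h0, h1, hy, hn, h⟩
    · rw [h, hUsphere u hu, hUsphere (-u) (by rw [norm_neg]; exact hu), neg_neg]
    · rw [h, hUarm n t y h0 h1 hy hn, hUarm n t (-y) h0 h1 (by rw [map_neg, hy])
        (by rw [norm_neg]; exact hn), neg_neg]
  have hUbd : ∀ v, ‖U v‖ ≤ 1 := by
    intro v
    rcases hUval v with ⟨u, hu, h⟩ | ⟨n, t, y, h0, h1, hy, hn, h⟩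
    · rw [h, hu]
    · rw [h]
      have := N.norm_apt_le (n := n) h0.le (h1.trans (mc_lt n).le) hn
      linarith
  have hUfix : ∀ v, U v ≠ v := by
    intro v hv
    rcases hUval v with ⟨u, hu, h⟩ | ⟨n, t, y, h0, h1, hy, hn, h⟩
    · rw [hv] at h
      rw [h, hUsphere u hu] at hv
      have : (2:ℝ) • u = 0 := by
        rw [two_smul]; nth_rewrite 1 [← hv]; exact neg_add_cancel u
      have : u = 0 := (smul_eq_zero.1 this).resolve_left (by norm_num)
      rw [this, norm_zero] at hu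
      exact zero_ne_one hu
    · rw [hv] at h
      rw [h, hUarm n t y h0 h1 hy hn] at hv
      have hs : 0 < 1 - t := by have := mc_lt n; linarith
      have e : (2 * (1 - t)) • y = 0 := by
        have : N.apt n t y - N.apt n t (-y) = (2 * (1 - t)) • y := by
          unfold Nested.apt; module
        rw [← this, hv, sub_self]
      have : y = 0 := (smul_eq_zero.1 e).resolve_left (by positivity)
      rw [this, norm_zero] at hn
      exact zero_ne_one hn
  obtain ⟨K0, hK01, hUlip⟩ : ∃ K0 : ℝ, 1 ≤ K0 ∧ ∀ v v', ‖U v - U v'‖ ≤ K0 * ‖v - v'‖ := by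
    refine ⟨1 + |CR * (CR + 2 * CW) + 2 * CB + 2 * (4 * L)|, by
      have := abs_nonneg (CR * (CR + 2 * CW) + 2 * CB + 2 * (4 * L)); linarith, fun v v' => ?_⟩
    obtain ⟨n, hn⟩ := hact v
    obtain ⟨n', hn'⟩ := hact v'
    have a1 := sum_lip W CW hCW (fun i hi => hWz i v (hn i hi)) (fun i hi => hWz i v' (hn' i hi))
    have a2 := sum_lip Br CB hCB (fun i hi => hBrz i v (hl3z i v (hn i hi)))
      (fun i hi => hBrz i v' (hl3z i v' (hn' i hi)))
    have a3 := sum_lip Tx (4 * L) hTx (fun i hi => hTxz i v (hl3z i v (hn i hi)))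
      (fun i hi => hTxz i v' (hl3z i v' (hn' i hi)))
    have a4 : ‖I v - I v'‖ ≤ (CR + 2 * CW) * ‖v - v'‖ := by
      have e : I v - I v' = (R v - R v') + (∑ᶠ i, W i v - ∑ᶠ i, W i v') := by
        simp only [I]; abel
      rw [e]
      refine (norm_add_le _ _).trans ?_
      have := hR v v'
      linarith
    have a5 := hR (I v) (I v')
    have e : U v - U v' = -(R (I v) - R (I v')) - (∑ᶠ i, Br i v - ∑ᶠ i, Br i v') +
        (∑ᶠ i, Tx i v - ∑ᶠ i, Tx i v') := by simp only [U]; abel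
    rw [e]
    refine (norm_add_le _ _).trans ((add_le_add_left (norm_sub_le _ _) _).trans ?_)
    rw [norm_neg]
    have a6 : CR * ‖I v - I v'‖ ≤ CR * ((CR + 2 * CW) * ‖v - v'‖) := by gcongr
    have a7 : CR * (CR + 2 * CW) + 2 * CB + 2 * (4 * L) ≤
        |CR * (CR + 2 * CW) + 2 * CB + 2 * (4 * L)| := le_abs_self _
    have a8 : (CR * (CR + 2 * CW) + 2 * CB + 2 * (4 * L)) * ‖v - v'‖ ≤
        |CR * (CR + 2 * CW) + 2 * CB + 2 * (4 * L)| * ‖v - v'‖ :=
      mul_le_mul_of_nonneg_right a7 (norm_nonneg _)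
    have a9 := norm_nonneg (v - v')
    nlinarith
  have hiter : ∀ n : ℕ, 1 ≤ n → (∀ a, U^[n] a = U a) ∨ (∀ a, U^[n] a = U (U a)) := by
    intro n hn
    induction n with
    | zero => omega
    | succ n ih =>
      rcases Nat.eq_zero_or_pos n with h | h
      · subst h; left; intro a; rfl
      · rcases ih h with h1 | h1
        · right; intro a; rw [Function.iterate_succ_apply', h1]
        · left; intro a; rw [Function.iterate_succ_apply', h1, hUU]
  refine ⟨U, K0 + K0 * K0, 1, ?_, le_rfl, ?_, hUbd, hUfix, ?_⟩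
  · nlinarith
  · intro n hn a b
    have hab := norm_nonneg (a - b)
    rcases hiter n hn with h | h
    · rw [h, h]
      refine (hUlip a b).trans ?_
      nlinarith [mul_nonneg (mul_nonneg (by linarith : 0 ≤ K0) (by linarith : 0 ≤ K0)) hab]
    · rw [h, h]
      refine (hUlip _ _).trans ?_
      have h1 := hUlip a b
      have h2 : K0 * ‖U a - U b‖ ≤ K0 * (K0 * ‖a - b‖) := by gcongr
      nlinarith [mul_nonneg (by linarith : 0 ≤ K0) hab]
  · intro η hη
    obtain ⟨n, hn⟩ := exists_nat_gt (2 / η)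
    have hnpos : (0:ℝ) < (n:ℝ) + 2 := by positivity
    have hmc0 : 0 < mc n := by
      unfold mc
      have : (0:ℝ) ≤ n := Nat.cast_nonneg n
      rw [sub_pos, div_lt_one (by linarith)]
      linarith
    obtain ⟨y, hy, hyn⟩ : ∃ y, N.Q n y = y ∧ ‖y‖ = 1 := ⟨V n 1 0, hV3 n 1 0, hV2 n 1 one_pos 0⟩
    refine ⟨N.apt n (mc n) y, ?_, ?_⟩
    · have := N.norm_apt_le (n := n) hmc0.le (mc_lt n).le hyn
      linarith
    · rw [hUarm n (mc n) y hmc0 le_rfl hy hyn]
      have e : N.apt n (mc n) y - N.apt n (mc n) (-y) = (2 * (1 - mc n)) • y := by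
        unfold Nested.apt; module
      rw [e, norm_smul, hyn, mul_one, Real.norm_eq_abs]
      have e4 : 2 * (1 - mc n) = 2 * (1 / ((n:ℝ) + 2)) := by unfold mc; ring
      rw [e4, abs_of_pos (by positivity), mul_one_div, div_lt_iff₀ hnpos]
      rw [div_lt_iff₀ hη] at hn
      nlinarith

end Pool.Agent.H465R3
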