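import Pool.Agent.H465R3.Projections

namespace Pool.Agent.H465R3

open TopologicalSpace

universe u

/-- The canonical embedding of `X` into its double dual is surjective. -/
def IsReflexiveSpace (X : Type*) [NormedAddCommGroup X] [NormedSpace ℝ X] : Prop :=
  Function.Surjective (NormedSpace.inclusionInDoubleDual ℝ X)

/-- a point outside a closed subspace is separated from it by a functional -/
theorem sep_closed {E : Type*} [NormedAddCommGroup E] [NormedSpace ℝ E] (R : Submodule ℝ E)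
    (hR : IsClosed (R : Set E)) {x : E} (hx : x ∉ R) :
    ∃ φ : E →L[ℝ] ℝ, (∀ y ∈ R, φ y = 0) ∧ φ x ≠ 0 := by
  obtain ⟨f, u, h1, h2⟩ := geometric_hahn_banach_closed_point R.convex hR hx
  have h0 : 0 < u := by simpa using h1 0 R.zero_mem
  refine ⟨f, fun y hy => ?_, fun h => ?_⟩
  · by_contra hne
    have h3 := h1 (((u + 1) / f y) • y) (R.smul_mem _ hy)
    rw [map_smul, smul_eq_mul, div_mul_cancel₀ _ hne] at h3
    linarith
  · rw [h] at h2
    linarith

variable {X : Type u} [NormedAddCommGroup X] [NormedSpace ℝ X]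

theorem exists_near_norming (f : X →L[ℝ] ℝ) (k : ℕ) :
    ∃ x : X, ‖x‖ ≤ 1 ∧ ‖f‖ - 1 / (k + 1) ≤ f x := by
  have hk : (0 : ℝ) < 1 / (k + 1) := by positivity
  obtain ⟨x, hx1, hx2⟩ := f.exists_lt_apply_of_lt_opNorm (show ‖f‖ - 1 / ((k : ℝ) + 1) < ‖f‖ by linarith)
  rw [Real.norm_eq_abs] at hx2
  rcases le_total 0 (f x) with h | h
  · refine ⟨x, hx1.le, ?_⟩
    rw [abs_of_nonneg h] at hx2
    exact hx2.le
  · refine ⟨-x, by rw [norm_neg]; exact hx1.le, ?_⟩
    rw [abs_of_nonpos h] at hx2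
    rw [map_neg]
    exact hx2.le

/-- One step of the back and forth construction. -/
theorem exists_step (s : Set X) (t : Set (X →L[ℝ] ℝ)) (hs : s.Countable) (ht : t.Countable) :
    ∃ (s' : Set X) (t' : Set (X →L[ℝ] ℝ)), s'.Countable ∧ t'.Countable ∧ s ⊆ s' ∧ t ⊆ t' ∧
      (∀ x ∈ Submodule.span ℝ s, ∀ ε : ℝ, 0 < ε → ∃ f ∈ t', ‖f‖ ≤ 1 ∧ ‖x‖ - ε ≤ f x) ∧
      (∀ f ∈ Submodule.span ℝ t, ∀ ε : ℝ, 0 < ε → ∃ x ∈ s', ‖x‖ ≤ 1 ∧ ‖f‖ - ε ≤ f x) := by
  obtain ⟨c, hc, hcs⟩ := (hs.isSeparable).span (R := ℝ)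
  obtain ⟨d, hd, hdt⟩ := (ht.isSeparable).span (R := ℝ)
  choose g hg1 hg2 using fun x : X => exists_dual_vector'' ℝ x
  choose h hh1 hh2 using fun f : X →L[ℝ] ℝ => exists_near_norming f
  refine ⟨s ∪ ⋃ f ∈ d, Set.range (h f), t ∪ g '' c, hs.union (hd.biUnion fun f _ =>
    Set.countable_range _), ht.union (hc.image g), Set.subset_union_left, Set.subset_union_left,
    ?_, ?_⟩
  · intro x hx ε hε
    obtain ⟨y, hy, hxy⟩ := Metric.mem_closure_iff.1 (hcs hx) (ε / 2) (by linarith)
    refine ⟨g y, Or.inr ⟨y, hy, rfl⟩, hg1 y, ?_⟩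
    rw [dist_eq_norm] at hxy
    have h1 : g y y = ‖y‖ := hg2 y
    have h2 : |g y (x - y)| ≤ ‖x - y‖ := by
      have := (g y).le_opNorm (x - y)
      rw [Real.norm_eq_abs] at this
      refine this.trans ?_
      exact mul_le_of_le_one_left (norm_nonneg _) (hg1 y)
    have h3 : g y x = g y y + g y (x - y) := by rw [← map_add]; congr 1; abel
    have h4 := (abs_le.1 h2).1
    have h5 : ‖x‖ ≤ ‖y‖ + ‖x - y‖ := by
      have := norm_add_le y (x - y)
      rwa [add_sub_cancel] at this
    rw [h3, h1]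
    linarith
  · intro f hf ε hε
    obtain ⟨e, he, hfe⟩ := Metric.mem_closure_iff.1 (hdt hf) (ε / 3) (by linarith)
    obtain ⟨k, hk⟩ := exists_nat_one_div_lt (show (0 : ℝ) < ε / 3 by linarith)
    refine ⟨h e k, Or.inr (Set.mem_biUnion he ⟨k, rfl⟩), hh1 e k, ?_⟩
    rw [dist_eq_norm] at hfe
    have h2 : |(f - e) (h e k)| ≤ ‖f - e‖ := by
      have := (f - e).le_opNorm (h e k)
      rw [Real.norm_eq_abs] at this
      refine this.trans ?_
      exact mul_le_of_le_one_right (norm_nonneg _) (hh1 e k)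
    have h3 : f (h e k) = e (h e k) + (f - e) (h e k) := by
      rw [ContinuousLinearMap.sub_apply]; ring
    have h4 := (abs_le.1 h2).1
    have h5 : ‖f‖ ≤ ‖e‖ + ‖f - e‖ := by
      have := norm_add_le e (f - e)
      rwa [add_sub_cancel] at this
    have h6 := hh2 e k
    rw [h3]
    linarith

/-- The back and forth construction: countable sets norming each other's spans. -/
theorem exists_limit (s0 : Set X) (hs0 : s0.Countable) :
    ∃ (s : Set X) (t : Set (X →L[ℝ] ℝ)), s.Countable ∧ s0 ⊆ s ∧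
      (∀ x ∈ Submodule.span ℝ s, ∀ ε : ℝ, 0 < ε → ∃ f ∈ t, ‖f‖ ≤ 1 ∧ ‖x‖ - ε ≤ f x) ∧
      (∀ f ∈ Submodule.span ℝ t, ∀ ε : ℝ, 0 < ε → ∃ x ∈ s, ‖x‖ ≤ 1 ∧ ‖f‖ - ε ≤ f x) := by
  classical
  let St := {p : Set X × Set (X →L[ℝ] ℝ) // p.1.Countable ∧ p.2.Countable}
  have hstep : ∀ p : St, ∃ q : St, p.1.1 ⊆ q.1.1 ∧ p.1.2 ⊆ q.1.2 ∧
      (∀ x ∈ Submodule.span ℝ p.1.1, ∀ ε : ℝ, 0 < ε → ∃ f ∈ q.1.2, ‖f‖ ≤ 1 ∧ ‖x‖ - ε ≤ f x) ∧
      (∀ f ∈ Submodule.span ℝ p.1.2, ∀ ε : ℝ, 0 < ε → ∃ x ∈ q.1.1, ‖x‖ ≤ 1 ∧ ‖f‖ - ε ≤ f x) := by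
    rintro ⟨⟨s, t⟩, hs, ht⟩
    obtain ⟨s', t', h1, h2, h3, h4, h5, h6⟩ := exists_step s t hs ht
    exact ⟨⟨⟨s', t'⟩, h1, h2⟩, h3, h4, h5, h6⟩
  choose nx hn1 hn2 hn3 hn4 using hstep
  let p0 : St := ⟨⟨s0, ∅⟩, hs0, Set.countable_empty⟩
  let q : ℕ → St := fun n => nx^[n] p0
  have hq : ∀ n, q (n + 1) = nx (q n) := fun n => Function.iterate_succ_apply' nx n p0
  have hm1 : Monotone fun n => (q n).1.1 := monotone_nat_of_le_succ fun n => by
    simp only [hq]; exact hn1 _
  have hm2 : Monotone fun n => (q n).1.2 := monotone_nat_of_le_succ fun n => by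
    simp only [hq]; exact hn2 _
  refine ⟨⋃ n, (q n).1.1, ⋃ n, (q n).1.2, Set.countable_iUnion fun n => (q n).2.1, ?_, ?_, ?_⟩
  · exact Set.subset_iUnion (fun n => (q n).1.1) 0
  · intro x hx ε hε
    rw [Submodule.span_iUnion, Submodule.mem_iSup_of_directed _
      (Monotone.directed_le fun a b hab => Submodule.span_mono (hm1 hab))] at hx
    obtain ⟨n, hn⟩ := hx
    obtain ⟨f, hf, h1, h2⟩ := hn3 (q n) x hn ε hε
    refine ⟨f, Set.mem_iUnion.2 ⟨n + 1, ?_⟩, h1, h2⟩
    rw [hq]; exact hf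
  · intro f hf ε hε
    rw [Submodule.span_iUnion, Submodule.mem_iSup_of_directed _
      (Monotone.directed_le fun a b hab => Submodule.span_mono (hm2 hab))] at hf
    obtain ⟨n, hn⟩ := hf
    obtain ⟨x, hx, h1, h2⟩ := hn4 (q n) f hn ε hε
    refine ⟨x, Set.mem_iUnion.2 ⟨n + 1, ?_⟩, h1, h2⟩
    rw [hq]; exact hx

/-- A nonseparable reflexive space has a projection of norm at most one onto an
infinite-dimensional separable subspace (Lindenstrauss). -/
theorem exists_projection_of_reflexive [CompleteSpace X] (hr : IsReflexiveSpace X)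
    (hns : ¬ SeparableSpace X) : ∃ P : X →L[ℝ] X, (∀ x, P (P x) = P x) ∧
      ¬ FiniteDimensional ℝ (LinearMap.range (P : X →ₗ[ℝ] X)) ∧
      ¬ FiniteDimensional ℝ (LinearMap.ker (P : X →ₗ[ℝ] X)) := by
  classical
  -- an infinite linearly independent sequence
  have hinf : ¬ FiniteDimensional ℝ X := by
    intro h
    apply hns
    have := FiniteDimensional.proper_real X
    infer_instance
  let b := Module.Basis.ofVectorSpace ℝ X
  have hbi : Infinite (Module.Basis.ofVectorSpaceIndex ℝ X) := by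
    by_contra hc
    rw [not_infinite_iff_finite] at hc
    exact hinf (Module.Finite.of_basis b)
  let e : ℕ ↪ Module.Basis.ofVectorSpaceIndex ℝ X := Infinite.natEmbedding _
  have hli : LinearIndependent ℝ (fun n : ℕ => b (e n)) :=
    b.linearIndependent.comp _ e.injective
  obtain ⟨s, t, hsc, hs0, hA, hB⟩ := exists_limit (Set.range fun n : ℕ => b (e n))
    (Set.countable_range _)
  set Z : Submodule ℝ X := (Submodule.span ℝ s).topologicalClosure with hZ
  let N : Submodule ℝ X :=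
    { carrier := {x | ∀ f ∈ t, f x = 0}
      add_mem' := fun {x y} hx hy f hf => by rw [map_add, hx f hf, hy f hf, add_zero]
      zero_mem' := fun f _ => map_zero f
      smul_mem' := fun c x hx f hf => by rw [map_smul, hx f hf, smul_zero] }
  have hZc : IsClosed (Z : Set X) := Submodule.isClosed_topologicalClosure _
  have hNc : IsClosed (N : Set X) := by
    have : (N : Set X) = ⋂ f ∈ t, {x | f x = 0} := by
      ext x; simp [N]
    rw [this]
    exact isClosed_biInter fun f _ => isClosed_eq f.continuous continuous_const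
  -- the basic inequality
  have hineq : ∀ z ∈ Z, ∀ w ∈ N, ‖z‖ ≤ ‖z + w‖ := by
    intro z hz w hw
    have hcl : IsClosed {z : X | ‖z‖ ≤ ‖z + w‖} :=
      isClosed_le continuous_norm (continuous_norm.comp (continuous_id.add continuous_const))
    have hsub : (Submodule.span ℝ s : Set X) ⊆ {z : X | ‖z‖ ≤ ‖z + w‖} := by
      intro x hx
      change ‖x‖ ≤ ‖x + w‖
      refine le_of_forall_pos_le_add fun ε hε => ?_
      obtain ⟨f, hf, h1, h2⟩ := hA x hx ε hε
      have h3 : f (x + w) = f x := by rw [map_add, hw f hf, add_zero]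
      have h4 : f (x + w) ≤ ‖x + w‖ := by
        have := (le_abs_self _).trans ((Real.norm_eq_abs _).symm.le.trans (f.le_opNorm (x + w)))
        exact this.trans (mul_le_of_le_one_left (norm_nonneg _) h1)
      linarith
    have := closure_minimal hsub hcl
    rw [← Submodule.topologicalClosure_coe] at this
    exact this hz
  -- density
  have hdense : ∀ φ : X →L[ℝ] ℝ, (∀ z ∈ Z, φ z = 0) → (∀ w ∈ N, φ w = 0) → φ = 0 := by
    intro φ h1 h2
    have hmem : φ ∈ (Submodule.span ℝ t).topologicalClosure := by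
      by_contra hc
      obtain ⟨F, hF1, hF2⟩ := sep_closed _ (Submodule.isClosed_topologicalClosure _) hc
      obtain ⟨x, hx⟩ := hr F
      have hFx : ∀ f : X →L[ℝ] ℝ, F f = f x := by
        intro f
        rw [← hx]
        rfl
      apply hF2
      rw [hFx]
      apply h2
      intro f hf
      rw [← hFx]
      exact hF1 f (Submodule.le_topologicalClosure _ (Submodule.subset_span hf))
    rw [← norm_le_zero_iff]
    refine le_of_forall_pos_le_add fun ε hε => ?_
    rw [← SetLike.mem_coe, Submodule.topologicalClosure_coe] at hmem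
    obtain ⟨f, hf, hφf⟩ := Metric.mem_closure_iff.1 hmem (ε / 3) (by linarith)
    rw [dist_eq_norm] at hφf
    obtain ⟨x, hx, hx1, hx2⟩ := hB f hf (ε / 3) (by linarith)
    have h3 : φ x = 0 := h1 x (Submodule.le_topologicalClosure _ (Submodule.subset_span hx))
    have h4 : |(φ - f) x| ≤ ‖φ - f‖ := by
      have := (φ - f).le_opNorm x
      rw [Real.norm_eq_abs] at this
      exact this.trans (mul_le_of_le_one_right (norm_nonneg _) hx1)
    rw [ContinuousLinearMap.sub_apply, h3, zero_sub, abs_neg] at h4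
    have h5 := (le_abs_self (f x)).trans h4
    have h6 : ‖φ‖ ≤ ‖f‖ + ‖φ - f‖ := by
      have := norm_add_le f (φ - f)
      rwa [add_sub_cancel] at this
    linarith
  -- the sum map
  haveI : CompleteSpace Z := hZc.completeSpace_coe
  haveI : CompleteSpace N := hNc.completeSpace_coe
  let L : (Z × N) →L[ℝ] X := Z.subtypeL.coprod N.subtypeL
  have hL : ∀ p : Z × N, L p = (p.1 : X) + p.2 := fun p => by simp [L]
  have hanti : AntilipschitzWith 2 L := by
    refine ContinuousLinearMap.antilipschitz_of_bound L fun p => ?_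
    rw [hL]
    have h1 := hineq p.1 p.1.2 p.2 p.2.2
    have h2 : ‖(p.2 : X)‖ ≤ ‖(p.1 : X) + p.2‖ + ‖(p.1 : X)‖ := by
      have := norm_sub_le ((p.1 : X) + p.2) (p.1 : X)
      rwa [add_sub_cancel_left] at this
    have h3 : ‖p‖ = max ‖(p.1 : X)‖ ‖(p.2 : X)‖ := rfl
    rw [h3]
    have h4 := norm_nonneg ((p.1 : X) + p.2)
    refine max_le ?_ ?_
    · push_cast; linarith
    · push_cast; linarith
  have hcl : IsClosed (Set.range L) := hanti.isClosed_range L.uniformContinuous
  have hsurj : ∀ x : X, ∃ p : Z × N, L p = x := by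
    intro x
    by_contra hc
    have hx : x ∉ LinearMap.range (L : (Z × N) →ₗ[ℝ] X) := by
      rintro ⟨p, hp⟩
      exact hc ⟨p, hp⟩
    obtain ⟨φ, h1, h2⟩ := sep_closed (LinearMap.range (L : (Z × N) →ₗ[ℝ] X)) (by
      have : ((LinearMap.range (L : (Z × N) →ₗ[ℝ] X) : Submodule ℝ X) : Set X) = Set.range L := by
        ext y; simp
      rw [this]; exact hcl) hx
    apply h2
    rw [hdense φ (fun z hz => h1 z ⟨(⟨z, hz⟩, 0), by
      change L _ = _
      rw [hL]; simp⟩) (fun w hw => h1 w ⟨(0, ⟨w, hw⟩), by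
      change L _ = _
      rw [hL]; simp⟩)]
    simp
  choose p hp using hsurj
  have hadd : ∀ x y, p (x + y) = p x + p y := fun x y => hanti.injective (by
    rw [hp, map_add, hp, hp])
  have hsm : ∀ (c : ℝ) x, p (c • x) = c • p x := fun c x => hanti.injective (by
    rw [hp, map_smul, hp])
  have hp' : ∀ x, ((p x).1 : X) + (p x).2 = x := fun x => by rw [← hL, hp]
  let P : X →L[ℝ] X := LinearMap.mkContinuous
    { toFun := fun x => ((p x).1 : X)
      map_add' := fun x y => by rw [hadd]; rfl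
      map_smul' := fun c x => by rw [hsm]; rfl } 1 (fun x => by
        rw [one_mul]
        have := hineq (p x).1 (p x).1.2 (p x).2 (p x).2.2
        rwa [hp'] at this)
  have hP : ∀ x, P x = ((p x).1 : X) := fun x => rfl
  have hPZ : ∀ z ∈ Z, P z = z := by
    intro z hz
    have : p z = (⟨z, hz⟩, 0) := hanti.injective (by rw [hp, hL]; simp)
    rw [hP, this]
  have hPN : ∀ w ∈ N, P w = 0 := by
    intro w hw
    have : p w = (0, ⟨w, hw⟩) := hanti.injective (by rw [hp, hL]; simp)
    rw [hP, this]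
    rfl
  refine ⟨P, fun x => hPZ _ (by rw [hP]; exact (p x).1.2), ?_, ?_⟩
  · intro hfd
    have hmem : ∀ n : ℕ, b (e n) ∈ LinearMap.range (P : X →ₗ[ℝ] X) := fun n =>
      ⟨b (e n), hPZ _ (Submodule.le_topologicalClosure _ (Submodule.subset_span
        (hs0 ⟨n, rfl⟩)))⟩
    have hli2 : LinearIndependent ℝ (fun n : ℕ =>
        (⟨b (e n), hmem n⟩ : LinearMap.range (P : X →ₗ[ℝ] X))) := by
      apply LinearIndependent.of_comp (LinearMap.range (P : X →ₗ[ℝ] X)).subtype
      exact hli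
    have := hli2.finite_of_isNoetherian
    exact not_finite ℕ
  · intro hfd
    apply hns
    have hNP : N ≤ LinearMap.ker (P : X →ₗ[ℝ] X) := fun w hw => hPN w hw
    have hNfd : FiniteDimensional ℝ N := Submodule.finiteDimensional_of_le hNP
    have : ProperSpace N := FiniteDimensional.proper_real N
    have hNsep : IsSeparable (N : Set X) := by
      have h1 : IsSeparable (Set.univ : Set N) := isSeparable_univ_iff.2 inferInstance
      have h2 := h1.image continuous_subtype_val
      rwa [Set.image_univ, Subtype.range_coe_subtype, SetLike.setOf_mem_eq] at h2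
    have hZsep : IsSeparable (Z : Set X) := by
      rw [hZ, Submodule.topologicalClosure_coe]
      exact ((hsc.isSeparable).span (R := ℝ)).closure
    rw [← isSeparable_univ_iff]
    have h3 : IsSeparable ((fun q : X × X => q.1 + q.2) '' ((Z : Set X) ×ˢ (N : Set X))) :=
      (hZsep.prod hNsep).image continuous_add
    refine h3.mono fun x _ => ?_
    exact ⟨((p x).1, (p x).2), ⟨(p x).1.2, (p x).2.2⟩, hp' x⟩

theorem propertyH_of_nonseparable_reflexive [CompleteSpace X] (hr : IsReflexiveSpace X)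
    (hns : ¬ SeparableSpace X) : PropertyH X := by
  obtain ⟨P, h1, h2, h3⟩ := exists_projection_of_reflexive hr hns
  exact propertyH_of_projection P h1 h2 h3

end Pool.Agent.H465R3
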