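import Pool.Agent.H465R3.Schauder

namespace Pool.Agent.H465R3

variable {X : Type*} [NormedAddCommGroup X] [NormedSpace ℝ X]

/-- `X` has an infinite, strictly increasing, uniformly bounded sequence of commuting bounded
projections all of whose kernels are infinite-dimensional (for example, the partial sum
projections of a Schauder basis or of any finite- or infinite-dimensional Schauder
decomposition). -/
def HasIncreasingProjections (X : Type*) [NormedAddCommGroup X] [NormedSpace ℝ X] : Prop :=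
  ∃ (P : ℕ → X →L[ℝ] X) (K : ℝ), (∀ n, ‖P n‖ ≤ K) ∧
    (∀ n m v, n ≤ m → P n (P m v) = P n v ∧ P m (P n v) = P n v) ∧
    (∀ n, P n ≠ P (n + 1)) ∧
    ∀ n, ¬ FiniteDimensional ℝ (LinearMap.ker (P n : X →ₗ[ℝ] X))

theorem exists_nested_of_projections (h : HasIncreasingProjections X) : Nonempty (Nested X) := by
  classical
  obtain ⟨P, K, hK, hP, hne, hker⟩ := h
  have hK0 : 0 ≤ K := (norm_nonneg _).trans (hK 0)
  have hPK : ∀ n v, ‖P n v‖ ≤ K * ‖v‖ := fun n v =>
    ((P n).le_opNorm v).trans (mul_le_mul_of_nonneg_right (hK n) (norm_nonneg v))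
  let Δ : ℕ → X →L[ℝ] X := fun n => P (n + 1) - P n
  have hΔ : ∀ n v, Δ n v = P (n + 1) v - P n v := fun n v => rfl
  have hx : ∀ n, ∃ x, ‖x‖ = 1 ∧ Δ n x = x := by
    intro n
    obtain ⟨v, hv⟩ : ∃ v, Δ n v ≠ 0 := by
      by_contra hc
      push Not at hc
      apply hne n
      ext v
      have := hc v
      rw [hΔ, sub_eq_zero] at this
      exact this.symm
    have hidem : Δ n (Δ n v) = Δ n v := by
      simp only [hΔ, map_sub]
      rw [(hP (n+1) (n+1) v le_rfl).1, (hP n (n+1) v (by omega)).1, (hP n (n+1) v (by omega)).2,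
        (hP n n v le_rfl).1]
      abel
    refine ⟨‖Δ n v‖⁻¹ • Δ n v, ?_, ?_⟩
    · rw [norm_smul, norm_inv, norm_norm, inv_mul_cancel₀ (norm_ne_zero_iff.2 hv)]
    · rw [map_smul, hidem]
  choose x hx1 hx2 using hx
  have hφ : ∀ n, ∃ φ : X →L[ℝ] ℝ, ‖φ‖ = 1 ∧ φ (x n) = 1 := by
    intro n
    have hne0 : ‖x n‖ ≠ 0 := by
      rw [hx1 n]; exact one_ne_zero
    obtain ⟨φ, h1, h2⟩ := exists_dual_vector ℝ (x n) hne0
    refine ⟨φ, h1, ?_⟩
    rw [h2, hx1]
    simp
  choose φ hφ1 hφ2 using hφ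
  have hQ : ∀ n v, (ContinuousLinearMap.id ℝ X - P (n+1)) v = v - P (n+1) v := fun n v => rfl
  have hΔP : ∀ n m v, n + 1 ≤ m → Δ n (P m v) = Δ n v := by
    intro n m v hnm
    rw [hΔ, hΔ, (hP (n+1) m v hnm).1, (hP n m v (by omega)).1]
  have hf : ∀ n v, ((φ n).comp (Δ n)) v = φ n (Δ n v) := fun n v => rfl
  refine ⟨⟨1 + 2 * K, by linarith, fun n => ContinuousLinearMap.id ℝ X - P (n+1), x,
    fun n => (φ n).comp (Δ n), ?_, ?_, ?_, ?_, ?_, ?_, ?_, ?_, ?_⟩⟩
  · intro n v
    simp only [hQ]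
    rw [map_sub, (hP (n+1) (n+1) v le_rfl).1]
    abel
  · intro n v
    rw [hQ]
    refine (norm_sub_le _ _).trans ?_
    have := hPK (n+1) v
    have := norm_nonneg v
    nlinarith
  · intro n
    exact (hx1 n).le
  · intro n v
    rw [hf, ← Real.norm_eq_abs]
    have h1 := (φ n).le_opNorm (Δ n v)
    rw [hφ1, one_mul] at h1
    refine h1.trans ?_
    rw [hΔ]
    refine (norm_sub_le _ _).trans ?_
    have := hPK (n+1) v
    have := hPK n v
    have := norm_nonneg v
    nlinarith
  · intro n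
    rw [hf, hx2, hφ2]
  · intro n
    rw [hQ]
    have h1 : P (n+1) (x n) = x n := by
      conv_lhs => rw [← hx2 n]
      rw [hΔ, map_sub, (hP (n+1) (n+1) _ le_rfl).1, (hP n (n+1) _ (by omega)).2, ← hΔ, hx2]
    rw [h1, sub_self]
  · intro n m v hnm
    rw [hf, hQ, map_sub, hΔP n (m+1) v (by omega), sub_self, map_zero]
  · intro n m hnm
    rw [hf]
    have h1 : Δ n (x m) = 0 := by
      conv_lhs => rw [← hx2 m]
      rw [hΔ m, map_sub, hΔP n (m+1) _ (by omega), hΔP n m _ (by omega), sub_self]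
    rw [h1, map_zero]
  · intro n hfd
    apply hker (n+1)
    have hle : LinearMap.ker (P (n+1) : X →ₗ[ℝ] X) ≤
        LinearMap.range ((ContinuousLinearMap.id ℝ X - P (n+1) : X →L[ℝ] X) : X →ₗ[ℝ] X) := by
      intro v hv
      refine ⟨v, ?_⟩
      change (ContinuousLinearMap.id ℝ X - P (n+1)) v = v
      rw [hQ]
      have : P (n+1) v = 0 := hv
      rw [this, sub_zero]
    exact Submodule.finiteDimensional_of_le hle

theorem propertyH_of_increasingProjections (h : HasIncreasingProjections X) : PropertyH X :=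
  (gadget_of_nested (exists_nested_of_projections h).some).propertyH

end Pool.Agent.H465R3
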