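import Pool.Agent.H465R3.Disp

namespace Pool.Agent.H465R3

variable {E : Type*} [NormedAddCommGroup E] [NormedSpace ℝ E]

theorem normalize_lip {a b : E} {δ : ℝ} (hδ : 0 < δ) (ha : δ ≤ ‖a‖) (hb : δ ≤ ‖b‖) :
    ‖‖a‖⁻¹ • a - ‖b‖⁻¹ • b‖ ≤ 2 / δ * ‖a - b‖ := by
  have ha0 : 0 < ‖a‖ := lt_of_lt_of_le hδ ha
  have hb0 : 0 < ‖b‖ := lt_of_lt_of_le hδ hb
  have e : ‖a‖⁻¹ • a - ‖b‖⁻¹ • b = ‖a‖⁻¹ • (a - b) + (‖a‖⁻¹ - ‖b‖⁻¹) • b := by
    rw [smul_sub, sub_smul]; abel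
  rw [e]
  refine (norm_add_le _ _).trans ?_
  rw [norm_smul, norm_smul, Real.norm_eq_abs, Real.norm_eq_abs, abs_of_pos (inv_pos.2 ha0)]
  have h1 : ‖a‖⁻¹ - ‖b‖⁻¹ = (‖b‖ - ‖a‖) * (‖a‖⁻¹ * ‖b‖⁻¹) := by field_simp
  have h2 : |‖a‖⁻¹ - ‖b‖⁻¹| * ‖b‖ = |‖b‖ - ‖a‖| * ‖a‖⁻¹ := by
    rw [h1, abs_mul, abs_mul, abs_of_pos (inv_pos.2 ha0), abs_of_pos (inv_pos.2 hb0)]
    field_simp
  rw [h2]
  have h3 : |‖b‖ - ‖a‖| ≤ ‖a - b‖ := by
    rw [abs_sub_comm]; exact abs_norm_sub_norm_le a b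
  have h4 : ‖a‖⁻¹ ≤ δ⁻¹ := inv_anti₀ hδ ha
  have h5 := norm_nonneg (a - b)
  have h6 : 0 < ‖a‖⁻¹ := inv_pos.2 ha0
  calc ‖a‖⁻¹ * ‖a - b‖ + |‖b‖ - ‖a‖| * ‖a‖⁻¹ ≤ ‖a‖⁻¹ * ‖a - b‖ + ‖a - b‖ * ‖a‖⁻¹ := by
        gcongr
    _ ≤ δ⁻¹ * ‖a - b‖ + ‖a - b‖ * δ⁻¹ := by gcongr
    _ = 2 / δ * ‖a - b‖ := by ring

/-- the universal constant -/
noncomputable def CR : ℝ := 2 / (1 / (64 * 1024)) * ((4 + 10000 * 1024) * 5)

/-- Benyamini-Sternfeld: a Lipschitz retraction onto the unit sphere which is radial outside the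
unit ball. -/
theorem exists_retr' (hE : ¬ FiniteDimensional ℝ E) : ∃ (R : E → E),
    (∀ y y', ‖R y - R y'‖ ≤ CR * ‖y - y'‖) ∧ (∀ y, ‖R y‖ = 1) ∧
    (∀ y, 1 ≤ ‖y‖ → R y = ‖y‖⁻¹ • y) := by
  obtain ⟨F, hFL⟩ := exists_fan' hE
  have hL := F.hL
  set δ : ℝ := 1 / (64 * F.L) with hδ
  have hδ0 : 0 < δ := by rw [hδ]; positivity
  have hδ1 : δ ≤ 1 := by
    rw [hδ, div_le_one (by linarith)]; linarith
  let φ : E → ℝ := fun y => max 0 (min (5 - ‖y‖) 1)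
  have φ0 : ∀ y, 0 ≤ φ y := fun y => le_max_left _ _
  have φ1 : ∀ y, φ y ≤ 1 := fun y => max_le zero_le_one (min_le_right _ _)
  have φlip : ∀ y y', |φ y - φ y'| ≤ ‖y - y'‖ := by
    intro y y'
    refine (max_lip _ _ _).trans ((min_lip _ _ _).trans ?_)
    have : 5 - ‖y‖ - (5 - ‖y'‖) = -(‖y‖ - ‖y'‖) := by ring
    rw [this, abs_neg]
    exact abs_norm_sub_norm_le y y'
  let G : E → E := fun y => y - φ y • F.T y
  have Glip : ∀ y y', ‖G y - G y'‖ ≤ (4 + 10000 * F.L) * ‖y - y'‖ := by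
    intro y y'
    have e : G y - G y' = (y - y') - ((φ y - φ y') • F.T y + φ y' • (F.T y - F.T y')) := by
      simp only [G, smul_sub, sub_smul]; abel
    rw [e]
    refine (norm_sub_le _ _).trans ?_
    have h1 : ‖(φ y - φ y') • F.T y + φ y' • (F.T y - F.T y')‖ ≤
        ‖y - y'‖ * 3 + 1 * (10000 * F.L * ‖y - y'‖) := by
      refine (norm_add_le _ _).trans ?_
      rw [norm_smul, norm_smul, Real.norm_eq_abs, Real.norm_eq_abs, abs_of_nonneg (φ0 y')]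
      exact add_le_add (mul_le_mul (φlip y y') (F.T_disp y).2 (norm_nonneg _) (norm_nonneg _))
        (mul_le_mul (φ1 y') (F.T_lip y y') (norm_nonneg _) zero_le_one)
    linarith
  have Glow : ∀ y, δ ≤ ‖G y‖ := by
    intro y
    by_cases hy : ‖y‖ ≤ 4
    · have : φ y = 1 := by
        simp only [φ]
        rw [min_eq_right (by linarith), max_eq_right zero_le_one]
      simp only [G]
      rw [this, one_smul]
      exact (F.T_disp y).1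
    · push Not at hy
      have h1 : ‖y‖ ≤ ‖G y‖ + ‖φ y • F.T y‖ := by
        have : y = G y + φ y • F.T y := by simp [G]
        conv_lhs => rw [this]
        exact norm_add_le _ _
      have h2 : ‖φ y • F.T y‖ ≤ 1 * 3 := by
        rw [norm_smul, Real.norm_eq_abs, abs_of_nonneg (φ0 y)]
        exact mul_le_mul (φ1 y) (F.T_disp y).2 (norm_nonneg _) zero_le_one
      linarith
  have Gfar : ∀ y, 5 ≤ ‖y‖ → G y = y := by
    intro y hy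
    have : φ y = 0 := by
      simp only [φ]
      exact max_eq_left ((min_le_left _ _).trans (by linarith))
    simp only [G]
    rw [this, zero_smul, sub_zero]
  have hCR : CR = 2 / δ * ((4 + 10000 * F.L) * 5) := by
    rw [hδ, hFL]; rfl
  rw [hCR]
  refine ⟨fun y => ‖G ((5:ℝ) • y)‖⁻¹ • G ((5:ℝ) • y), ?_, ?_, ?_⟩
  · intro y y'
    refine (normalize_lip hδ0 (Glow _) (Glow _)).trans ?_
    have h1 := Glip ((5:ℝ) • y) ((5:ℝ) • y')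
    rw [← smul_sub, norm_smul] at h1
    have h2 : ‖(5:ℝ)‖ = 5 := by norm_num
    rw [h2] at h1
    have h3 : 0 ≤ 2 / δ := by positivity
    calc 2 / δ * ‖G ((5:ℝ) • y) - G ((5:ℝ) • y')‖ ≤ 2 / δ * ((4 + 10000 * F.L) * (5 * ‖y - y'‖)) :=
          mul_le_mul_of_nonneg_left h1 h3
      _ = _ := by ring
  · intro y
    simp only
    rw [norm_smul, norm_inv, norm_norm]
    exact inv_mul_cancel₀ (lt_of_lt_of_le hδ0 (Glow _)).ne'
  · intro y hy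
    simp only
    have h2 : ‖(5:ℝ)‖ = 5 := by norm_num
    rw [Gfar ((5:ℝ) • y) (by rw [norm_smul, h2]; linarith), norm_smul, h2, mul_inv, smul_smul]
    congr 1
    field_simp

theorem CR_pos : 0 < CR := by unfold CR; norm_num

theorem exists_retr (hE : ¬ FiniteDimensional ℝ E) : ∃ (R : E → E) (C : ℝ), 0 ≤ C ∧
    (∀ y y', ‖R y - R y'‖ ≤ C * ‖y - y'‖) ∧ (∀ y, ‖R y‖ = 1) ∧
    (∀ y, 1 ≤ ‖y‖ → R y = ‖y‖⁻¹ • y) := by
  obtain ⟨R, h1, h2, h3⟩ := exists_retr' hE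
  exact ⟨R, CR, CR_pos.le, h1, h2, h3⟩

theorem scaled_lip {R : E → E} {C : ℝ} (hC : 0 ≤ C) (hR : ∀ y y', ‖R y - R y'‖ ≤ C * ‖y - y'‖)
    (hR1 : ∀ y, ‖R y‖ = 1) (hR2 : ∀ y, 1 ≤ ‖y‖ → R y = ‖y‖⁻¹ • y) {s s' : ℝ} (hs : 0 < s)
    (hs' : 0 < s') (y y' : E) :
    ‖s • R (s⁻¹ • y) - s' • R (s'⁻¹ • y')‖ ≤ C * ‖y - y'‖ + (1 + C) * |s - s'| := by
  have h1 : ∀ (r : ℝ), 0 < r → ∀ y y', ‖r • R (r⁻¹ • y) - r • R (r⁻¹ • y')‖ ≤ C * ‖y - y'‖ := by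
    intro r hr y y'
    rw [← smul_sub, norm_smul, Real.norm_eq_abs, abs_of_pos hr]
    have h := hR (r⁻¹ • y) (r⁻¹ • y')
    rw [← smul_sub, norm_smul, Real.norm_eq_abs, abs_of_pos (inv_pos.2 hr)] at h
    calc r * ‖R (r⁻¹ • y) - R (r⁻¹ • y')‖ ≤ r * (C * (r⁻¹ * ‖y - y'‖)) :=
          mul_le_mul_of_nonneg_left h hr.le
      _ = C * ‖y - y'‖ := by field_simp
  have h2 : ∀ (r r' : ℝ), 0 < r → r ≤ r' → ∀ y,
      ‖r • R (r⁻¹ • y) - r' • R (r'⁻¹ • y)‖ ≤ (1 + C) * (r' - r) := by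
    intro r r' hr hrr y
    have hr' : 0 < r' := lt_of_lt_of_le hr hrr
    by_cases hy : r' ≤ ‖y‖
    · have hy0 : 0 < ‖y‖ := lt_of_lt_of_le hr' hy
      have e1 : R (r⁻¹ • y) = ‖y‖⁻¹ • y := by
        have hn : ‖r⁻¹ • y‖ = r⁻¹ * ‖y‖ := by
          rw [norm_smul, Real.norm_eq_abs, abs_of_pos (inv_pos.2 hr)]
        rw [hR2 _ (by rw [hn, ← div_eq_inv_mul, le_div_iff₀ hr]; linarith), hn, smul_smul]
        congr 1
        field_simp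
      have e2 : R (r'⁻¹ • y) = ‖y‖⁻¹ • y := by
        have hn : ‖r'⁻¹ • y‖ = r'⁻¹ * ‖y‖ := by
          rw [norm_smul, Real.norm_eq_abs, abs_of_pos (inv_pos.2 hr')]
        rw [hR2 _ (by rw [hn, ← div_eq_inv_mul, le_div_iff₀ hr']; linarith), hn, smul_smul]
        congr 1
        field_simp
      rw [e1, e2, ← sub_smul, norm_smul, norm_smul, norm_inv, norm_norm, inv_mul_cancel₀ hy0.ne',
        mul_one, Real.norm_eq_abs, abs_sub_comm, abs_of_nonneg (by linarith)]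
      nlinarith
    · push Not at hy
      have e : r • R (r⁻¹ • y) - r' • R (r'⁻¹ • y) =
          r • (R (r⁻¹ • y) - R (r'⁻¹ • y)) + (r - r') • R (r'⁻¹ • y) := by
        rw [smul_sub, sub_smul]; abel
      rw [e]
      refine (norm_add_le _ _).trans ?_
      rw [norm_smul, norm_smul, hR1, mul_one, Real.norm_eq_abs, Real.norm_eq_abs, abs_of_pos hr,
        abs_sub_comm r r', abs_of_nonneg (by linarith : 0 ≤ r' - r)]
      have h := hR (r⁻¹ • y) (r'⁻¹ • y)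
      have hnn : ‖r⁻¹ • y - r'⁻¹ • y‖ = (r⁻¹ - r'⁻¹) * ‖y‖ := by
        rw [← sub_smul, norm_smul, Real.norm_eq_abs, abs_of_nonneg]
        rw [sub_nonneg]
        exact inv_anti₀ hr hrr
      rw [hnn] at h
      have h3 : r * ‖R (r⁻¹ • y) - R (r'⁻¹ • y)‖ ≤ C * (r' - r) := by
        calc r * ‖R (r⁻¹ • y) - R (r'⁻¹ • y)‖ ≤ r * (C * ((r⁻¹ - r'⁻¹) * ‖y‖)) :=
              mul_le_mul_of_nonneg_left h hr.le
          _ ≤ r * (C * ((r⁻¹ - r'⁻¹) * r')) := by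
              have : 0 ≤ r⁻¹ - r'⁻¹ := by rw [sub_nonneg]; exact inv_anti₀ hr hrr
              gcongr
          _ = C * (r' - r) := by field_simp
      linarith
  have e : s • R (s⁻¹ • y) - s' • R (s'⁻¹ • y') =
      (s • R (s⁻¹ • y) - s • R (s⁻¹ • y')) + (s • R (s⁻¹ • y') - s' • R (s'⁻¹ • y')) := by abel
  rw [e]
  refine (norm_add_le _ _).trans (add_le_add (h1 s hs y y') ?_)
  rcases le_total s s' with h | h
  · rw [abs_sub_comm, abs_of_nonneg (by linarith)]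
    exact h2 s s' hs h y'
  · rw [abs_of_nonneg (by linarith), norm_sub_rev]
    exact h2 s' s hs' h y'

end Pool.Agent.H465R3
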