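import Mathlib

namespace Pool.Agent.H465R3

variable {E : Type*} [NormedAddCommGroup E] [NormedSpace ℝ E]

/-- A bounded sequence each of whose terms is at distance at least one from the span of the
previous ones. -/
def IsRiesz (x : ℕ → E) : Prop :=
  (∀ n, ‖x n‖ ≤ 3) ∧ ∀ n, ∀ y ∈ Submodule.span ℝ (x '' Set.Iio n), 1 ≤ ‖x n - y‖

theorem exists_riesz (hE : ¬ FiniteDimensional ℝ E) : ∃ x : ℕ → E, IsRiesz x := by
  classical
  have step : ∀ F : {F : Submodule ℝ E // FiniteDimensional ℝ F},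
      ∃ v : E, ‖v‖ ≤ 3 ∧ ∀ y ∈ F.1, 1 ≤ ‖v - y‖ := by
    rintro ⟨F, hF⟩
    have hc : IsClosed (F : Set E) := Submodule.closed_of_finiteDimensional F
    have hex : ∃ v, v ∉ F := by
      by_contra h
      push Not at h
      have hT : F = ⊤ := by
        ext v; simp [h v]
      subst hT
      exact hE (Module.Finite.equiv (Submodule.topEquiv (R := ℝ) (M := E)))
    obtain ⟨v, hv1, hv2⟩ := riesz_lemma_of_norm_lt (c := (2:ℝ)) (by norm_num) (R := 3)
      (by norm_num) hc hex
    exact ⟨v, hv1, hv2⟩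
  choose v hv1 hv2 using step
  let nxt : {F : Submodule ℝ E // FiniteDimensional ℝ F} →
      {F : Submodule ℝ E // FiniteDimensional ℝ F} := fun F =>
    ⟨F.1 ⊔ Submodule.span ℝ {v F}, by
      haveI := F.2
      infer_instance⟩
  let S : ℕ → {F : Submodule ℝ E // FiniteDimensional ℝ F} := fun n =>
    Nat.rec ⟨⊥, inferInstance⟩ (fun _ F => nxt F) n
  have hS : ∀ n, S (n+1) = nxt (S n) := fun n => rfl
  have hmono : ∀ n m, n ≤ m → (S n).1 ≤ (S m).1 := by
    intro n m h
    induction h with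
    | refl => exact le_rfl
    | step h ih =>
      refine ih.trans ?_
      rw [hS]
      exact le_sup_left
  have hmem : ∀ k, v (S k) ∈ (S (k+1)).1 := by
    intro k
    rw [hS]
    exact (le_sup_right : Submodule.span ℝ {v (S k)} ≤ _) (Submodule.mem_span_singleton_self _)
  refine ⟨fun n => v (S n), fun n => hv1 _, fun n y hy => hv2 (S n) y ?_⟩
  have : Submodule.span ℝ ((fun n => v (S n)) '' Set.Iio n) ≤ (S n).1 := by
    rw [Submodule.span_le]
    rintro _ ⟨k, hk, rfl⟩
    exact hmono (k+1) n hk (hmem k)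
  exact this hy

theorem coord_bound {x : ℕ → E} (hx : IsRiesz x) (a : ℕ → ℝ) : ∀ (s : Finset ℕ),
    ∀ i ∈ s, |a i| ≤ 4 ^ s.card * ‖∑ j ∈ s, a j • x j‖ := by
  intro s
  induction s using Finset.induction_on_max with
  | empty => simp
  | insert m s hm ih =>
    have hms : m ∉ s := fun h => lt_irrefl _ (hm m h)
    rw [Finset.sum_insert hms, Finset.card_insert_of_notMem hms]
    set w : E := ∑ j ∈ s, a j • x j with hw
    have hwm : w ∈ Submodule.span ℝ (x '' Set.Iio m) := by
      refine Submodule.sum_mem _ fun j hj => Submodule.smul_mem _ _ (Submodule.subset_span ?_)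
      exact ⟨j, hm j hj, rfl⟩
    have h1 : |a m| ≤ ‖a m • x m + w‖ := by
      by_cases ha : a m = 0
      · simp [ha]
      · have h2 := hx.2 m (-((a m)⁻¹ • w)) (Submodule.neg_mem _ (Submodule.smul_mem _ _ hwm))
        have h3 : a m • x m + w = a m • (x m - -((a m)⁻¹ • w)) := by
          rw [sub_neg_eq_add, smul_add, smul_smul, mul_inv_cancel₀ ha, one_smul]
        rw [h3, norm_smul, Real.norm_eq_abs]
        nlinarith [abs_nonneg (a m)]
    have h4 : ‖w‖ ≤ 4 * ‖a m • x m + w‖ := by
      have h5 : w = (a m • x m + w) - a m • x m := by abel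
      have h6 : ‖w‖ ≤ ‖a m • x m + w‖ + ‖a m • x m‖ := by
        conv_lhs => rw [h5]
        exact norm_sub_le _ _
      have h7 : ‖a m • x m‖ ≤ |a m| * 3 := by
        rw [norm_smul, Real.norm_eq_abs]
        exact mul_le_mul_of_nonneg_left (hx.1 m) (abs_nonneg _)
      linarith
    have hpos : (1:ℝ) ≤ 4 ^ s.card := one_le_pow₀ (by norm_num)
    intro i hi
    rcases Finset.mem_insert.1 hi with rfl | hi
    · rw [pow_succ]
      nlinarith [norm_nonneg (a i • x i + w)]
    · have h8 := ih i hi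
      calc |a i| ≤ 4 ^ s.card * ‖w‖ := h8
        _ ≤ 4 ^ s.card * (4 * ‖a m • x m + w‖) := by gcongr
        _ = 4 ^ (s.card + 1) * ‖a m • x m + w‖ := by rw [pow_succ]; ring

end Pool.Agent.H465R3
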