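import Pool.Agent.H465R3.NestedMap

namespace Pool.Agent.H465R3

open Filter Topology

variable {X : Type*} [NormedAddCommGroup X] [NormedSpace ℝ X]

/-- `X` has a Schauder basis: a sequence `e` with continuous biorthogonal coordinate functionals
`f` such that the partial sums of `∑ f n x • e n` converge to `x` for every `x`. -/
def HasSchauderBasis (X : Type*) [NormedAddCommGroup X] [NormedSpace ℝ X] : Prop :=
  ∃ (e : ℕ → X) (f : ℕ → X →L[ℝ] ℝ), (∀ i j, f i (e j) = if i = j then 1 else 0) ∧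
    ∀ x, Tendsto (fun N => ∑ n ∈ Finset.range N, f n x • e n) atTop (𝓝 x)

theorem exists_nested_of_schauder [CompleteSpace X] (h : HasSchauderBasis X) :
    Nonempty (Nested X) := by
  classical
  obtain ⟨e, f, hef, hlim⟩ := h
  let S : ℕ → X →L[ℝ] X := fun N => ∑ n ∈ Finset.range N, (f n).smulRight (e n)
  have hS : ∀ N x, S N x = ∑ n ∈ Finset.range N, f n x • e n := by
    intro N x
    simp [S]
  obtain ⟨K, hK⟩ : ∃ K, ∀ N, ‖S N‖ ≤ K := by
    apply banach_steinhaus
    intro x
    have h1 : Tendsto (fun N => S N x) atTop (𝓝 x) := by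
      simp only [hS]; exact hlim x
    obtain ⟨K, hK⟩ := h1.norm.bddAbove_range
    exact ⟨K, fun N => hK ⟨N, rfl⟩⟩
  have hK0 : 0 ≤ K := (norm_nonneg _).trans (hK 0)
  have hSK : ∀ N v, ‖S N v‖ ≤ K * ‖v‖ := fun N v =>
    ((S N).le_opNorm v).trans (mul_le_mul_of_nonneg_right (hK N) (norm_nonneg v))
  have hfS : ∀ n N v, n < N → f n (S N v) = f n v := by
    intro n N v hn
    rw [hS, map_sum]
    simp only [map_smul, hef, smul_eq_mul, mul_ite, mul_one, mul_zero]
    rw [Finset.sum_ite_eq, if_pos (Finset.mem_range.2 hn)]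
  have hSe : ∀ j N, j < N → S N (e j) = e j := by
    intro j N hj
    rw [hS, Finset.sum_eq_single j]
    · rw [hef, if_pos rfl, one_smul]
    · intro b _ hb
      rw [hef, if_neg hb, zero_smul]
    · intro hb; exact absurd (Finset.mem_range.2 hj) hb
  have hSe' : ∀ j N, N ≤ j → S N (e j) = 0 := by
    intro j N hj
    rw [hS]
    apply Finset.sum_eq_zero
    intro b hb
    have := Finset.mem_range.1 hb
    rw [hef, if_neg (by omega), zero_smul]
  have hSS : ∀ N v, S N (S N v) = S N v := by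
    intro N v
    conv_lhs => rw [hS]
    rw [hS N v]
    apply Finset.sum_congr rfl
    intro n hn
    rw [← hS, hfS n N v (Finset.mem_range.1 hn)]
  have he0 : ∀ n, e n ≠ 0 := by
    intro n h0
    have := hef n n
    rw [h0, map_zero, if_pos rfl] at this
    exact zero_ne_one this
  have hli := linearIndependent_of_biorthogonal hef
  have hQ : ∀ n v, (ContinuousLinearMap.id ℝ X - S (n+1)) v = v - S (n+1) v := fun n v => rfl
  refine ⟨⟨1 + 2 * K, by linarith, fun n => ContinuousLinearMap.id ℝ X - S (n+1),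
    fun n => ‖e n‖⁻¹ • e n, fun n => ‖e n‖ • f n, ?_, ?_, ?_, ?_, ?_, ?_, ?_, ?_, ?_⟩⟩
  · intro n v
    simp only [hQ]
    rw [map_sub, hSS]
    abel
  · intro n v
    rw [hQ]
    refine (norm_sub_le _ _).trans ?_
    have := hSK (n+1) v
    have := norm_nonneg v
    nlinarith
  · intro n
    rw [norm_smul, norm_inv, norm_norm, inv_mul_cancel₀ (norm_ne_zero_iff.2 (he0 n))]
  · intro n v
    have h1 : (‖e n‖ • f n) v = ‖e n‖ * f n v := rfl
    rw [h1, abs_mul, abs_norm, mul_comm, ← Real.norm_eq_abs, ← norm_smul]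
    have h2 : f n v • e n = S (n+1) v - S n v := by
      rw [hS, hS, Finset.sum_range_succ]; abel
    rw [h2]
    refine (norm_sub_le _ _).trans ?_
    have := hSK (n+1) v
    have := hSK n v
    have := norm_nonneg v
    nlinarith
  · intro n
    have h1 : (‖e n‖ • f n) (‖e n‖⁻¹ • e n) = ‖e n‖ * (‖e n‖⁻¹ * f n (e n)) := by
      simp; ring
    rw [h1, hef, if_pos rfl, mul_one, mul_inv_cancel₀ (norm_ne_zero_iff.2 (he0 n))]
  · intro n
    rw [hQ, map_smul, hSe n (n+1) (by omega), sub_self]
  · intro n m v hnm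
    have h1 : (‖e n‖ • f n) ((ContinuousLinearMap.id ℝ X - S (m+1)) v) =
        ‖e n‖ * (f n (v - S (m+1) v)) := rfl
    rw [h1, map_sub, hfS n (m+1) v (by omega), sub_self, mul_zero]
  · intro n m hnm
    have h1 : (‖e n‖ • f n) (‖e m‖⁻¹ • e m) = ‖e n‖ * (‖e m‖⁻¹ * f n (e m)) := by
      simp; ring
    rw [h1, hef, if_neg (by omega)]
    ring
  · intro n
    apply not_fd_of_biorthogonal _ (fun k => e (n + 1 + k)) (hli.comp _ (fun a b h => by simpa using h))
    intro k
    refine ⟨e (n + 1 + k), ?_⟩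
    change (ContinuousLinearMap.id ℝ X - S (n+1)) (e (n + 1 + k)) = _
    rw [hQ, hSe' (n + 1 + k) (n + 1) (by omega), sub_zero]

theorem propertyH_of_schauder [CompleteSpace X] (h : HasSchauderBasis X) : PropertyH X :=
  (gadget_of_nested (exists_nested_of_schauder h).some).propertyH

end Pool.Agent.H465R3
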